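import Mathlib

/-!
# Minimal hypersurfaces of a closed hypersurface of Euclidean space: definitions

All Riemannian manifolds in this file are complete connected smooth hypersurfaces
`M = {Φ = 0}` of a finite-dimensional Euclidean space `F` (with `Φ` smooth and `0` a regular
value), endowed with the Riemannian metric induced by `F`.  Such an `M` is a closed subset of
`F`, so it is a complete Riemannian manifold; its dimension is `finrank ℝ F - 1`.

Area means the `n`-dimensional Euclidean Hausdorff measure `μHE[n]`, normalised as usual.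
-/

open MeasureTheory Set
open scoped ContDiff ENNReal RealInnerProductSpace Gradient

namespace Pool.Agent.H48.IndexOne

variable {F : Type*} [NormedAddCommGroup F] [InnerProductSpace ℝ F] [FiniteDimensional ℝ F]

/-- The squared Hilbert-Schmidt norm `∑ i, ‖A (e i)‖ ^ 2` of an endomorphism `A` of `F`
(`e` any orthonormal basis of `F`), written as the trace of `A† A`. -/
noncomputable def hsSq (A : F →L[ℝ] F) : ℝ :=
  LinearMap.trace ℝ F ((ContinuousLinearMap.adjoint A ∘L A : F →L[ℝ] F) : F →ₗ[ℝ] F)

/-- A complete connected Riemannian manifold presented as a smooth hypersurface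
`{p | Φ p = 0}` of the Euclidean space `F`, where `Φ` is smooth and its differential does not
vanish on the zero set.  The Riemannian metric is the one induced by `F`. -/
structure EuclideanHypersurface (F : Type*) [NormedAddCommGroup F] [InnerProductSpace ℝ F]
    [FiniteDimensional ℝ F] where
  /-- the defining function -/
  Φ : F → ℝ
  contDiff : ContDiff ℝ ∞ Φ
  regular : ∀ p, Φ p = 0 → fderiv ℝ Φ p ≠ 0
  connected : IsConnected {p | Φ p = 0}

namespace EuclideanHypersurface

variable (M : EuclideanHypersurface F)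

/-- The underlying set of points of `M`. -/
def carrier : Set F := {p | M.Φ p = 0}

/-- The tangent space of `M` at `p ∈ M`. -/
noncomputable def tangent (p : F) : Submodule ℝ F := LinearMap.ker (fderiv ℝ M.Φ p : F →ₗ[ℝ] ℝ)

/-- The unit normal vector field `∇Φ / |∇Φ|` of `M`. -/
noncomputable def unitNormal (p : F) : F := ‖∇ M.Φ p‖⁻¹ • ∇ M.Φ p

/-- The shape operator (Weingarten map) `v ↦ D_v n` of `M` in `F` at `p ∈ M`, as a map from `F`
to `F` which is precomposed and postcomposed with the orthogonal projection onto the tangent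
space of `M` at `p`. -/
noncomputable def shape (p : F) : F →L[ℝ] F :=
  (M.tangent p).starProjection ∘L fderiv ℝ M.unitNormal p ∘L (M.tangent p).starProjection

/-- The Ricci curvature `Ric(v, v)` of `M` at `p ∈ M` for `v` tangent to `M`, given by the Gauss
equation `Ric(v, v) = tr(S) ⟨S v, v⟩ - |S v| ^ 2` where `S` is the shape operator. -/
noncomputable def ricci (p v : F) : ℝ :=
  LinearMap.trace ℝ F (M.shape p : F →ₗ[ℝ] F) * ⟪M.shape p v, v⟫ - ‖M.shape p v‖ ^ 2

/-- `Γ` is a (closed as a subset, smooth, embedded) hypersurface of `M`: it is a closed subset of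
`M` which is locally the zero set in `M` of a smooth function `h` whose restriction to `M` has
nonzero differential at the points of `Γ`. -/
structure IsHypersurface (Γ : Set F) : Prop where
  isClosed : IsClosed Γ
  subset : Γ ⊆ M.carrier
  locally_zero_set : ∀ p ∈ Γ, ∃ (U : Set F) (h : F → ℝ), IsOpen U ∧ p ∈ U ∧ ContDiff ℝ ∞ h ∧
    Γ ∩ U = {q | q ∈ M.carrier ∧ h q = 0} ∩ U ∧
    ∀ q ∈ Γ ∩ U, ∃ v ∈ M.tangent q, fderiv ℝ h q v ≠ 0

end EuclideanHypersurface

/-- The tangent space at `p` of a smooth embedded submanifold `Γ` of `F`: the span of the tangent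
cone of `Γ` at `p`. -/
def tangentSp (Γ : Set F) (p : F) : Submodule ℝ F := Submodule.span ℝ (tangentConeAt ℝ Γ p)

namespace EuclideanHypersurface

variable (M : EuclideanHypersurface F)

/-- The normal space at `p` of a hypersurface `Γ` in `M`: the vectors tangent to `M` and
orthogonal to `Γ`.  It is a line. -/
noncomputable def normalSp (Γ : Set F) (p : F) : Submodule ℝ F := M.tangent p ⊓ (tangentSp Γ p)ᗮ

/-- The hypersurface `Γ` of `M` is two-sided: its normal bundle is trivial, i.e. the normal bundle,
which is a line bundle, has a continuous section without zeros. -/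
def IsTwoSided (Γ : Set F) : Prop :=
  ∃ ν : F → F, ContinuousOn ν Γ ∧ ∀ p ∈ Γ, ν p ∈ M.normalSp Γ p ∧ ν p ≠ 0

variable [MeasurableSpace F] [BorelSpace F]

/-- The divergence `∑ i, ⟨D_{e i} X, e i⟩` of a vector field `X` of `F` along the submanifold `Γ`
(`e` an orthonormal basis of the tangent space of `Γ` at `p`), written as a trace. -/
noncomputable def divAlong (Γ : Set F) (X : F → F) (p : F) : ℝ :=
  LinearMap.trace ℝ F (((tangentSp Γ p).starProjection ∘L fderiv ℝ X p : F →L[ℝ] F) : F →ₗ[ℝ] F)

/-- The hypersurface `Γ` of `M` (of dimension `n`) is minimal: it is a critical point of the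
area for the compactly supported variations of `M`, i.e. the first variation
`∫_Γ div_Γ X` vanishes for each smooth compactly supported vector field `X` tangent to `M`. -/
def IsMinimal (n : ℕ) (Γ : Set F) : Prop :=
  ∀ X : F → F, ContDiff ℝ ∞ X → HasCompactSupport X → (∀ p ∈ M.carrier, X p ∈ M.tangent p) →
    ∫ p in Γ, divAlong Γ X p ∂μHE[n] = 0

/-- `X` is a smooth compactly supported normal variation of the hypersurface `Γ` of `M`: a section
of the normal bundle of `Γ` in `M` (smoothly extended to `F`). -/
def IsNormalVariation (Γ : Set F) (X : F → F) : Prop :=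
  ContDiff ℝ ∞ X ∧ HasCompactSupport X ∧ ∀ p ∈ Γ, X p ∈ M.normalSp Γ p

/-- The second variation of area of a minimal hypersurface `Γ` of `M`, of dimension `n`, at the
normal variation `X`:
`∫_Γ |∇^⊥ X| ^ 2 - |⟨A, X⟩| ^ 2 - Ric(X, X)`, where `∇^⊥ X` is the part of the derivative of
`X` along `Γ` which is normal to `Γ` and tangent to `M`, where `-⟨A, X⟩` is its part tangent to
`Γ` (`A` the second fundamental form of `Γ` in `M`) and `Ric` is the Ricci curvature of `M`.
For `X = φ ν` with `ν` a unit normal it is `∫_Γ |∇φ| ^ 2 - (|A| ^ 2 + Ric(ν, ν)) φ ^ 2`. -/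
noncomputable def secondVariation (n : ℕ) (Γ : Set F) (X : F → F) : ℝ :=
  ∫ p in Γ,
    (hsSq ((M.normalSp Γ p).starProjection ∘L fderiv ℝ X p ∘L (tangentSp Γ p).starProjection)
      - hsSq ((tangentSp Γ p).starProjection ∘L fderiv ℝ X p ∘L (tangentSp Γ p).starProjection)
      - M.ricci p (X p)) ∂μHE[n]

/-- There is a `k`-dimensional space of compactly supported normal variations of `Γ` on which
the second variation of area is negative definite. -/
def IndexAtLeast (n : ℕ) (Γ : Set F) (k : ℕ) : Prop :=
  ∃ X : Fin k → F → F, (∀ i, M.IsNormalVariation Γ (X i)) ∧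
    ∀ c : Fin k → ℝ, c ≠ 0 → M.secondVariation n Γ (fun p => ∑ i, c i • X i p) < 0

/-- The Morse index of a minimal hypersurface `Γ` of `M` of dimension `n`: the maximal dimension
of a space of compactly supported normal variations on which the second variation of area is
negative definite (`⊤` if there is no maximum). -/
noncomputable def morseIndex (n : ℕ) (Γ : Set F) : ℕ∞ :=
  ⨆ (k : ℕ) (_ : M.IndexAtLeast n Γ k), (k : ℕ∞)

/-- `f` restricts to a Morse function on the open subset `U` of `M`: it is smooth near `U`, and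
at each critical point `p ∈ U` of `f` on `M`, with Lagrange multiplier `c`, the Hessian
`D²f - c D²Φ` of `f` on the tangent space of `M` is nondegenerate. -/
def IsMorseOn (U : Set F) (f : F → ℝ) : Prop :=
  (∃ O : Set F, IsOpen O ∧ U ⊆ O ∧ ContDiffOn ℝ ∞ f O) ∧
  ∀ p ∈ U, ∀ c : ℝ, fderiv ℝ f p = c • fderiv ℝ M.Φ p →
    ∀ v ∈ M.tangent p, v ≠ 0 → ∃ w ∈ M.tangent p,
      fderiv ℝ (fderiv ℝ f) p v w - c * fderiv ℝ (fderiv ℝ M.Φ) p v w ≠ 0

/-- The relative width of the open subset `U` of `M` (`dim M = n + 1`): the supremum of all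
`w` such that every Morse function `f : U → [0, 1]` has a fibre of area at least `w`. -/
noncomputable def relativeWidth (n : ℕ) (U : Set F) : ℝ≥0∞ :=
  sSup {w : ℝ≥0∞ | ∀ f : F → ℝ, M.IsMorseOn U f → (∀ p ∈ U, f p ∈ Icc (0 : ℝ) 1) →
    ∃ t ∈ Icc (0 : ℝ) 1, w ≤ μHE[n] {p | p ∈ U ∧ f p = t}}

/-- The (relatively) open subset `U` of `M` has smooth boundary: each boundary point has a
neighbourhood `V` in which `U`, resp. its boundary, is the set `h < 0`, resp. `h = 0`, in `M`
for a smooth function `h` whose restriction to `M` is regular on the boundary. -/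
def HasSmoothBoundary (U : Set F) : Prop :=
  ∀ p ∈ closure U \ U, ∃ (V : Set F) (h : F → ℝ), IsOpen V ∧ p ∈ V ∧ ContDiff ℝ ∞ h ∧
    U ∩ V = {q | q ∈ M.carrier ∧ h q < 0} ∩ V ∧
    (closure U \ U) ∩ V = {q | q ∈ M.carrier ∧ h q = 0} ∩ V ∧
    ∀ q ∈ (closure U \ U) ∩ V, ∃ v ∈ M.tangent q, fderiv ℝ h q v ≠ 0

/-- Condition (*) for `M` of dimension `n + 1`: `M` contains a nonempty bounded open set `U` with
smooth boundary `∂U` whose area is at most a tenth of the relative width of `U`. -/
def ConditionStar (n : ℕ) : Prop :=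
  ∃ U : Set F, U.Nonempty ∧ (∃ O : Set F, IsOpen O ∧ U = M.carrier ∩ O) ∧
    Bornology.IsBounded U ∧ M.HasSmoothBoundary U ∧
    μHE[n] (closure U \ U) ≤ M.relativeWidth n U / 10

end EuclideanHypersurface

end Pool.Agent.H48.IndexOne
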