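import Mathlib

/-!
# Sign cocycles split on simply connected spaces

A sign cocycle on a topological space `Y` is a Čech cocycle with values in `{±1}`.  We show it
splits if `Y` is simply connected (and locally path connected), or if `Y` is the union of two
open subsets on which it splits and whose intersection is connected.
-/

open Set Topology

namespace Pool.Agent.H48.IndexOne

/-- A Čech cocycle with values in the group of signs. -/
structure SignCocycle (ι : Type*) (Y : Type*) [TopologicalSpace Y] where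
  U : ι → Set Y
  isOpen : ∀ i, IsOpen (U i)
  idx : Y → ι
  mem : ∀ x, x ∈ U (idx x)
  c : ι → ι → Y → Bool
  cont : ∀ i j, ContinuousOn (c i j) (U i ∩ U j)
  self : ∀ i, ∀ x ∈ U i, c i i x = false
  comp : ∀ i j k, ∀ x ∈ U i ∩ U j ∩ U k, xor (c j k x) (c i j x) = c i k x

namespace SignCocycle

variable {ι : Type*} {Y : Type*} [TopologicalSpace Y] (Z : SignCocycle ι Y)

/-- The cocycle splits over `A`. -/
def SplitsOn (A : Set Y) : Prop :=
  ∃ s : ι → Y → Bool, (∀ i, ContinuousOn (s i) (Z.U i ∩ A)) ∧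
    ∀ i j, ∀ x ∈ Z.U i ∩ Z.U j ∩ A, s j x = xor (Z.c i j x) (s i x)

/-- The associated fibre bundle. -/
def core : FiberBundleCore ι Y Bool where
  baseSet := Z.U
  isOpen_baseSet := Z.isOpen
  indexAt := Z.idx
  mem_baseSet_at := Z.mem
  coordChange := fun i j x v => xor (Z.c i j x) v
  coordChange_self := by
    intro i x hx v
    rw [Z.self i x hx, Bool.false_xor]
  continuousOn_coordChange := by
    intro i j
    have h : Continuous (fun p : Bool × Bool => xor p.1 p.2) := continuous_of_discreteTopology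
    refine h.comp_continuousOn (ContinuousOn.prodMk ?_ continuousOn_snd)
    exact (Z.cont i j).comp continuousOn_fst (fun p hp => hp.1)
  coordChange_comp := by
    intro i j k x hx v
    rw [← Z.comp i j k x hx, Bool.xor_assoc]

theorem splitsOn_univ [SimplyConnectedSpace Y] [LocallyPathConnectedSpace Y] :
    Z.SplitsOn univ := by
  classical
  have cov : IsCoveringMap (Bundle.TotalSpace.proj : Bundle.TotalSpace Bool Z.core.Fiber → Y) :=
    FiberBundle.isCoveringMap
  obtain ⟨y₀⟩ : Nonempty Y := PathConnectedSpace.nonempty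
  obtain ⟨f, ⟨-, hf⟩, -⟩ := cov.existsUnique_continuousMap_lifts (ContinuousMap.id Y) y₀
    (⟨y₀, (false : Bool)⟩ : Bundle.TotalSpace Bool Z.core.Fiber) rfl
  have hproj : ∀ y, (f y).proj = y := fun y => congrFun hf y
  refine ⟨fun i y => (Z.core.localTriv i (f y)).2, ?_, ?_⟩
  · intro i
    have h1 : ContinuousOn (fun y => Z.core.localTriv i (f y)) (Z.U i ∩ univ) := by
      refine (Z.core.localTriv i).continuousOn.comp f.continuous.continuousOn ?_
      intro y hy
      rw [FiberBundleCore.mem_localTriv_source, hproj]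
      exact hy.1
    exact continuous_snd.comp_continuousOn h1
  · intro i j x hx
    simp only [FiberBundleCore.localTriv_apply]
    change xor _ _ = xor _ (xor _ _)
    rw [hproj]
    have h2 := Z.comp (Z.core.indexAt x) i j x ⟨⟨Z.mem x, hx.1.1⟩, hx.1.2⟩
    have h3 : ∀ b : Bool, xor (Z.c (Z.core.indexAt x) j x) b =
        xor (Z.c i j x) (xor (Z.c (Z.core.indexAt x) i x) b) := by
      intro b
      rw [← Bool.xor_assoc, ← h2]
    exact h3 _

/-- Restriction of a cocycle along a continuous map. -/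
def pullback {Y' : Type*} [TopologicalSpace Y'] (f : Y' → Y) (hf : Continuous f) :
    SignCocycle ι Y' where
  U := fun i => f ⁻¹' (Z.U i)
  isOpen := fun i => (Z.isOpen i).preimage hf
  idx := fun x => Z.idx (f x)
  mem := fun x => Z.mem (f x)
  c := fun i j x => Z.c i j (f x)
  cont := fun i j => (Z.cont i j).comp hf.continuousOn (fun _ hx => hx)
  self := fun i x hx => Z.self i (f x) hx
  comp := fun i j k x hx => Z.comp i j k (f x) hx

theorem splitsOn_of_subtype (A : Set Y) [SimplyConnectedSpace A] [LocallyPathConnectedSpace A] :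
    Z.SplitsOn A := by
  classical
  obtain ⟨s, hs, hs'⟩ := (Z.pullback (Subtype.val : A → Y) continuous_subtype_val).splitsOn_univ
  refine ⟨fun i y => if h : y ∈ A then s i ⟨y, h⟩ else false, ?_, ?_⟩
  · intro i
    have h1 : ContinuousOn (s i) ((Subtype.val : A → Y) ⁻¹' (Z.U i)) := (hs i).mono (by simp; rfl)
    rw [continuousOn_iff_continuous_domRestrict]
    have h2 : Continuous (fun y : ↥(Z.U i ∩ A) => (⟨y.1, y.2.2⟩ : A)) := by fun_prop
    have h3 : Continuous (fun y : ↥(Z.U i ∩ A) => s i ⟨y.1, y.2.2⟩) :=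
      h1.comp_continuous h2 (fun y => y.2.1)
    refine h3.congr ?_
    intro y
    simp only [Set.domRestrict_apply]
    rw [dif_pos y.2.2]
  · intro i j x hx
    simp only [dif_pos hx.2]
    exact hs' i j ⟨x, hx.2⟩ ⟨⟨hx.1.1, hx.1.2⟩, mem_univ _⟩

theorem SplitsOn.union {A B : Set Y} (hA : Z.SplitsOn A) (hB : Z.SplitsOn B)
    (oA : IsOpen A) (oB : IsOpen B) (hAB : IsPreconnected (A ∩ B)) : Z.SplitsOn (A ∪ B) := by
  classical
  obtain ⟨s, hs, hs'⟩ := hA
  obtain ⟨t, ht, ht'⟩ := hB
  -- the difference of the two splittings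
  let r : Y → Bool := fun x => xor (s (Z.idx x) x) (t (Z.idx x) x)
  have hr : ∀ i, ∀ x ∈ Z.U i ∩ (A ∩ B), r x = xor (s i x) (t i x) := by
    intro i x hx
    have h1 := hs' i (Z.idx x) x ⟨⟨hx.1, Z.mem x⟩, hx.2.1⟩
    have h2 := ht' i (Z.idx x) x ⟨⟨hx.1, Z.mem x⟩, hx.2.2⟩
    change xor (s (Z.idx x) x) (t (Z.idx x) x) = _
    rw [h1, h2]
    cases Z.c i (Z.idx x) x <;> cases s i x <;> cases t i x <;> rfl
  have hxor : Continuous (fun p : Bool × Bool => xor p.1 p.2) := continuous_of_discreteTopology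
  have hrc : ContinuousOn r (A ∩ B) := by
    intro x hx
    have h1 : ContinuousOn (fun y => xor (s (Z.idx x) y) (t (Z.idx x) y))
        (Z.U (Z.idx x) ∩ (A ∩ B)) := by
      refine hxor.comp_continuousOn (ContinuousOn.prodMk ?_ ?_)
      · exact (hs _).mono (fun y hy => ⟨hy.1, hy.2.1⟩)
      · exact (ht _).mono (fun y hy => ⟨hy.1, hy.2.2⟩)
    have h2 : ContinuousWithinAt r (Z.U (Z.idx x) ∩ (A ∩ B)) x :=
      (h1 x ⟨Z.mem x, hx⟩).congr (fun y hy => hr _ y hy) (hr _ x ⟨Z.mem x, hx⟩)
    exact h2.mono_of_mem_nhdsWithin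
      (Filter.inter_mem (mem_nhdsWithin_of_mem_nhds ((Z.isOpen _).mem_nhds (Z.mem x)))
        self_mem_nhdsWithin)
  obtain ⟨e, he⟩ : ∃ e : Bool, ∀ x ∈ A ∩ B, r x = e := by
    rcases (A ∩ B).eq_empty_or_nonempty with h | ⟨x₀, hx₀⟩
    · exact ⟨false, fun x hx => by rw [h] at hx; exact hx.elim⟩
    · exact ⟨r x₀, fun x hx => hAB.constant hrc hx hx₀⟩
  have hAB' : ∀ i, ∀ x ∈ Z.U i ∩ (A ∩ B), s i x = xor e (t i x) := by
    intro i x hx
    have h1 := hr i x hx
    rw [he x hx.2] at h1
    rw [h1]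
    cases s i x <;> cases t i x <;> rfl
  refine ⟨fun i x => if x ∈ A then s i x else xor e (t i x), ?_, ?_⟩
  · intro i x hx
    rcases hx.2 with hxA | hxB
    · have h1 : ContinuousWithinAt (s i) (Z.U i ∩ A) x := hs i x ⟨hx.1, hxA⟩
      have h2 : ContinuousWithinAt (fun x => if x ∈ A then s i x else xor e (t i x))
          (Z.U i ∩ A) x := by
        refine h1.congr (fun y hy => ?_) ?_
        · rw [if_pos hy.2]
        · rw [if_pos hxA]
      refine h2.mono_of_mem_nhdsWithin ?_
      exact Filter.inter_mem (mem_nhdsWithin_of_mem_nhds ((Z.isOpen _).mem_nhds hx.1))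
        (mem_nhdsWithin_of_mem_nhds (oA.mem_nhds hxA))
    · have h0 : Continuous (fun b : Bool => xor e b) := continuous_of_discreteTopology
      have h1 : ContinuousWithinAt (fun y => xor e (t i y)) (Z.U i ∩ B) x :=
        h0.continuousAt.comp_continuousWithinAt (ht i x ⟨hx.1, hxB⟩)
      have key : ∀ y ∈ Z.U i ∩ B, (if y ∈ A then s i y else xor e (t i y)) = xor e (t i y) := by
        intro y hy
        by_cases hyA : y ∈ A
        · rw [if_pos hyA, hAB' i y ⟨hy.1, hyA, hy.2⟩]
        · rw [if_neg hyA]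
      have h2 : ContinuousWithinAt (fun x => if x ∈ A then s i x else xor e (t i x))
          (Z.U i ∩ B) x := h1.congr key (key x ⟨hx.1, hxB⟩)
      refine h2.mono_of_mem_nhdsWithin ?_
      exact Filter.inter_mem (mem_nhdsWithin_of_mem_nhds ((Z.isOpen _).mem_nhds hx.1))
        (mem_nhdsWithin_of_mem_nhds (oB.mem_nhds hxB))
  · intro i j x hx
    by_cases hxA : x ∈ A
    · simp only [if_pos hxA]
      exact hs' i j x ⟨hx.1, hxA⟩
    · have hxB : x ∈ B := hx.2.resolve_left hxA
      simp only [if_neg hxA]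
      rw [ht' i j x ⟨hx.1, hxB⟩]
      cases e <;> cases Z.c i j x <;> cases t i x <;> rfl

/-- If `Y` is a retract of `Y'` and all sign cocycles split on `Y'`, then also on `Y`. -/
theorem splitsOn_of_retract {Y' : Type*} [TopologicalSpace Y'] (f : Y' → Y) (hf : Continuous f)
    (g : Y → Y') (hg : Continuous g) (hfg : ∀ y, f (g y) = y)
    (h : (Z.pullback f hf).SplitsOn univ) : Z.SplitsOn univ := by
  obtain ⟨s, hs, hs'⟩ := h
  refine ⟨fun i y => s i (g y), ?_, ?_⟩
  · intro i
    refine (hs i).comp hg.continuousOn ?_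
    intro y hy
    refine ⟨?_, mem_univ _⟩
    change f (g y) ∈ Z.U i
    rw [hfg]
    exact hy.1
  · intro i j x hx
    have h1 := hs' i j (g x) ⟨⟨by change f (g x) ∈ Z.U i; rw [hfg]; exact hx.1.1,
      by change f (g x) ∈ Z.U j; rw [hfg]; exact hx.1.2⟩, mem_univ _⟩
    change s j (g x) = xor (Z.c i j x) (s i (g x))
    rw [h1]
    change xor (Z.c i j (f (g x))) _ = _
    rw [hfg]

end SignCocycle

end Pool.Agent.H48.IndexOne
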