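import Pool.Agent.H48.IndexOne.Normal
import Pool.Agent.H48.IndexOne.SignCocycle

/-!
# Hypersurfaces are two-sided if sign cocycles split on the ambient manifold
-/

open MeasureTheory Set Topology Filter Module
open scoped ContDiff ENNReal RealInnerProductSpace Gradient Manifold

namespace Pool.Agent.H48.IndexOne

variable {F : Type*} [NormedAddCommGroup F] [InnerProductSpace ℝ F] [FiniteDimensional ℝ F]

namespace LocalData

variable {M : EuclideanHypersurface F} {Γ : Set F} {p : F}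

theorem G_move (D : LocalData M Γ p) {q : F} (hq : q ∈ D.U) : (D.move hq).G = D.G := rfl

theorem ν_move (D : LocalData M Γ p) {q : F} (hq : q ∈ D.U) : (D.move hq).ν = D.ν := rfl

theorem inner_G_gradient (D : LocalData M Γ p) (hp : p ∈ Γ) {v : F} (hv : v ∈ M.tangent p) :
    ⟪D.G p, v⟫ = fderiv ℝ D.h p v := by
  have h1 : ⟪M.unitNormal p, v⟫ = 0 := (M.mem_tangent_iff (D.phi_eq_zero hp)).1 hv
  rw [G, inner_sub_left, real_inner_smul_left, h1, mul_zero, sub_zero, inner_gradient]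

/-- the ratio of two local defining functions -/
noncomputable def ratio (D D' : LocalData M Γ p) : ℝ := ⟪D'.G p, D.G p⟫ / ‖D.G p‖ ^ 2

theorem ratio_bound (D D' : LocalData M Γ p) (hp : p ∈ Γ) {ε : ℝ} (hε : 0 < ε) :
    ∀ᶠ q in 𝓝 p, M.Φ q = 0 → |D'.h q - D.ratio D' * D.h q| ≤ ε * |D.h q| := by
  have h0 := (D.mem_iff D.mem).1 hp
  have hG := D.G_ne_zero hp
  have hGm := D.G_mem hp
  have hGt : D.G p ∈ M.tangent p := (Submodule.mem_inf.1 hGm).1
  have hGn : ‖D.G p‖ ^ 2 ≠ 0 := pow_ne_zero _ (norm_ne_zero_iff.2 hG)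
  have e0 : ⟪D.G p, D.G p⟫ = ‖D.G p‖ ^ 2 := real_inner_self_eq_norm_sq _
  let w : F := (‖D.G p‖ ^ 2)⁻¹ • D.G p
  have hw1 : fderiv ℝ M.Φ p w = 0 := by
    rw [← M.mem_tangent]
    exact Submodule.smul_mem _ _ hGt
  have hw2 : fderiv ℝ D.h p w = 1 := by
    rw [map_smul, ← D.inner_G_gradient hp hGt, e0, smul_eq_mul, inv_mul_cancel₀ hGn]
  have hw3 : ∀ u ∈ kerTwo (fderiv ℝ M.Φ p) (fderiv ℝ D.h p), ⟪w, u⟫ = 0 := by
    intro u hu
    rw [← D.tangentSp_eq hp] at hu
    rw [real_inner_smul_left, EuclideanHypersurface.IsHypersurface.inner_normal hGm hu, mul_zero]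
  have h3 := exists_ratio_aux (M.hasStrictFDerivAt p) (D.hasStrictFDerivAt_h p)
    (D'.hasStrictFDerivAt_h p) (D.fderiv_ne_zero hp) (D.exists_ne hp) h0.1 h0.2 (by
      filter_upwards [D.isOpen.mem_nhds D.mem, D'.isOpen.mem_nhds D'.mem] with q hq hq' h1 h2
      exact ((D'.mem_iff hq').1 ((D.mem_iff hq).2 ⟨h1, h2⟩)).2) hw1 hw2 hw3 hε
  have h4 : fderiv ℝ D'.h p w = D.ratio D' := by
    rw [map_smul, ← D'.inner_G_gradient hp hGt, ratio, smul_eq_mul]
    field_simp
  rw [h4] at h3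
  exact h3

/-- The unit normals agree up to sign. -/
theorem ν_eq_or (D D' : LocalData M Γ p) (hΓ : M.IsHypersurface Γ) (hp : p ∈ Γ) :
    (0 < D.ratio D' ∧ D'.ν p = D.ν p) ∨ (D.ratio D' < 0 ∧ D'.ν p = - D.ν p) := by
  have hG := D.G_ne_zero hp
  have hG' := D'.G_ne_zero hp
  have h1 := hΓ.eq_inner_smul_of_mem_normalSp hp (D.ν_mem hp) (D.norm_ν hp) (D'.ν_mem hp)
  have hn : 0 < ‖D.G p‖ := norm_pos_iff.2 hG
  have hn' : 0 < ‖D'.G p‖ := norm_pos_iff.2 hG'
  have h2 : ⟪D.ν p, D'.ν p⟫ = D.ratio D' * (‖D.G p‖ / ‖D'.G p‖) := by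
    rw [ν, ν, real_inner_smul_left, real_inner_smul_right, ratio, real_inner_comm (D.G p)]
    field_simp
  have h3 : |⟪D.ν p, D'.ν p⟫| = 1 := by
    have h4 := congrArg norm h1
    rw [norm_smul, D.norm_ν hp, D'.norm_ν hp, mul_one, Real.norm_eq_abs] at h4
    exact h4.symm
  have hpos : 0 < ‖D.G p‖ / ‖D'.G p‖ := div_pos hn hn'
  rcases (abs_eq (zero_le_one)).1 h3 with h4 | h4
  · left
    refine ⟨?_, by rw [h1, h4, one_smul]⟩
    rw [h4] at h2
    by_contra hcon
    have : D.ratio D' * (‖D.G p‖ / ‖D'.G p‖) ≤ 0 :=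
      mul_nonpos_of_nonpos_of_nonneg (not_lt.1 hcon) hpos.le
    linarith
  · right
    refine ⟨?_, by rw [h1, h4, neg_one_smul]⟩
    rw [h4] at h2
    by_contra hcon
    have : 0 ≤ D.ratio D' * (‖D.G p‖ / ‖D'.G p‖) := mul_nonneg (not_lt.1 hcon) hpos.le
    linarith

end LocalData

namespace EuclideanHypersurface

variable (M : EuclideanHypersurface F) {Γ : Set F}

/-- Points of `M` near `p ∈ Γ` which are not on `Γ`. -/
theorem IsHypersurface.frequently_not_mem {M : EuclideanHypersurface F}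
    (hΓ : M.IsHypersurface Γ) {p : F} (hp : p ∈ M.carrier) :
    ∃ᶠ q in 𝓝[M.carrier] p, q ∉ Γ := by
  by_cases hpΓ : p ∈ Γ
  · let D := hΓ.localData p hpΓ
    obtain ⟨g, h1, h2, h3, -⟩ := exists_chart (M.hasStrictFDerivAt p)
      (D.hasStrictFDerivAt_h p) (D.fderiv_ne_zero hpΓ) (D.exists_ne hpΓ)
    have h0 := (D.mem_iff D.mem).1 hpΓ
    rw [h0.1, h0.2] at h1 h2 h3
    let y := (kerTwo (fderiv ℝ M.Φ p) (fderiv ℝ D.h p)).orthogonalProjectionOnto p
    have c1 : Tendsto (fun s : ℝ => ((0 : ℝ), s, y)) (𝓝 0) (𝓝 (0, 0, y)) := by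
      apply Continuous.tendsto'
      · fun_prop
      · rfl
    have c2 : Tendsto g (𝓝 (0, 0, y)) (𝓝 p) := by
      have := h2.continuousAt.tendsto
      rwa [h1] at this
    have c3 : Tendsto (fun s : ℝ => g (0, s, y)) (𝓝[≠] 0) (𝓝[M.carrier] p) := by
      refine tendsto_nhdsWithin_iff.2 ⟨(c2.comp c1).mono_left nhdsWithin_le_nhds, ?_⟩
      filter_upwards [nhdsWithin_le_nhds (c1.eventually h3)] with s hs
      exact hs.1
    refine c3.frequently ?_
    apply Eventually.frequently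
    filter_upwards [nhdsWithin_le_nhds (c1.eventually h3), self_mem_nhdsWithin,
      nhdsWithin_le_nhds ((c2.comp c1).eventually (D.isOpen.mem_nhds D.mem))] with s hs hs0 hsU hsΓ
    have h4 := (D.mem_iff hsU).1 hsΓ
    simp only [Function.comp_apply] at h4
    rw [hs.2.1] at h4
    exact hs0 h4.2
  · have h1 : ∀ᶠ q in 𝓝[M.carrier] p, q ∉ Γ :=
      nhdsWithin_le_nhds (hΓ.isClosed.isOpen_compl.mem_nhds hpΓ)
    have : (𝓝[M.carrier] p).NeBot := mem_closure_iff_nhdsWithin_neBot.1 (subset_closure hp)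
    exact h1.frequently

open Classical in
/-- Open sets of the cocycle. -/
noncomputable def coverU (hΓ : M.IsHypersurface Γ) (i : M.carrier) : Set F :=
  if hi : i.1 ∈ Γ then (hΓ.localData i.1 hi).U else Γᶜ

open Classical in
/-- Local functions of the cocycle. -/
noncomputable def coverH (hΓ : M.IsHypersurface Γ) (i : M.carrier) : F → ℝ :=
  if hi : i.1 ∈ Γ then (hΓ.localData i.1 hi).h else fun _ => 1

theorem isOpen_coverU (hΓ : M.IsHypersurface Γ) (i : M.carrier) : IsOpen (M.coverU hΓ i) := by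
  unfold coverU
  split_ifs with hi
  · exact (hΓ.localData i.1 hi).isOpen
  · exact hΓ.isClosed.isOpen_compl

theorem mem_coverU (hΓ : M.IsHypersurface Γ) (i : M.carrier) : i.1 ∈ M.coverU hΓ i := by
  unfold coverU
  split_ifs with hi
  · exact (hΓ.localData i.1 hi).mem
  · exact hi

theorem continuous_coverH (hΓ : M.IsHypersurface Γ) (i : M.carrier) :
    Continuous (M.coverH hΓ i) := by
  unfold coverH
  split_ifs with hi
  · exact (hΓ.localData i.1 hi).smooth.continuous
  · exact continuous_const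

theorem coverH_eq_zero (hΓ : M.IsHypersurface Γ) (i : M.carrier) {q : F}
    (hq : q ∈ M.coverU hΓ i) (hqM : q ∈ M.carrier) : M.coverH hΓ i q = 0 ↔ q ∈ Γ := by
  unfold coverU at hq
  unfold coverH
  split_ifs at hq ⊢ with hi
  · rw [(hΓ.localData i.1 hi).mem_iff hq]
    exact ⟨fun h => ⟨hqM, h⟩, fun h => h.2⟩
  · constructor
    · intro h; exact absurd h one_ne_zero
    · intro h; exact absurd h hq

/-- The two functions have the same sign near `x`. -/
def SameSign (hΓ : M.IsHypersurface Γ) (i j : M.carrier) (x : F) : Prop :=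
  ∀ᶠ q in 𝓝[M.carrier] x, 0 ≤ M.coverH hΓ i q * M.coverH hΓ j q

/-- The two functions have the opposite sign near `x`. -/
def OppSign (hΓ : M.IsHypersurface Γ) (i j : M.carrier) (x : F) : Prop :=
  ∀ᶠ q in 𝓝[M.carrier] x, M.coverH hΓ i q * M.coverH hΓ j q ≤ 0

theorem sameSign_or (hΓ : M.IsHypersurface Γ) (i j : M.carrier) {x : F} (hxM : x ∈ M.carrier)
    (hxi : x ∈ M.coverU hΓ i) (hxj : x ∈ M.coverU hΓ j) :
    M.SameSign hΓ i j x ∨ M.OppSign hΓ i j x := by
  by_cases hx : x ∈ Γ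
  · have hi : i.1 ∈ Γ := by
      by_contra hi
      unfold coverU at hxi
      rw [dif_neg hi] at hxi
      exact hxi hx
    have hj : j.1 ∈ Γ := by
      by_contra hj
      unfold coverU at hxj
      rw [dif_neg hj] at hxj
      exact hxj hx
    unfold coverU at hxi hxj
    rw [dif_pos hi] at hxi
    rw [dif_pos hj] at hxj
    have e1 : M.coverH hΓ i = (hΓ.localData i.1 hi).h := by unfold coverH; rw [dif_pos hi]
    have e2 : M.coverH hΓ j = (hΓ.localData j.1 hj).h := by unfold coverH; rw [dif_pos hj]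
    let D := (hΓ.localData i.1 hi).move hxi
    let D' := (hΓ.localData j.1 hj).move hxj
    rcases D.ν_eq_or D' hΓ hx with ⟨hr, -⟩ | ⟨hr, -⟩
    · left
      have h1 := D.ratio_bound D' hx (half_pos hr)
      have h2 : ∀ᶠ q in 𝓝[M.carrier] x, q ∈ M.carrier := self_mem_nhdsWithin
      filter_upwards [nhdsWithin_le_nhds h1, h2] with q hq hqM
      rw [e1, e2]
      change 0 ≤ D.h q * D'.h q
      have h3 := abs_le.1 (hq hqM)
      rcases le_total 0 (D.h q) with h4 | h4
      · rw [abs_of_nonneg h4] at h3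
        have : 0 ≤ D'.h q := by nlinarith [h3.1, mul_nonneg hr.le h4]
        exact mul_nonneg h4 this
      · rw [abs_of_nonpos h4] at h3
        have : D'.h q ≤ 0 := by nlinarith [h3.2, mul_nonpos_of_nonneg_of_nonpos hr.le h4]
        exact mul_nonneg_of_nonpos_of_nonpos h4 this
    · right
      have h1 := D.ratio_bound D' hx (half_pos (neg_pos.2 hr))
      have h2 : ∀ᶠ q in 𝓝[M.carrier] x, q ∈ M.carrier := self_mem_nhdsWithin
      filter_upwards [nhdsWithin_le_nhds h1, h2] with q hq hqM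
      rw [e1, e2]
      change D.h q * D'.h q ≤ 0
      have h3 := abs_le.1 (hq hqM)
      rcases le_total 0 (D.h q) with h4 | h4
      · rw [abs_of_nonneg h4] at h3
        have : D'.h q ≤ 0 := by nlinarith [h3.2, mul_nonpos_of_nonpos_of_nonneg hr.le h4]
        exact mul_nonpos_of_nonneg_of_nonpos h4 this
      · rw [abs_of_nonpos h4] at h3
        have : 0 ≤ D'.h q := by nlinarith [h3.1, mul_nonneg_of_nonpos_of_nonpos hr.le h4]
        exact mul_nonpos_of_nonpos_of_nonneg h4 this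
  · have h1 : M.coverH hΓ i x ≠ 0 := fun h => hx ((M.coverH_eq_zero hΓ i hxi hxM).1 h)
    have h2 : M.coverH hΓ j x ≠ 0 := fun h => hx ((M.coverH_eq_zero hΓ j hxj hxM).1 h)
    have hc : Continuous (fun q => M.coverH hΓ i q * M.coverH hΓ j q) :=
      (M.continuous_coverH hΓ i).mul (M.continuous_coverH hΓ j)
    rcases lt_or_gt_of_ne (mul_ne_zero h1 h2) with h3 | h3
    · right
      have h4 : ∀ᶠ q in 𝓝 x, M.coverH hΓ i q * M.coverH hΓ j q < 0 :=
        hc.continuousAt.eventually (Iio_mem_nhds h3)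
      filter_upwards [nhdsWithin_le_nhds h4] with q hq using hq.le
    · left
      have h4 : ∀ᶠ q in 𝓝 x, 0 < M.coverH hΓ i q * M.coverH hΓ j q :=
        hc.continuousAt.eventually (Ioi_mem_nhds h3)
      filter_upwards [nhdsWithin_le_nhds h4] with q hq using hq.le

theorem not_both (hΓ : M.IsHypersurface Γ) (i j : M.carrier) {x : F} (hxM : x ∈ M.carrier)
    (hxi : x ∈ M.coverU hΓ i) (hxj : x ∈ M.coverU hΓ j)
    (h1 : M.SameSign hΓ i j x) (h2 : M.OppSign hΓ i j x) : False := by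
  have h3 := hΓ.frequently_not_mem hxM
  have h4 : ∀ᶠ q in 𝓝[M.carrier] x, q ∈ M.carrier := self_mem_nhdsWithin
  have h5 : ∀ᶠ q in 𝓝[M.carrier] x, q ∈ M.coverU hΓ i :=
    nhdsWithin_le_nhds ((M.isOpen_coverU hΓ i).mem_nhds hxi)
  have h6 : ∀ᶠ q in 𝓝[M.carrier] x, q ∈ M.coverU hΓ j :=
    nhdsWithin_le_nhds ((M.isOpen_coverU hΓ j).mem_nhds hxj)
  obtain ⟨q, hq, hq1, hq2, hq4, hq5, hq6⟩ :=
    (h3.and_eventually (h1.and (h2.and (h4.and (h5.and h6))))).exists
  have h7 : M.coverH hΓ i q * M.coverH hΓ j q = 0 := le_antisymm hq2 hq1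
  rcases mul_eq_zero.1 h7 with h8 | h8
  · exact hq ((M.coverH_eq_zero hΓ i hq5 hq4).1 h8)
  · exact hq ((M.coverH_eq_zero hΓ j hq6 hq4).1 h8)

open Classical in
/-- The sign cocycle attached to a hypersurface. -/
noncomputable def cocycle (hΓ : M.IsHypersurface Γ) : SignCocycle M.carrier M.carrier where
  U := fun i => Subtype.val ⁻¹' (M.coverU hΓ i)
  isOpen := fun i => (M.isOpen_coverU hΓ i).preimage continuous_subtype_val
  idx := id
  mem := fun x => M.mem_coverU hΓ x
  c := fun i j x => decide (¬ M.SameSign hΓ i j x)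
  cont := by
    intro i j x hx
    apply ContinuousAt.continuousWithinAt
    have key : ∀ {P : F → Prop}, (∀ᶠ q in 𝓝[M.carrier] x.1, P q) → ∀ᶠ y in 𝓝 x, P y.1 := by
      intro P hP
      rw [nhds_subtype_eq_comap_nhdsWithin]
      exact hP.comap _
    have hUi : ∀ᶠ y in 𝓝 x, y.1 ∈ M.coverU hΓ i :=
      continuous_subtype_val.continuousAt.eventually ((M.isOpen_coverU hΓ i).mem_nhds hx.1)
    have hUj : ∀ᶠ y in 𝓝 x, y.1 ∈ M.coverU hΓ j :=
      continuous_subtype_val.continuousAt.eventually ((M.isOpen_coverU hΓ j).mem_nhds hx.2)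
    rcases M.sameSign_or hΓ i j x.2 hx.1 hx.2 with h | h
    · have h1 : ∀ᶠ y in 𝓝 x, M.SameSign hΓ i j y.1 :=
        key (eventually_eventually_nhdsWithin.2 h)
      refine (continuousAt_const (y := false)).congr ?_
      filter_upwards [h1] with y hy
      simp [hy]
    · have h1 : ∀ᶠ y in 𝓝 x, M.OppSign hΓ i j y.1 :=
        key (eventually_eventually_nhdsWithin.2 h)
      refine (continuousAt_const (y := true)).congr ?_
      filter_upwards [h1, hUi, hUj] with y hy hyi hyj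
      have : ¬ M.SameSign hΓ i j y.1 := fun h2 => M.not_both hΓ i j y.2 hyi hyj h2 hy
      simp [this]
  self := by
    intro i x hx
    have : M.SameSign hΓ i i x.1 := Eventually.of_forall (fun q => mul_self_nonneg _)
    simp [this]
  comp := by
    rintro i j k x ⟨⟨hxi, hxj⟩, hxk⟩
    change x.1 ∈ M.coverU hΓ i at hxi
    change x.1 ∈ M.coverU hΓ j at hxj
    change x.1 ∈ M.coverU hΓ k at hxk
    have hM : ∀ᶠ q in 𝓝[M.carrier] x.1, q ∈ M.carrier := self_mem_nhdsWithin
    have hi : ∀ᶠ q in 𝓝[M.carrier] x.1, q ∈ M.coverU hΓ i :=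
      nhdsWithin_le_nhds ((M.isOpen_coverU hΓ i).mem_nhds hxi)
    have hj : ∀ᶠ q in 𝓝[M.carrier] x.1, q ∈ M.coverU hΓ j :=
      nhdsWithin_le_nhds ((M.isOpen_coverU hΓ j).mem_nhds hxj)
    -- where `h_j` vanishes also `h_i` vanishes
    have hz : ∀ᶠ q in 𝓝[M.carrier] x.1, M.coverH hΓ j q = 0 → M.coverH hΓ i q = 0 := by
      filter_upwards [hM, hi, hj] with q hqM hqi hqj h
      rw [M.coverH_eq_zero hΓ i hqi hqM]
      exact (M.coverH_eq_zero hΓ j hqj hqM).1 h
    have aux : ∀ {a b c : ℝ}, (b = 0 → a = 0) → 0 ≤ (a * b) * (b * c) → 0 ≤ a * c := by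
      intro a b c h0 h
      by_cases hb : b = 0
      · rw [h0 hb, zero_mul]
      · have h1 : 0 < b * b := mul_self_pos.2 hb
        have h2 : (a * b) * (b * c) = (b * b) * (a * c) := by ring
        rw [h2] at h
        exact nonneg_of_mul_nonneg_right h h1
    have aux' : ∀ {a b c : ℝ}, (b = 0 → a = 0) → (a * b) * (b * c) ≤ 0 → a * c ≤ 0 := by
      intro a b c h0 h
      by_cases hb : b = 0
      · rw [h0 hb, zero_mul]
      · have h1 : 0 < b * b := mul_self_pos.2 hb
        have h2 : (a * b) * (b * c) = (b * b) * (a * c) := by ring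
        rw [h2] at h
        exact nonpos_of_mul_nonpos_right h h1
    rcases M.sameSign_or hΓ i j x.2 hxi hxj with h1 | h1 <;>
    rcases M.sameSign_or hΓ j k x.2 hxj hxk with h2 | h2
    · have h3 : M.SameSign hΓ i k x.1 := by
        filter_upwards [h1, h2, hz] with q hq1 hq2 hq3
        exact aux hq3 (mul_nonneg hq1 hq2)
      simp [h1, h2, h3]
    · have h3 : M.OppSign hΓ i k x.1 := by
        filter_upwards [h1, h2, hz] with q hq1 hq2 hq3
        exact aux' hq3 (mul_nonpos_of_nonneg_of_nonpos hq1 hq2)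
      have h4 : ¬ M.SameSign hΓ i k x.1 := fun h => M.not_both hΓ i k x.2 hxi hxk h h3
      have h5 : ¬ M.SameSign hΓ j k x.1 := fun h => M.not_both hΓ j k x.2 hxj hxk h h2
      simp [h1, h4, h5]
    · have h3 : M.OppSign hΓ i k x.1 := by
        filter_upwards [h1, h2, hz] with q hq1 hq2 hq3
        exact aux' hq3 (mul_nonpos_of_nonpos_of_nonneg hq1 hq2)
      have h4 : ¬ M.SameSign hΓ i k x.1 := fun h => M.not_both hΓ i k x.2 hxi hxk h h3
      have h5 : ¬ M.SameSign hΓ i j x.1 := fun h => M.not_both hΓ i j x.2 hxi hxj h h1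
      simp [h2, h4, h5]
    · have h3 : M.SameSign hΓ i k x.1 := by
        filter_upwards [h1, h2, hz] with q hq1 hq2 hq3
        exact aux hq3 (mul_nonneg_of_nonpos_of_nonpos hq1 hq2)
      have h4 : ¬ M.SameSign hΓ i j x.1 := fun h => M.not_both hΓ i j x.2 hxi hxj h h1
      have h5 : ¬ M.SameSign hΓ j k x.1 := fun h => M.not_both hΓ j k x.2 hxj hxk h h2
      simp [h3, h4, h5]

/-- If sign cocycles split on `M`, then each hypersurface has a smooth unit normal field. -/
theorem exists_unit_normal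
    (hM : ∀ Z : SignCocycle M.carrier M.carrier, Z.SplitsOn univ) (hΓ : M.IsHypersurface Γ) :
    ∃ ν : F → F, ContDiff ℝ ∞ ν ∧ ∀ p ∈ Γ, ν p ∈ M.normalSp Γ p ∧ ‖ν p‖ = 1 := by
  classical
  obtain ⟨s, hs, hs'⟩ := hM (M.cocycle hΓ)
  -- signs
  let sg : Bool → ℝ := fun b => if b then -1 else 1
  have hsg : ∀ b, |sg b| = 1 := by intro b; cases b <;> simp [sg]
  let ix : ∀ p, p ∈ Γ → M.carrier := fun p hp => ⟨p, hΓ.subset hp⟩
  let ν₀ : F → F := fun p => if hp : p ∈ Γ then
    sg (s (ix p hp) (ix p hp)) • (hΓ.localData p hp).ν p else 0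
  -- consistency
  have key : ∀ (i x : F) (hi : i ∈ Γ) (hx : x ∈ Γ), x ∈ (hΓ.localData i hi).U →
      ν₀ x = sg (s (ix i hi) (ix x hx)) • (hΓ.localData i hi).ν x := by
    intro i x hi hx hxU
    have e0 : ν₀ x = sg (s (ix x hx) (ix x hx)) • (hΓ.localData x hx).ν x := by
      simp only [ν₀]; rw [dif_pos hx]
    have hUi : x ∈ M.coverU hΓ (ix i hi) := by
      unfold coverU; rw [dif_pos hi]; exact hxU
    have hUx : x ∈ M.coverU hΓ (ix x hx) := M.mem_coverU hΓ (ix x hx)
    have h1 := hs' (ix i hi) (ix x hx) (ix x hx) ⟨⟨hUi, hUx⟩, mem_univ _⟩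
    have h2 : (M.cocycle hΓ).c (ix i hi) (ix x hx) (ix x hx) =
      decide (¬ M.SameSign hΓ (ix i hi) (ix x hx) x) := rfl
    rw [h2] at h1
    let D := (hΓ.localData i hi).move hxU
    let D' := hΓ.localData x hx
    have e1 : M.coverH hΓ (ix i hi) = D.h := by unfold coverH; rw [dif_pos hi]; rfl
    have e2 : M.coverH hΓ (ix x hx) = D'.h := by unfold coverH; rw [dif_pos hx]
    rw [e0, h1]
    change sg (xor _ _) • D'.ν x = sg _ • D.ν x
    rcases D.ν_eq_or D' hΓ hx with ⟨hr, hν⟩ | ⟨hr, hν⟩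
    · have h3 : M.SameSign hΓ (ix i hi) (ix x hx) x := by
        rcases M.sameSign_or hΓ (ix i hi) (ix x hx) (hΓ.subset hx) hUi hUx with h | h
        · exact h
        · exfalso
          -- then the product is both nonpositive and positive off `Γ`
          have h4 := D.ratio_bound D' hx (half_pos hr)
          have h5 := hΓ.frequently_not_mem (hΓ.subset hx)
          have h6 : ∀ᶠ q in 𝓝[M.carrier] x, q ∈ M.carrier := self_mem_nhdsWithin
          have h7 : ∀ᶠ q in 𝓝[M.carrier] x, q ∈ M.coverU hΓ (ix i hi) :=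
            nhdsWithin_le_nhds ((M.isOpen_coverU hΓ _).mem_nhds hUi)
          obtain ⟨q, hq, hq1, hq4, hq6, hq7⟩ :=
            (h5.and_eventually (h.and ((eventually_nhdsWithin_of_eventually_nhds h4).and (h6.and h7)))).exists
          have h8 : D.h q ≠ 0 := by
            intro h9
            rw [← e1] at h9
            exact hq ((M.coverH_eq_zero hΓ _ hq7 hq6).1 h9)
          rw [e1, e2] at hq1
          have h9 := abs_le.1 (hq4 hq6)
          rcases lt_or_gt_of_ne h8 with h10 | h10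
          · rw [abs_of_neg h10] at h9
            have : D'.h q < 0 := by nlinarith [h9.2, mul_neg_of_pos_of_neg hr h10]
            nlinarith [mul_pos_of_neg_of_neg h10 this]
          · rw [abs_of_pos h10] at h9
            have : 0 < D'.h q := by nlinarith [h9.1, mul_pos hr h10]
            nlinarith [mul_pos h10 this]
      rw [hν]
      simp [h3]
    · have h3 : ¬ M.SameSign hΓ (ix i hi) (ix x hx) x := by
        intro h
        have h4 := D.ratio_bound D' hx (half_pos (neg_pos.2 hr))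
        have h5 := hΓ.frequently_not_mem (hΓ.subset hx)
        have h6 : ∀ᶠ q in 𝓝[M.carrier] x, q ∈ M.carrier := self_mem_nhdsWithin
        have h7 : ∀ᶠ q in 𝓝[M.carrier] x, q ∈ M.coverU hΓ (ix i hi) :=
          nhdsWithin_le_nhds ((M.isOpen_coverU hΓ _).mem_nhds hUi)
        obtain ⟨q, hq, hq1, hq4, hq6, hq7⟩ :=
          (h5.and_eventually (h.and ((eventually_nhdsWithin_of_eventually_nhds h4).and (h6.and h7)))).exists
        have h8 : D.h q ≠ 0 := by
          intro h9
          rw [← e1] at h9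
          exact hq ((M.coverH_eq_zero hΓ _ hq7 hq6).1 h9)
        rw [e1, e2] at hq1
        have h9 := abs_le.1 (hq4 hq6)
        rcases lt_or_gt_of_ne h8 with h10 | h10
        · rw [abs_of_neg h10] at h9
          have : 0 < D'.h q := by nlinarith [h9.1, mul_pos_of_neg_of_neg hr h10]
          nlinarith [mul_neg_of_neg_of_pos h10 this]
        · rw [abs_of_pos h10] at h9
          have : D'.h q < 0 := by nlinarith [h9.2, mul_neg_of_neg_of_pos hr h10]
          nlinarith [mul_neg_of_pos_of_neg h10 this]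
      rw [hν]
      have h4 : decide (¬ M.SameSign hΓ (ix i hi) (ix x hx) x) = true := by simp [h3]
      rw [h4]
      cases s (ix i hi) (ix x hx) <;> simp [sg]
  -- smooth extension
  let t : F → Set F := fun p => if p ∈ Γ then {ν₀ p} else univ
  have ht : ∀ p, Convex ℝ (t p) := by
    intro p
    simp only [t]
    split_ifs
    · exact convex_singleton _
    · exact convex_univ
  have Hloc : ∀ x : F, ∃ U ∈ 𝓝 x, ∃ g : F → F,
      ContMDiffOn 𝓘(ℝ, F) 𝓘(ℝ, F) (∞ : ℕ∞ω) g U ∧ ∀ y ∈ U, g y ∈ t y := by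
    intro x
    by_cases hx : x ∈ Γ
    · let D := hΓ.localData x hx
      -- the sign is constant near `x`
      have h1 : ∀ᶠ y in 𝓝 (ix x hx), s (ix x hx) y = s (ix x hx) (ix x hx) := by
        have h2 : ContinuousWithinAt (s (ix x hx)) ((M.cocycle hΓ).U (ix x hx) ∩ univ) (ix x hx) :=
          hs (ix x hx) (ix x hx) ⟨(M.cocycle hΓ).mem (ix x hx), mem_univ _⟩
        have h3 : (M.cocycle hΓ).U (ix x hx) ∩ univ ∈ 𝓝 (ix x hx) := by
          rw [inter_univ]
          exact ((M.cocycle hΓ).isOpen _).mem_nhds ((M.cocycle hΓ).mem (ix x hx))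
        have h4 := h2.continuousAt h3
        have h5 : ({s (ix x hx) (ix x hx)} : Set Bool) ∈ 𝓝 (s (ix x hx) (ix x hx)) :=
          (isOpen_discrete _).mem_nhds rfl
        exact h4 h5
      have h6 : ∀ᶠ y in 𝓝[M.carrier] x, ∀ hy : y ∈ M.carrier,
          s (ix x hx) ⟨y, hy⟩ = s (ix x hx) (ix x hx) := by
        rw [nhds_subtype_eq_comap_nhdsWithin] at h1
        obtain ⟨V, hV, hV'⟩ := mem_comap.1 h1
        filter_upwards [hV] with y hy hyM
        exact hV' (show (⟨y, hyM⟩ : M.carrier) ∈ Subtype.val ⁻¹' V from hy)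
      have h7 : ∀ᶠ y in 𝓝 x, ∀ hy : y ∈ M.carrier,
          s (ix x hx) ⟨y, hy⟩ = s (ix x hx) (ix x hx) := by
        rw [eventually_nhdsWithin_iff] at h6
        filter_upwards [h6] with y hy hyM using hy hyM hyM
      have h8 : ∀ᶠ y in 𝓝 x, ContDiffAt ℝ ∞ D.ν y := D.eventually_contDiffAt_ν hx
      refine ⟨{y | (∀ hy : y ∈ M.carrier, s (ix x hx) ⟨y, hy⟩ = s (ix x hx) (ix x hx)) ∧
        ContDiffAt ℝ ∞ D.ν y ∧ y ∈ D.U}, ?_, fun y => sg (s (ix x hx) (ix x hx)) • D.ν y, ?_, ?_⟩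
      · filter_upwards [h7, h8, D.isOpen.mem_nhds D.mem] with y hy1 hy2 hy3
        exact ⟨hy1, hy2, hy3⟩
      · intro y hy
        exact ((contDiffAt_const.smul hy.2.1).contMDiffAt).contMDiffWithinAt
      · intro y hy
        simp only [t]
        split_ifs with hyΓ
        · rw [mem_singleton_iff, key x y hx hyΓ hy.2.2, ← hy.1 (hΓ.subset hyΓ)]
        · exact mem_univ _
    · refine ⟨Γᶜ, hΓ.isClosed.isOpen_compl.mem_nhds hx, fun _ => 0, contMDiffOn_const, ?_⟩
      intro y hy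
      simp only [t]
      rw [if_neg hy]
      exact mem_univ _
  obtain ⟨g, hg⟩ := exists_contMDiffMap_forall_mem_convex_of_local 𝓘(ℝ, F) (n := ⊤) ht Hloc
  refine ⟨g, g.contMDiff.contDiff, ?_⟩
  intro p hp
  have h1 : g p = ν₀ p := by
    have := hg p
    simp only [t] at this
    rwa [if_pos hp, mem_singleton_iff] at this
  have h2 : ν₀ p = sg (s (ix p hp) (ix p hp)) • (hΓ.localData p hp).ν p := by
    simp only [ν₀]; rw [dif_pos hp]
  rw [h1, h2]
  refine ⟨Submodule.smul_mem _ _ ((hΓ.localData p hp).ν_mem hp), ?_⟩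
  rw [norm_smul, Real.norm_eq_abs, hsg, (hΓ.localData p hp).norm_ν hp, one_mul]

end EuclideanHypersurface

end Pool.Agent.H48.IndexOne
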