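import Pool.Agent.H48.IndexOne.Sausage
import Pool.Agent.H48.IndexOne.TwoSided

/-!
# Geometry of the sausage: the conformal field, the Ricci curvature
-/

open MeasureTheory Set Topology Filter Module
open scoped ContDiff ENNReal RealInnerProductSpace Gradient NNReal

namespace Pool.Agent.H48.IndexOne

variable {F : Type*} [NormedAddCommGroup F] [InnerProductSpace ℝ F] [FiniteDimensional ℝ F]

/-- The trace of `P ∘ A` for a projection `P`. -/
theorem trace_proj_comp (S : Submodule ℝ F) (A : F →L[ℝ] F) {ι : Type*} [Fintype ι]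
    (b : OrthonormalBasis ι ℝ F) :
    LinearMap.trace ℝ F ((S.starProjection ∘L A : F →L[ℝ] F) : F →ₗ[ℝ] F) =
      ∑ i, ⟪S.starProjection (b i), A (S.starProjection (b i))⟫ := by
  have h1 : ((S.starProjection ∘L A : F →L[ℝ] F) : F →ₗ[ℝ] F) =
      ((S.starProjection : F →L[ℝ] F) : F →ₗ[ℝ] F) ∘ₗ
        (((S.starProjection : F →L[ℝ] F) : F →ₗ[ℝ] F) ∘ₗ (A : F →ₗ[ℝ] F)) := by
    ext v
    simp only [ContinuousLinearMap.coe_coe, LinearMap.coe_comp, Function.comp_apply,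
      ContinuousLinearMap.comp_apply]
    exact (Submodule.starProjection_eq_self_iff.2 (Submodule.starProjection_apply_mem S (A v))).symm
  rw [h1, LinearMap.trace_comp_comm', LinearMap.trace_eq_sum_inner _ b]
  refine Finset.sum_congr rfl (fun i _ => ?_)
  simp only [LinearMap.coe_comp, Function.comp_apply, ContinuousLinearMap.coe_coe]
  exact (Submodule.inner_starProjection_left_eq_right S _ _).symm

/-- Trace of `P ∘ A` when the quadratic form of `A` on the subspace is a combination of the norm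
square and the square of a linear form. -/
theorem trace_of_quadratic {S : Submodule ℝ F} {A : F →L[ℝ] F} {e : F} {a c : ℝ}
    (h : ∀ v ∈ S, ⟪v, A v⟫ = a * ⟪e, v⟫ ^ 2 + c * ‖v‖ ^ 2) :
    LinearMap.trace ℝ F ((S.starProjection ∘L A : F →L[ℝ] F) : F →ₗ[ℝ] F) =
      a * ‖S.starProjection e‖ ^ 2 + c * finrank ℝ S := by
  rw [trace_proj_comp S A (stdOrthonormalBasis ℝ F)]
  have h1 : ∀ i, ⟪S.starProjection (stdOrthonormalBasis ℝ F i),
      A (S.starProjection (stdOrthonormalBasis ℝ F i))⟫ =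
      a * ⟪S.starProjection e, stdOrthonormalBasis ℝ F i⟫ ^ 2 +
      c * ⟪stdOrthonormalBasis ℝ F i, S.starProjection (stdOrthonormalBasis ℝ F i)⟫ := by
    intro i
    rw [h _ (Submodule.starProjection_apply_mem S _)]
    congr 2
    · rw [Submodule.inner_starProjection_left_eq_right]
    · rw [← real_inner_self_eq_norm_sq, Submodule.inner_starProjection_left_eq_right,
        Submodule.starProjection_eq_self_iff.2 (Submodule.starProjection_apply_mem S _)]
  rw [Finset.sum_congr rfl (fun i _ => h1 i), Finset.sum_add_distrib, ← Finset.mul_sum,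
    ← Finset.mul_sum]
  congr 2
  · have := OrthonormalBasis.sum_sq_norm_inner_left (stdOrthonormalBasis ℝ F) (S.starProjection e)
    simpa [Real.norm_eq_abs, sq_abs] using this
  · rw [← trace_starProjection, LinearMap.trace_eq_sum_inner _ (stdOrthonormalBasis ℝ F)]
    rfl

/-! ### The conformal field -/

/-- unnormalized meridian field -/
noncomputable def Wf (e : F) (T : ℝ) (p : F) : F :=
  (-bet1 T ⟪e, p⟫) • yy e p + (2 * (‖p‖ ^ 2 - ⟪e, p⟫ ^ 2)) • e

/-- squared norm of the gradient, modified to be positive everywhere -/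
noncomputable def N2 (e : F) (T : ℝ) (p : F) : ℝ :=
  4 * (‖p‖ ^ 2 - ⟪e, p⟫ ^ 2) + bet1 T ⟪e, p⟫ ^ 2 + Phi e T p ^ 2

/-- The conformal field `r ∂_s` of the sausage. -/
noncomputable def Yf (e : F) (T : ℝ) (p : F) : F := (Real.sqrt (N2 e T p))⁻¹ • Wf e T p

omit [FiniteDimensional ℝ F] in
theorem N2_pos {e : F} (he : ‖e‖ = 1) {T : ℝ} (hT : 0 ≤ T) (p : F) : 0 < N2 e T p := by
  unfold N2
  rw [← norm_yy_sq he]
  rcases eq_or_ne (bet1 T ⟪e, p⟫) 0 with h | h
  · have h1 : |⟪e, p⟫| ≤ T := by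
      by_contra hcon
      have := bet1_mul_pos hT (not_le.1 hcon)
      rw [h, zero_mul] at this
      exact lt_irrefl _ this
    rcases eq_or_ne ‖yy e p‖ 0 with h2 | h2
    · have h3 : Phi e T p = -1 := by
        unfold Phi
        rw [← norm_yy_sq he, h2, bet_of_abs_le h1]
        norm_num
      rw [h3, h2, h]
      norm_num
    · positivity
  · positivity

theorem contDiff_inner_e (e : F) : ContDiff ℝ ∞ (fun p : F => ⟪e, p⟫) :=
  contDiff_const.inner ℝ contDiff_id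

theorem contDiff_yy (e : F) : ContDiff ℝ ∞ (yy e) := by
  unfold yy
  exact contDiff_id.sub ((contDiff_inner_e e).smul contDiff_const)

theorem contDiff_Wf (e : F) (T : ℝ) : ContDiff ℝ ∞ (Wf e T) := by
  unfold Wf
  have h1 := contDiff_inner_e e
  exact (((contDiff_bet1 T).comp h1).neg.smul (contDiff_yy e)).add
    ((contDiff_const.mul ((contDiff_norm_sq ℝ).sub (h1.pow 2))).smul contDiff_const)

theorem contDiff_N2 (e : F) (T : ℝ) : ContDiff ℝ ∞ (N2 e T) := by
  unfold N2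
  have h1 := contDiff_inner_e e
  exact ((contDiff_const.mul ((contDiff_norm_sq ℝ).sub (h1.pow 2))).add
    (((contDiff_bet1 T).comp h1).pow 2)).add ((contDiff_Phi e T).pow 2)

theorem contDiff_Yf {e : F} (he : ‖e‖ = 1) {T : ℝ} (hT : 0 ≤ T) : ContDiff ℝ ∞ (Yf e T) := by
  unfold Yf
  refine ContDiff.smul ?_ (contDiff_Wf e T)
  refine ContDiff.inv ?_ ?_
  · exact (contDiff_N2 e T).sqrt (fun p => (N2_pos he hT p).ne')
  · intro p
    exact (Real.sqrt_pos.2 (N2_pos he hT p)).ne'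

theorem hasFDerivAt_normsq (e p : F) :
    HasFDerivAt (fun p : F => ‖p‖ ^ 2 - ⟪e, p⟫ ^ 2) (innerSL ℝ ((2 : ℝ) • yy e p)) p := by
  have h1 : HasFDerivAt (fun p : F => ‖p‖ ^ 2) (2 • innerSL ℝ p) p :=
    (hasStrictFDerivAt_norm_sq p).hasFDerivAt
  have h2 := hasFDerivAt_inner_e e p
  have h3 : HasFDerivAt (fun p : F => ⟪e, p⟫ ^ 2) ((2 * ⟪e, p⟫) • innerSL ℝ e) p := by
    simpa using h2.pow 2
  refine (h1.sub h3).congr_fderiv ?_
  ext v
  simp only [yy, sub_apply, smul_apply, innerSL_apply_apply, smul_eq_mul,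
    real_inner_smul_left, inner_sub_left, nsmul_eq_mul]
  push_cast
  ring

theorem hasFDerivAt_yy (e p : F) :
    HasFDerivAt (yy e) (ContinuousLinearMap.id ℝ F - (innerSL ℝ e).smulRight e) p := by
  unfold yy
  exact (hasFDerivAt_id p).sub ((hasFDerivAt_inner_e e p).smul_const e)

theorem hasFDerivAt_Wf (e : F) (T : ℝ) (p : F) :
    HasFDerivAt (Wf e T)
      ((-bet1 T ⟪e, p⟫) • (ContinuousLinearMap.id ℝ F - (innerSL ℝ e).smulRight e) +
        (-(bet2 T ⟪e, p⟫ • innerSL ℝ e)).smulRight (yy e p) +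
        ((2 : ℝ) • innerSL ℝ ((2 : ℝ) • yy e p)).smulRight e) p := by
  have h2 := hasFDerivAt_inner_e e p
  have h3 : HasFDerivAt (fun p : F => -bet1 T ⟪e, p⟫) (-(bet2 T ⟪e, p⟫ • innerSL ℝ e)) p :=
    ((hasDerivAt_bet1 T ⟪e, p⟫).comp_hasFDerivAt p h2).neg
  have h4 := (hasFDerivAt_normsq e p).const_mul (2 : ℝ)
  exact (h3.smul (hasFDerivAt_yy e p)).add (h4.smul_const e)

theorem hasFDerivAt_N2 (e : F) (T : ℝ) (p : F) :
    HasFDerivAt (N2 e T)
      ((4 : ℝ) • innerSL ℝ ((2 : ℝ) • yy e p) +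
        (2 * bet1 T ⟪e, p⟫) • (bet2 T ⟪e, p⟫ • innerSL ℝ e) +
        (2 * Phi e T p) • innerSL ℝ ((2 : ℝ) • yy e p + bet1 T ⟪e, p⟫ • e)) p := by
  have h2 := hasFDerivAt_inner_e e p
  have h3 : HasFDerivAt (fun p : F => bet1 T ⟪e, p⟫ ^ 2)
      ((2 * bet1 T ⟪e, p⟫) • (bet2 T ⟪e, p⟫ • innerSL ℝ e)) p := by
    simpa using ((hasDerivAt_bet1 T ⟪e, p⟫).comp_hasFDerivAt p h2).pow 2
  have h4 := (hasFDerivAt_normsq e p).const_mul (4 : ℝ)
  have h5 : HasFDerivAt (fun p : F => Phi e T p ^ 2)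
      ((2 * Phi e T p) • innerSL ℝ ((2 : ℝ) • yy e p + bet1 T ⟪e, p⟫ • e)) p := by
    simpa using (hasFDerivAt_Phi e T p).pow 2
  exact (h4.add h3).add h5

/-- The norm of the gradient on the sausage. -/
theorem N2_eq {e : F} {T : ℝ} {p : F} (hp : Phi e T p = 0) :
    N2 e T p = 4 * (‖p‖ ^ 2 - ⟪e, p⟫ ^ 2) + bet1 T ⟪e, p⟫ ^ 2 := by
  unfold N2; rw [hp]; ring

theorem inner_tangent {e : F} {T : ℝ} {p v : F}
    (hv : fderiv ℝ (Phi e T) p v = 0) : 2 * ⟪yy e p, v⟫ + bet1 T ⟪e, p⟫ * ⟪e, v⟫ = 0 := by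
  rw [(hasFDerivAt_Phi e T p).fderiv] at hv
  simpa [inner_add_left, real_inner_smul_left] using hv

theorem Yf_tangent {e : F} (he : ‖e‖ = 1) {T : ℝ} (p : F) :
    fderiv ℝ (Phi e T) p (Yf e T p) = 0 := by
  rw [(hasFDerivAt_Phi e T p).fderiv, innerSL_apply_apply]
  unfold Yf Wf
  rw [real_inner_smul_right]
  apply mul_eq_zero_of_right
  simp only [inner_add_left, inner_add_right, real_inner_smul_left, real_inner_smul_right]
  rw [real_inner_comm e (yy e p), inner_yy he, real_inner_self_eq_norm_sq,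
    real_inner_self_eq_norm_sq, he, norm_yy_sq he]
  ring

/-- The field `Yf` is conformal on the sausage. -/
theorem inner_fderiv_Yf {e : F} (he : ‖e‖ = 1) {T : ℝ} (hT : 0 ≤ T) {p : F}
    (hp : Phi e T p = 0) {v : F} (hv : fderiv ℝ (Phi e T) p v = 0) :
    ⟪v, fderiv ℝ (Yf e T) p v⟫ = -(bet1 T ⟪e, p⟫ / Real.sqrt (N2 e T p)) * ‖v‖ ^ 2 := by
  have hN := N2_pos he hT p
  have hs := Real.sqrt_pos.2 hN
  have hss : Real.sqrt (N2 e T p) ^ 2 = N2 e T p := Real.sq_sqrt hN.le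
  have h1 : HasFDerivAt (fun p => (Real.sqrt (N2 e T p))⁻¹)
      ((-(Real.sqrt (N2 e T p) ^ 2)⁻¹ * (1 / (2 * Real.sqrt (N2 e T p)))) •
      ((4 : ℝ) • innerSL ℝ ((2 : ℝ) • yy e p) +
        (2 * bet1 T ⟪e, p⟫) • (bet2 T ⟪e, p⟫ • innerSL ℝ e) +
        (2 * Phi e T p) • innerSL ℝ ((2 : ℝ) • yy e p + bet1 T ⟪e, p⟫ • e))) p := by
    have h2 := (Real.hasDerivAt_sqrt hN.ne').comp_hasFDerivAt p (hasFDerivAt_N2 e T p)
    have h3 := (hasDerivAt_inv hs.ne').comp_hasFDerivAt p h2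
    rw [smul_smul] at h3
    exact h3
  have h2 : HasFDerivAt (Yf e T) _ p := h1.smul (hasFDerivAt_Wf e T p)
  rw [h2.fderiv]
  have ht := inner_tangent hv
  set t := ⟪e, p⟫ with ht'
  set b1 := bet1 T t with hb1
  set b2 := bet2 T t with hb2
  set σ := Real.sqrt (N2 e T p) with hσ
  have hy : ⟪yy e p, v⟫ = -(b1 * ⟪e, v⟫) / 2 := by linarith
  have hN' : 4 * (‖p‖ ^ 2 - t ^ 2) + b1 ^ 2 = σ ^ 2 := by rw [hss, N2_eq hp]
  simp only [add_apply, sub_apply, smul_apply, ContinuousLinearMap.smulRight_apply,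
    innerSL_apply_apply, neg_apply, ContinuousLinearMap.id_apply, smul_eq_mul,
    inner_add_right, inner_sub_right, real_inner_smul_right, real_inner_smul_left,
    inner_add_left, hp, Wf, inner_neg_right]
  rw [real_inner_comm e v, real_inner_comm (yy e p) v, hy, real_inner_self_eq_norm_sq]
  rw [← ht', ← hb1]
  have hy2 : ‖p‖ ^ 2 - t ^ 2 = (σ ^ 2 - b1 ^ 2) / 4 := by linarith
  rw [hy2]
  field_simp
  ring

theorem Yf_of_abs_le {e : F} {T : ℝ} {p : F} (hp : Phi e T p = 0)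
    (ht : |⟪e, p⟫| ≤ T) : Yf e T p = e := by
  have h1 : ‖p‖ ^ 2 - ⟪e, p⟫ ^ 2 = 1 := by
    unfold Phi at hp
    rw [bet_of_abs_le ht] at hp
    linarith
  unfold Yf
  rw [N2_eq hp]
  unfold Wf
  rw [h1, bet1_of_abs_le ht]
  have : Real.sqrt (4 * 1 + 0 ^ 2) = 2 := by
    rw [show (4 * 1 + 0 ^ 2 : ℝ) = 2 ^ 2 by norm_num]
    exact Real.sqrt_sq (by norm_num)
  rw [this, neg_zero, zero_smul, zero_add, smul_smul]
  norm_num

/-! ### Ricci curvature on the cylinder -/

section cyl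

variable {e : F} (he : ‖e‖ = 1) {T : ℝ} (hT : 0 ≤ T) (hF : 2 < finrank ℝ F)

theorem sausage_unitNormal_of_abs_le {p : F} (hp : Phi e T p = 0) (ht : |⟪e, p⟫| ≤ T) :
    (sausage he hT hF).unitNormal p = yy e p := by
  have h1 : ‖yy e p‖ ^ 2 = 1 := by
    rw [norm_yy_sq he]
    unfold Phi at hp
    rw [bet_of_abs_le ht] at hp
    linarith
  have h2 : ‖∇ (Phi e T) p‖ = 2 := by
    have := norm_gradient_sq he T p
    rw [h1, bet1_of_abs_le ht] at this
    have h3 : ‖∇ (Phi e T) p‖ ^ 2 = 2 ^ 2 := by rw [this]; norm_num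
    exact (pow_left_inj₀ (norm_nonneg _) (by norm_num) (by norm_num)).1 h3
  change ‖∇ (Phi e T) p‖⁻¹ • ∇ (Phi e T) p = _
  rw [h2, gradient_Phi, bet1_of_abs_le ht, zero_smul, add_zero, smul_smul]
  norm_num

/-- The shape operator of the sausage on the cylinder, before projections. -/
theorem fderiv_unitNormal_of_abs_le {p : F} (hp : Phi e T p = 0) (ht : |⟪e, p⟫| ≤ T) {v : F}
    (hv : v ∈ (sausage he hT hF).tangent p) :
    fderiv ℝ (sausage he hT hF).unitNormal p v = yy e v := by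
  have h1 : ‖yy e p‖ ^ 2 = 1 := by
    rw [norm_yy_sq he]
    unfold Phi at hp
    rw [bet_of_abs_le ht] at hp
    linarith
  have hn2 : ‖∇ (Phi e T) p‖ = 2 := by
    have := norm_gradient_sq he T p
    rw [h1, bet1_of_abs_le ht] at this
    have h3 : ‖∇ (Phi e T) p‖ ^ 2 = 2 ^ 2 := by rw [this]; norm_num
    exact (pow_left_inj₀ (norm_nonneg _) (by norm_num) (by norm_num)).1 h3
  -- the gradient
  have hg : ∇ (Phi e T) = fun p => (2 : ℝ) • yy e p + bet1 T ⟪e, p⟫ • e := by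
    funext q; exact gradient_Phi e T q
  have hgd : HasFDerivAt (∇ (Phi e T))
      ((2 : ℝ) • (ContinuousLinearMap.id ℝ F - (innerSL ℝ e).smulRight e) +
        (bet2 T ⟪e, p⟫ • innerSL ℝ e).smulRight e) p := by
    rw [hg]
    have h3 : HasFDerivAt (fun p : F => bet1 T ⟪e, p⟫) (bet2 T ⟪e, p⟫ • innerSL ℝ e) p :=
      (hasDerivAt_bet1 T ⟪e, p⟫).comp_hasFDerivAt p (hasFDerivAt_inner_e e p)
    exact ((hasFDerivAt_yy e p).const_smul (2 : ℝ)).add (h3.smul_const e)
  rw [bet2_of_abs_le ht, zero_smul] at hgd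
  have hz : (0 : F →L[ℝ] ℝ).smulRight e = 0 := by ext; simp
  rw [hz, add_zero] at hgd
  -- the norm of the gradient
  have hne : ∇ (Phi e T) p ≠ 0 := by
    intro h
    rw [h, norm_zero] at hn2
    norm_num at hn2
  have hnsq : HasFDerivAt (fun q => ‖∇ (Phi e T) q‖ ^ 2)
      (2 • (innerSL ℝ (∇ (Phi e T) p)).comp
      ((2 : ℝ) • (ContinuousLinearMap.id ℝ F - (innerSL ℝ e).smulRight e))) p := hgd.norm_sq
  have hnorm : HasFDerivAt (fun q => ‖∇ (Phi e T) q‖⁻¹) ((-(‖∇ (Phi e T) p‖ ^ 2)⁻¹ *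
      (1 / (2 * Real.sqrt (‖∇ (Phi e T) p‖ ^ 2)))) • (2 • (innerSL ℝ (∇ (Phi e T) p)).comp
      ((2 : ℝ) • (ContinuousLinearMap.id ℝ F - (innerSL ℝ e).smulRight e)))) p := by
    have hpos : ‖∇ (Phi e T) p‖ ^ 2 ≠ 0 := pow_ne_zero _ (norm_ne_zero_iff.2 hne)
    have h2 := (Real.hasDerivAt_sqrt hpos).comp_hasFDerivAt p hnsq
    have h3 : HasFDerivAt (fun q => ‖∇ (Phi e T) q‖)
        ((1 / (2 * Real.sqrt (‖∇ (Phi e T) p‖ ^ 2))) • (2 • (innerSL ℝ (∇ (Phi e T) p)).comp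
      ((2 : ℝ) • (ContinuousLinearMap.id ℝ F - (innerSL ℝ e).smulRight e)))) p := by
      refine h2.congr_of_eventuallyEq (Eventually.of_forall (fun q => ?_))
      simp only [Function.comp_apply]
      exact (Real.sqrt_sq (norm_nonneg _)).symm
    have h4 := (hasDerivAt_inv (norm_ne_zero_iff.2 hne)).comp_hasFDerivAt p h3
    rw [smul_smul] at h4
    exact h4
  have hun : HasFDerivAt (sausage he hT hF).unitNormal _ p := hnorm.smul hgd
  rw [hun.fderiv]
  have hv' : fderiv ℝ (Phi e T) p v = 0 := (sausage he hT hF).mem_tangent.1 hv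
  have ht2 := inner_tangent hv'
  rw [bet1_of_abs_le ht, zero_mul, add_zero] at ht2
  have ht3 : ⟪yy e p, v⟫ = 0 := by linarith
  have hgp : ∇ (Phi e T) p = (2 : ℝ) • yy e p := by
    rw [gradient_Phi, bet1_of_abs_le ht, zero_smul, add_zero]
  have ht4 : ⟪yy e p, yy e v⟫ = 0 := by
    unfold yy at ht3 ⊢
    rw [inner_sub_right, ht3, real_inner_smul_right, inner_sub_left, real_inner_smul_left,
      real_inner_self_eq_norm_sq, he, real_inner_comm e p]
    ring
  have ht5 : ⟪∇ (Phi e T) p, (2 : ℝ) • yy e v⟫ = 0 := by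
    rw [hgp, real_inner_smul_left, real_inner_smul_right, ht4]; ring
  simp only [add_apply, smul_apply, ContinuousLinearMap.smulRight_apply,
    ContinuousLinearMap.comp_apply, sub_apply, ContinuousLinearMap.id_apply, innerSL_apply_apply]
  have e1 : v - ⟪e, v⟫ • e = yy e v := rfl
  rw [e1, ht5, hn2, smul_smul]
  norm_num

/-- The shape operator of the sausage on the cylinder. -/
theorem shape_of_abs_le {p : F} (hp : Phi e T p = 0) (ht : |⟪e, p⟫| ≤ T) (v : F) :
    (sausage he hT hF).shape p v = v - ⟪yy e p, v⟫ • yy e p - ⟪e, v⟫ • e := by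
  have h1 : ‖yy e p‖ ^ 2 = 1 := by
    rw [norm_yy_sq he]
    unfold Phi at hp
    rw [bet_of_abs_le ht] at hp
    linarith
  unfold EuclideanHypersurface.shape
  simp only [ContinuousLinearMap.comp_apply]
  rw [fderiv_unitNormal_of_abs_le he hT hF hp ht (Submodule.starProjection_apply_mem _ _),
    (sausage he hT hF).tangent_starProjection hp, (sausage he hT hF).tangent_starProjection hp,
    sausage_unitNormal_of_abs_le he hT hF hp ht]
  have h2 : ⟪e, yy e p⟫ = 0 := inner_yy he p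
  have h3 : yy e (v - ⟪yy e p, v⟫ • yy e p) = v - ⟪yy e p, v⟫ • yy e p - ⟪e, v⟫ • e := by
    conv_lhs => unfold yy
    rw [inner_sub_right, real_inner_smul_right, show ⟪e, p - ⟪e, p⟫ • e⟫ = 0 from h2, mul_zero,
      sub_zero]
    rfl
  rw [h3]
  have h4 : ⟪yy e p, v - ⟪yy e p, v⟫ • yy e p - ⟪e, v⟫ • e⟫ = 0 := by
    rw [inner_sub_right, inner_sub_right, real_inner_smul_right, real_inner_smul_right,
      real_inner_self_eq_norm_sq, h1, real_inner_comm e (yy e p), h2]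
    ring
  rw [h4, zero_smul, sub_zero]

theorem shape_e {p : F} (hp : Phi e T p = 0) (ht : |⟪e, p⟫| ≤ T) :
    (sausage he hT hF).shape p e = 0 := by
  rw [shape_of_abs_le he hT hF hp ht, real_inner_comm, inner_yy he,
    real_inner_self_eq_norm_sq, he]
  simp

/-- The Ricci curvature of the sausage on the cylinder. -/
theorem ricci_of_abs_le {p : F} (hp : Phi e T p = 0) (ht : |⟪e, p⟫| ≤ T) {v : F}
    (hv : ⟪yy e p, v⟫ = 0) :
    (sausage he hT hF).ricci p v = ((finrank ℝ F : ℝ) - 3) * (‖v‖ ^ 2 - ⟪e, v⟫ ^ 2) := by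
  have h1 : ‖yy e p‖ ^ 2 = 1 := by
    rw [norm_yy_sq he]
    unfold Phi at hp
    rw [bet_of_abs_le ht] at hp
    linarith
  have htr : LinearMap.trace ℝ F ((sausage he hT hF).shape p : F →ₗ[ℝ] F) =
      (finrank ℝ F : ℝ) - 2 := by
    have h2 : (sausage he hT hF).shape p = ContinuousLinearMap.id ℝ F -
        (innerSL ℝ (yy e p)).smulRight (yy e p) - (innerSL ℝ e).smulRight e := by
      ext w
      rw [shape_of_abs_le he hT hF hp ht]
      rfl
    rw [h2]
    have h3 : ((ContinuousLinearMap.id ℝ F -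
        (innerSL ℝ (yy e p)).smulRight (yy e p) - (innerSL ℝ e).smulRight e : F →L[ℝ] F) :
        F →ₗ[ℝ] F) = LinearMap.id -
        (((innerSL ℝ (yy e p)).smulRight (yy e p) : F →L[ℝ] F) : F →ₗ[ℝ] F) -
        (((innerSL ℝ e).smulRight e : F →L[ℝ] F) : F →ₗ[ℝ] F) := by
      ext w; rfl
    rw [h3, map_sub, map_sub, trace_rankOne, trace_rankOne, LinearMap.trace_id,
      real_inner_self_eq_norm_sq, real_inner_self_eq_norm_sq, h1, he]
    ring
  have hs : (sausage he hT hF).shape p v = yy e v := by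
    rw [shape_of_abs_le he hT hF hp ht, hv, zero_smul, sub_zero]
    rfl
  unfold EuclideanHypersurface.ricci
  rw [htr, hs, norm_yy_sq he]
  have h5 : ⟪yy e v, v⟫ = ‖v‖ ^ 2 - ⟪e, v⟫ ^ 2 := by
    unfold yy
    rw [inner_sub_left, real_inner_smul_left, real_inner_self_eq_norm_sq]
    ring
  rw [h5]
  ring

end cyl

end Pool.Agent.H48.IndexOne
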