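import Pool.Agent.H48.IndexOne.Defs

/-!
# Local structure of hypersurfaces
-/

open MeasureTheory Set Topology Filter Module
open scoped ContDiff ENNReal RealInnerProductSpace Gradient

namespace Pool.Agent.H48.IndexOne

variable {F : Type*} [NormedAddCommGroup F] [InnerProductSpace ℝ F] [FiniteDimensional ℝ F]

/-- The intersection of the kernels of two linear forms. -/
noncomputable def kerTwo (a b : F →L[ℝ] ℝ) : Submodule ℝ F :=
  LinearMap.ker (a : F →ₗ[ℝ] ℝ) ⊓ LinearMap.ker (b : F →ₗ[ℝ] ℝ)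

omit [FiniteDimensional ℝ F] in
theorem mem_kerTwo {a b : F →L[ℝ] ℝ} {v : F} : v ∈ kerTwo a b ↔ a v = 0 ∧ b v = 0 := by
  simp [kerTwo]

/-- The derivative of the local chart. -/
noncomputable def chartDeriv (a b : F →L[ℝ] ℝ) : F →L[ℝ] ℝ × ℝ × kerTwo a b :=
  a.prod (b.prod (kerTwo a b).orthogonalProjectionOnto)

theorem chartDeriv_apply (a b : F →L[ℝ] ℝ) (v : F) :
    chartDeriv a b v = (a v, b v, (kerTwo a b).orthogonalProjectionOnto v) := rfl

theorem proj_of_mem {T : Submodule ℝ F} (v : T) : T.orthogonalProjectionOnto (v : F) = v :=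
  Submodule.orthogonalProjectionOnto_mem_subspace_eq_self v

theorem chartDeriv_injective (a b : F →L[ℝ] ℝ) : Function.Injective (chartDeriv a b) := by
  rw [injective_iff_map_eq_zero]
  intro v hv
  rw [chartDeriv_apply] at hv
  simp only [Prod.mk_eq_zero] at hv
  have h1 : v ∈ kerTwo a b := mem_kerTwo.2 ⟨hv.1, hv.2.1⟩
  have h2 := hv.2.2
  rw [proj_of_mem (⟨v, h1⟩ : kerTwo a b)] at h2
  exact congrArg Subtype.val h2

theorem chartDeriv_surjective {a b : F →L[ℝ] ℝ} (ha : a ≠ 0) (hb : ∃ v, a v = 0 ∧ b v ≠ 0) :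
    Function.Surjective (chartDeriv a b) := by
  obtain ⟨v1, hv1, hv1'⟩ := hb
  obtain ⟨v2, hv2⟩ : ∃ v, a v ≠ 0 := by
    by_contra hcon
    push Not at hcon
    exact ha (ContinuousLinearMap.ext hcon)
  rintro ⟨x, y, w⟩
  -- `v0` with `a v0 = x`, `b v0 = y`
  let v0 : F := (x / a v2) • v2 + ((y - (x / a v2) * b v2) / b v1) • v1
  have h1 : a v0 = x := by
    simp only [v0, map_add, map_smul, smul_eq_mul, hv1, mul_zero, add_zero]
    field_simp
  have h2 : b v0 = y := by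
    simp only [v0, map_add, map_smul, smul_eq_mul]
    field_simp
    ring
  let P := (kerTwo a b).orthogonalProjectionOnto
  have h3 : a (P v0 : F) = 0 := (mem_kerTwo.1 (P v0).2).1
  have h4 : b (P v0 : F) = 0 := (mem_kerTwo.1 (P v0).2).2
  have h5 : a (w : F) = 0 := (mem_kerTwo.1 w.2).1
  have h6 : b (w : F) = 0 := (mem_kerTwo.1 w.2).2
  refine ⟨v0 - (P v0 : F) + (w : F), ?_⟩
  rw [chartDeriv_apply]
  simp only [map_add, map_sub, h1, h2, h3, h4, h5, h6, sub_zero, add_zero, proj_of_mem]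
  simp [P]

/-- The derivative of the local chart as a continuous linear equivalence. -/
noncomputable def chartEquiv {a b : F →L[ℝ] ℝ} (ha : a ≠ 0) (hb : ∃ v, a v = 0 ∧ b v ≠ 0) :
    F ≃L[ℝ] ℝ × ℝ × kerTwo a b :=
  (LinearEquiv.ofBijective (chartDeriv a b : F →ₗ[ℝ] ℝ × ℝ × kerTwo a b)
    ⟨chartDeriv_injective a b, chartDeriv_surjective ha hb⟩).toContinuousLinearEquiv

theorem chartEquiv_apply {a b : F →L[ℝ] ℝ} (ha : a ≠ 0) (hb : ∃ v, a v = 0 ∧ b v ≠ 0) (v : F) :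
    chartEquiv ha hb v = (a v, b v, (kerTwo a b).orthogonalProjectionOnto v) := rfl

theorem coe_chartEquiv {a b : F →L[ℝ] ℝ} (ha : a ≠ 0) (hb : ∃ v, a v = 0 ∧ b v ≠ 0) :
    (chartEquiv ha hb : F →L[ℝ] ℝ × ℝ × kerTwo a b) = chartDeriv a b := rfl

theorem finrank_kerTwo {a b : F →L[ℝ] ℝ} (ha : a ≠ 0) (hb : ∃ v, a v = 0 ∧ b v ≠ 0) :
    finrank ℝ (kerTwo a b) + 2 = finrank ℝ F := by
  have h := (chartEquiv ha hb).toLinearEquiv.finrank_eq
  rw [Module.finrank_prod, Module.finrank_prod, Module.finrank_self] at h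
  omega

/-- A local chart: an inverse `g` of `q ↦ (Φ q, h q, P q)` near `p`. -/
theorem exists_chart {Φ h : F → ℝ} {p : F} {a b : F →L[ℝ] ℝ}
    (hΦ : HasStrictFDerivAt Φ a p) (hh : HasStrictFDerivAt h b p)
    (ha : a ≠ 0) (hb : ∃ v, a v = 0 ∧ b v ≠ 0) :
    ∃ g : ℝ × ℝ × kerTwo a b → F,
      g (Φ p, h p, (kerTwo a b).orthogonalProjectionOnto p) = p ∧
      HasStrictFDerivAt g ((chartEquiv ha hb).symm : ℝ × ℝ × kerTwo a b →L[ℝ] F)
        (Φ p, h p, (kerTwo a b).orthogonalProjectionOnto p) ∧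
      (∀ᶠ z in 𝓝 (Φ p, h p, (kerTwo a b).orthogonalProjectionOnto p),
        Φ (g z) = z.1 ∧ h (g z) = z.2.1 ∧ (kerTwo a b).orthogonalProjectionOnto (g z) = z.2.2) ∧
      (∀ᶠ q in 𝓝 p, g (Φ q, h q, (kerTwo a b).orthogonalProjectionOnto q) = q) := by
  let G : F → ℝ × ℝ × kerTwo a b := fun q => (Φ q, h q, (kerTwo a b).orthogonalProjectionOnto q)
  have hG : HasStrictFDerivAt G (chartEquiv ha hb : F →L[ℝ] ℝ × ℝ × kerTwo a b) p := by
    rw [coe_chartEquiv]
    exact hΦ.prodMk (hh.prodMk (kerTwo a b).orthogonalProjectionOnto.hasStrictFDerivAt)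
  refine ⟨hG.localInverse G _ p, hG.localInverse_apply_image, hG.to_localInverse, ?_, ?_⟩
  · filter_upwards [hG.eventually_right_inverse] with z hz
    exact ⟨congrArg (fun w => w.1) hz, congrArg (fun w => w.2.1) hz, congrArg (fun w => w.2.2) hz⟩
  · exact hG.eventually_left_inverse

/-- Each vector in the kernel is the velocity of a curve in the zero set. -/
theorem exists_curve_aux {Φ h : F → ℝ} {p : F} {a b : F →L[ℝ] ℝ}
    (hΦ : HasStrictFDerivAt Φ a p) (hh : HasStrictFDerivAt h b p)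
    (ha : a ≠ 0) (hb : ∃ v, a v = 0 ∧ b v ≠ 0) (hΦp : Φ p = 0) (hhp : h p = 0)
    {v : F} (hv : v ∈ kerTwo a b) :
    ∃ c : ℝ → F, c 0 = p ∧ HasDerivAt c v 0 ∧
      ∀ᶠ s in 𝓝 (0 : ℝ), Φ (c s) = 0 ∧ h (c s) = 0 := by
  obtain ⟨g, h1, h2, h3, -⟩ := exists_chart hΦ hh ha hb
  rw [hΦp, hhp] at h1 h2 h3
  let y : kerTwo a b := (kerTwo a b).orthogonalProjectionOnto p
  let ℓ : ℝ → ℝ × ℝ × kerTwo a b := fun s => (0, 0, y + s • (⟨v, hv⟩ : kerTwo a b))
  have hℓ0 : ℓ 0 = (0, 0, y) := by simp [ℓ]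
  have hℓ : HasDerivAt ℓ (0, 0, (⟨v, hv⟩ : kerTwo a b)) 0 := by
    have h5 : HasDerivAt (fun s : ℝ => y + s • (⟨v, hv⟩ : kerTwo a b)) (⟨v, hv⟩ : kerTwo a b) 0 := by
      simpa using ((hasDerivAt_id (0 : ℝ)).smul_const (⟨v, hv⟩ : kerTwo a b)).const_add y
    exact (hasDerivAt_const (0 : ℝ) (0 : ℝ)).prodMk ((hasDerivAt_const (0 : ℝ) (0 : ℝ)).prodMk h5)
  refine ⟨fun s => g (ℓ s), ?_, ?_, ?_⟩
  · simp only [hℓ0]; exact h1
  · have h6 : HasFDerivAt g ((chartEquiv ha hb).symm : ℝ × ℝ × kerTwo a b →L[ℝ] F) (ℓ 0) := by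
      rw [hℓ0]; exact h2.hasFDerivAt
    have h7 : HasDerivAt (fun s => g (ℓ s))
        ((chartEquiv ha hb).symm (0, 0, (⟨v, hv⟩ : kerTwo a b))) 0 :=
      h6.comp_hasDerivAt (0 : ℝ) hℓ
    have h8 : (chartEquiv ha hb).symm (0, 0, (⟨v, hv⟩ : kerTwo a b)) = v := by
      rw [ContinuousLinearEquiv.symm_apply_eq, chartEquiv_apply]
      have := mem_kerTwo.1 hv
      rw [this.1, this.2]
      congr 2
      exact (proj_of_mem (⟨v, hv⟩ : kerTwo a b)).symm
    rwa [h8] at h7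
  · have h9 : Tendsto ℓ (𝓝 0) (𝓝 (0, 0, y)) := by
      have := hℓ.continuousAt.tendsto
      rwa [hℓ0] at this
    filter_upwards [h9.eventually h3] with s hs
    exact ⟨hs.1, hs.2.1⟩

/-- The projection to the kernel of a neighbourhood of `p` in the zero set is a neighbourhood. -/
theorem image_mem_nhds_aux {Φ h : F → ℝ} {p : F} {a b : F →L[ℝ] ℝ}
    (hΦ : HasStrictFDerivAt Φ a p) (hh : HasStrictFDerivAt h b p)
    (ha : a ≠ 0) (hb : ∃ v, a v = 0 ∧ b v ≠ 0) (hΦp : Φ p = 0) (hhp : h p = 0)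
    {V : Set F} (hV : V ∈ 𝓝 p) :
    (kerTwo a b).orthogonalProjectionOnto '' ({q | Φ q = 0 ∧ h q = 0} ∩ V) ∈
      𝓝 ((kerTwo a b).orthogonalProjectionOnto p) := by
  obtain ⟨g, h1, h2, h3, -⟩ := exists_chart hΦ hh ha hb
  rw [hΦp, hhp] at h1 h2 h3
  have h4 : Tendsto (fun y : kerTwo a b => ((0 : ℝ), (0 : ℝ), y))
      (𝓝 ((kerTwo a b).orthogonalProjectionOnto p))
      (𝓝 (0, 0, (kerTwo a b).orthogonalProjectionOnto p)) := by
    apply Continuous.tendsto'
    · fun_prop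
    · rfl
  have h5 : Tendsto g (𝓝 (0, 0, (kerTwo a b).orthogonalProjectionOnto p)) (𝓝 p) := by
    have := h2.continuousAt.tendsto
    rwa [h1] at this
  filter_upwards [h4.eventually h3, (h5.comp h4).eventually hV] with y hy hyV
  exact ⟨g (0, 0, y), ⟨⟨hy.1, hy.2.1⟩, hyV⟩, hy.2.2⟩

/-- Comparison of a second function vanishing on the zero set with the first one. -/
theorem exists_ratio_aux {Φ h : F → ℝ} {p : F} {a b b' : F →L[ℝ] ℝ} {h' : F → ℝ}
    (hΦ : HasStrictFDerivAt Φ a p) (hh : HasStrictFDerivAt h b p)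
    (hh' : HasStrictFDerivAt h' b' p)
    (ha : a ≠ 0) (hb : ∃ v, a v = 0 ∧ b v ≠ 0) (hΦp : Φ p = 0) (hhp : h p = 0)
    (h0 : ∀ᶠ q in 𝓝 p, Φ q = 0 → h q = 0 → h' q = 0)
    {w : F} (hw1 : a w = 0) (hw2 : b w = 1) (hw3 : ∀ u ∈ kerTwo a b, ⟪w, u⟫ = 0)
    {ε : ℝ} (hε : 0 < ε) :
    ∀ᶠ q in 𝓝 p, Φ q = 0 → |h' q - b' w * h q| ≤ ε * |h q| := by
  obtain ⟨g, h1, h2, h3, h4⟩ := exists_chart hΦ hh ha hb
  rw [hΦp, hhp] at h1 h2 h3
  have h5 : HasStrictFDerivAt (fun z => h' (g z))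
      (b' ∘L ((chartEquiv ha hb).symm : ℝ × ℝ × kerTwo a b →L[ℝ] F))
      (0, 0, (kerTwo a b).orthogonalProjectionOnto p) := by
    have h6 : HasStrictFDerivAt h' b' (g (0, 0, (kerTwo a b).orthogonalProjectionOnto p)) := by
      rw [h1]; exact hh'
    exact h6.comp _ h2
  have hw : (chartEquiv ha hb).symm (0, 1, 0) = w := by
    rw [ContinuousLinearEquiv.symm_apply_eq, chartEquiv_apply, hw1, hw2]
    congr 2
    symm
    rw [Submodule.orthogonalProjectionOnto_eq_zero_iff, Submodule.mem_orthogonal]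
    intro u hu
    rw [real_inner_comm]
    exact hw3 u hu
  have h6 := h5.isLittleO.def hε
  -- the two points `(0, h q, P q)` and `(0, 0, P q)`
  have c1 : Tendsto (fun q : F => ((0 : ℝ), h q, (kerTwo a b).orthogonalProjectionOnto q)) (𝓝 p)
      (𝓝 (0, 0, (kerTwo a b).orthogonalProjectionOnto p)) := by
    have : ContinuousAt (fun q : F => ((0 : ℝ), h q, (kerTwo a b).orthogonalProjectionOnto q)) p :=
      continuousAt_const.prodMk (hh.continuousAt.prodMk
        (kerTwo a b).orthogonalProjectionOnto.continuous.continuousAt)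
    have h7 := this.tendsto
    rwa [hhp] at h7
  have c2 : Tendsto (fun q : F => ((0 : ℝ), (0 : ℝ), (kerTwo a b).orthogonalProjectionOnto q)) (𝓝 p)
      (𝓝 (0, 0, (kerTwo a b).orthogonalProjectionOnto p)) := by
    apply Continuous.tendsto'
    · fun_prop
    · rfl
  have c3 : Tendsto g (𝓝 (0, 0, (kerTwo a b).orthogonalProjectionOnto p)) (𝓝 p) := by
    have := h2.continuousAt.tendsto
    rwa [h1] at this
  have c12 := (c1.prodMk_nhds c2).eventually h6
  filter_upwards [c12, h4, (c3.comp c2).eventually h0, c2.eventually h3] with q hq1 hq2 hq3 hq4 hq0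
  rw [hq0] at hq2
  simp only [Function.comp_apply] at hq3
  have e1 : h' (g (0, 0, (kerTwo a b).orthogonalProjectionOnto q)) = 0 := hq3 hq4.1 hq4.2.1
  rw [hq2, e1] at hq1
  have e2 : ((0 : ℝ), h q, (kerTwo a b).orthogonalProjectionOnto q) -
      ((0 : ℝ), (0 : ℝ), (kerTwo a b).orthogonalProjectionOnto q) = (h q) • (0, 1, 0) := by
    simp
  rw [e2, map_smul, ContinuousLinearMap.comp_apply, ContinuousLinearEquiv.coe_coe, hw] at hq1
  simp only [sub_zero, smul_eq_mul, norm_smul, Real.norm_eq_abs, Prod.norm_mk, norm_zero,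
    abs_one] at hq1
  rw [mul_comm (b' w)]
  convert hq1 using 2
  simp

omit [FiniteDimensional ℝ F] in
/-- Derivatives of functions vanishing on `Γ` kill the tangent vectors. -/
theorem eq_zero_of_mem_tangentSp {G : Type*} [NormedAddCommGroup G] [NormedSpace ℝ G]
    {Γ : Set F} {p : F} {g : F → G} {g' : F →L[ℝ] G} (hg : HasFDerivAt g g' p)
    (h0 : ∀ᶠ q in 𝓝[Γ] p, g q = g p) {v : F} (hv : v ∈ tangentSp Γ p) : g' v = 0 := by
  have h1 : HasFDerivWithinAt g g' Γ p := hg.hasFDerivWithinAt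
  have h2 : HasFDerivWithinAt g (0 : F →L[ℝ] G) Γ p :=
    (hasFDerivWithinAt_const (g p) p Γ).congr_of_eventuallyEq h0 rfl
  have h3 := h1.unique_on h2
  have h4 : tangentSp Γ p ≤ LinearMap.ker (g' : F →ₗ[ℝ] G) := by
    rw [tangentSp, Submodule.span_le]
    intro w hw
    exact h3 hw
  exact h4 hv

omit [FiniteDimensional ℝ F] in
/-- Velocities of curves in `Γ` are tangent. -/
theorem mem_tangentCone_of_curve {Γ : Set F} {p v : F} {c : ℝ → F} (hc : HasDerivAt c v 0)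
    (hc0 : c 0 = p) (hcΓ : ∀ᶠ s in 𝓝 (0 : ℝ), c s ∈ Γ) : v ∈ tangentConeAt ℝ Γ p := by
  refine mem_tangentConeAt_of_seq (𝓝[≠] (0 : ℝ)) (fun s => s⁻¹) (fun s => c s - p) ?_ ?_ ?_
  · have h1 : Tendsto (fun s => c s - p) (𝓝 0) (𝓝 (c 0 - p)) :=
      (hc.continuousAt.tendsto).sub_const p
    rw [hc0, sub_self] at h1
    exact h1.mono_left nhdsWithin_le_nhds
  · filter_upwards [nhdsWithin_le_nhds hcΓ] with s hs
    simpa using hs
  · have h1 := hc.tendsto_slope_zero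
    simpa [hc0] using h1

namespace EuclideanHypersurface

variable (M : EuclideanHypersurface F)

theorem mem_tangent {p v : F} : v ∈ M.tangent p ↔ fderiv ℝ M.Φ p v = 0 := by
  simp [tangent]

theorem hasStrictFDerivAt (p : F) : HasStrictFDerivAt M.Φ (fderiv ℝ M.Φ p) p :=
  M.contDiff.contDiffAt.hasStrictFDerivAt (by simp)

end EuclideanHypersurface

/-- Local data for a hypersurface `Γ` of `M` near the point `p`. -/
structure LocalData (M : EuclideanHypersurface F) (Γ : Set F) (p : F) where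
  U : Set F
  h : F → ℝ
  isOpen : IsOpen U
  mem : p ∈ U
  smooth : ContDiff ℝ ∞ h
  eq : Γ ∩ U = {q | q ∈ M.carrier ∧ h q = 0} ∩ U
  reg : ∀ q ∈ Γ ∩ U, ∃ v ∈ M.tangent q, fderiv ℝ h q v ≠ 0

namespace LocalData

variable {M : EuclideanHypersurface F} {Γ : Set F} {p : F} (D : LocalData M Γ p)

/-- Local data at `p` are local data at nearby points. -/
def move {q : F} (hq : q ∈ D.U) : LocalData M Γ q :=
  { D with mem := hq }

theorem mem_iff {q : F} (hq : q ∈ D.U) : q ∈ Γ ↔ M.Φ q = 0 ∧ D.h q = 0 := by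
  have h := D.eq
  constructor
  · intro h1
    have h2 : q ∈ Γ ∩ D.U := ⟨h1, hq⟩
    rw [h] at h2
    exact h2.1
  · intro h1
    have h2 : q ∈ {q | q ∈ M.carrier ∧ D.h q = 0} ∩ D.U := ⟨h1, hq⟩
    rw [← h] at h2
    exact h2.1

theorem hasStrictFDerivAt_h (q : F) : HasStrictFDerivAt D.h (fderiv ℝ D.h q) q :=
  D.smooth.contDiffAt.hasStrictFDerivAt (by simp)

include D in
theorem fderiv_ne_zero (hp : p ∈ Γ) : fderiv ℝ M.Φ p ≠ 0 :=
  M.regular p ((D.mem_iff D.mem).1 hp).1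

theorem exists_ne (hp : p ∈ Γ) : ∃ v, fderiv ℝ M.Φ p v = 0 ∧ fderiv ℝ D.h p v ≠ 0 := by
  obtain ⟨v, hv, hv'⟩ := D.reg p ⟨hp, D.mem⟩
  exact ⟨v, M.mem_tangent.1 hv, hv'⟩

/-- Each vector in the kernel is the velocity of a curve in `Γ`. -/
theorem exists_curve (hp : p ∈ Γ) {v : F} (hv : v ∈ kerTwo (fderiv ℝ M.Φ p) (fderiv ℝ D.h p)) :
    ∃ c : ℝ → F, c 0 = p ∧ HasDerivAt c v 0 ∧ ∀ᶠ s in 𝓝 (0 : ℝ), c s ∈ Γ := by
  have h0 := (D.mem_iff D.mem).1 hp
  obtain ⟨c, hc0, hc, hcΓ⟩ := exists_curve_aux (M.hasStrictFDerivAt p)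
    (D.hasStrictFDerivAt_h p) (D.fderiv_ne_zero hp) (D.exists_ne hp) h0.1 h0.2 hv
  refine ⟨c, hc0, hc, ?_⟩
  have h1 : Tendsto c (𝓝 0) (𝓝 p) := by
    have := hc.continuousAt.tendsto
    rwa [hc0] at this
  filter_upwards [hcΓ, h1.eventually (D.isOpen.mem_nhds D.mem)] with s hs hsU
  exact (D.mem_iff hsU).2 hs

/-- The tangent space of `Γ` at `p`. -/
theorem tangentSp_eq (hp : p ∈ Γ) :
    tangentSp Γ p = kerTwo (fderiv ℝ M.Φ p) (fderiv ℝ D.h p) := by
  apply le_antisymm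
  · intro v hv
    have hU : D.U ∈ 𝓝 p := D.isOpen.mem_nhds D.mem
    have h0 := (D.mem_iff D.mem).1 hp
    rw [mem_kerTwo]
    constructor
    · refine eq_zero_of_mem_tangentSp (M.hasStrictFDerivAt p).hasFDerivAt ?_ hv
      filter_upwards [self_mem_nhdsWithin, nhdsWithin_le_nhds hU] with q hq hqU
      rw [((D.mem_iff hqU).1 hq).1, h0.1]
    · refine eq_zero_of_mem_tangentSp (D.hasStrictFDerivAt_h p).hasFDerivAt ?_ hv
      filter_upwards [self_mem_nhdsWithin, nhdsWithin_le_nhds hU] with q hq hqU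
      rw [((D.mem_iff hqU).1 hq).2, h0.2]
  · intro v hv
    obtain ⟨c, hc0, hc, hcΓ⟩ := D.exists_curve hp hv
    exact Submodule.subset_span (mem_tangentCone_of_curve hc hc0 hcΓ)

include D in
theorem finrank_tangentSp (hp : p ∈ Γ) : finrank ℝ (tangentSp Γ p) + 2 = finrank ℝ F := by
  rw [D.tangentSp_eq hp]
  exact finrank_kerTwo (D.fderiv_ne_zero hp) (D.exists_ne hp)

include D in
theorem tangentSp_le (hp : p ∈ Γ) : tangentSp Γ p ≤ M.tangent p := by
  rw [D.tangentSp_eq hp]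
  exact inf_le_left

include D in
/-- At a local maximum on `Γ` of a function its differential vanishes on the tangent space. -/
theorem eq_zero_of_localMax (hp : p ∈ Γ) {k : F → ℝ} {k' : F →L[ℝ] ℝ} (hk : HasFDerivAt k k' p)
    (hmax : ∀ q ∈ Γ, k q ≤ k p) {v : F} (hv : v ∈ tangentSp Γ p) : k' v = 0 := by
  rw [D.tangentSp_eq hp] at hv
  obtain ⟨c, hc0, hc, hcΓ⟩ := D.exists_curve hp hv
  have h1 : HasDerivAt (fun s => k (c s)) (k' v) 0 := by
    have h2 : HasFDerivAt k k' (c 0) := by rw [hc0]; exact hk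
    exact h2.comp_hasDerivAt (0 : ℝ) hc
  have h2 : IsLocalMax (fun s => k (c s)) 0 := by
    filter_upwards [hcΓ] with s hs
    rw [hc0]
    exact hmax _ hs
  exact h2.hasDerivAt_eq_zero h1

include D in
/-- The projection of a neighbourhood of `p` in `Γ` to the tangent space is a neighbourhood. -/
theorem image_mem_nhds (hp : p ∈ Γ) {V : Set F} (hV : V ∈ 𝓝 p) :
    (tangentSp Γ p).orthogonalProjectionOnto '' (Γ ∩ V) ∈
      𝓝 ((tangentSp Γ p).orthogonalProjectionOnto p) := by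
  rw [D.tangentSp_eq hp]
  have h0 := (D.mem_iff D.mem).1 hp
  have h1 := image_mem_nhds_aux (M.hasStrictFDerivAt p)
    (D.hasStrictFDerivAt_h p) (D.fderiv_ne_zero hp) (D.exists_ne hp) h0.1 h0.2
    (Filter.inter_mem hV (D.isOpen.mem_nhds D.mem))
  refine Filter.mem_of_superset h1 (image_mono ?_)
  rintro q ⟨hq, hqV, hqU⟩
  exact ⟨(D.mem_iff hqU).2 hq, hqV⟩

end LocalData

namespace EuclideanHypersurface.IsHypersurface

variable {M : EuclideanHypersurface F} {Γ : Set F}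

/-- Choice of local data. -/
noncomputable def localData (hΓ : M.IsHypersurface Γ) (p : F) (hp : p ∈ Γ) : LocalData M Γ p :=
  let U := (hΓ.locally_zero_set p hp).choose
  let hU := (hΓ.locally_zero_set p hp).choose_spec
  { U := U
    h := hU.choose
    isOpen := hU.choose_spec.1
    mem := hU.choose_spec.2.1
    smooth := hU.choose_spec.2.2.1
    eq := hU.choose_spec.2.2.2.1
    reg := hU.choose_spec.2.2.2.2 }

end EuclideanHypersurface.IsHypersurface

end Pool.Agent.H48.IndexOne
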