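import Pool.Agent.H48.IndexOne.Geometry

/-!
# The main argument
-/

open MeasureTheory Set Topology Filter Module
open scoped ContDiff RealInnerProductSpace Gradient NNReal

namespace Pool.Agent.H48.IndexOne

variable {F : Type*} [NormedAddCommGroup F] [InnerProductSpace ℝ F] [FiniteDimensional ℝ F]

theorem exists_cutoff {K : Set F} (hK : IsCompact K) :
    ∃ χ : F → ℝ, ContDiff ℝ ∞ χ ∧ HasCompactSupport χ ∧ ∀ p ∈ K, ∀ᶠ q in 𝓝 p, χ q = 1 := by
  obtain ⟨R, hR0, hR⟩ : ∃ R : ℝ, 0 < R ∧ K ⊆ Metric.ball 0 R := by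
    obtain ⟨R, hR⟩ := hK.isBounded.subset_ball (0 : F)
    exact ⟨max R 1, by positivity, hR.trans (Metric.ball_subset_ball (le_max_left _ _))⟩
  let f : ContDiffBump (0 : F) := ⟨R, R + 1, hR0, by linarith⟩
  refine ⟨f, f.contDiff, f.hasCompactSupport, ?_⟩
  intro p hp
  filter_upwards [Metric.isOpen_ball.mem_nhds (hR hp)] with q hq
  exact f.one_of_mem_closedBall (Metric.ball_subset_closedBall hq)

variable [MeasurableSpace F] [BorelSpace F]

namespace EuclideanHypersurface

variable {M : EuclideanHypersurface F} {Γ : Set F} {n : ℕ}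

theorem divAlong_congr {X X' : F → F} {p : F} (h : X =ᶠ[𝓝 p] X') :
    divAlong Γ X p = divAlong Γ X' p := by
  unfold divAlong
  rw [h.fderiv_eq]

theorem IsMinimal.integral_eq_zero (hMc : IsCompact M.carrier) (hΓ : M.IsHypersurface Γ)
    (hmin : M.IsMinimal n Γ) {X : F → F} (hX : ContDiff ℝ ∞ X)
    (hXt : ∀ p ∈ M.carrier, X p ∈ M.tangent p) : ∫ p in Γ, divAlong Γ X p ∂μHE[n] = 0 := by
  obtain ⟨χ, hχ, hχc, hχ1⟩ := exists_cutoff hMc
  have h1 := hmin (fun p => χ p • X p) (hχ.smul hX) (hχc.smul_right)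
    (fun p hp => Submodule.smul_mem _ _ (hXt p hp))
  rw [← h1]
  refine setIntegral_congr_fun hΓ.isClosed.measurableSet (fun p hp => ?_)
  apply divAlong_congr
  filter_upwards [hχ1 p (hΓ.subset hp)] with q hq
  rw [hq, one_smul]

end EuclideanHypersurface

/-- `|grad_Γ t| ^ 2` -/
noncomputable def tau (Γ : Set F) (e p : F) : ℝ := ‖(tangentSp Γ p).starProjection e‖ ^ 2

/-- minus the conformal factor -/
noncomputable def ww (e : F) (T : ℝ) (p : F) : ℝ := bet1 T ⟪e, p⟫ / Real.sqrt (N2 e T p)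

section sausage

variable {e : F} (he : ‖e‖ = 1) {T : ℝ} (hT : 0 ≤ T) (hF : 2 < finrank ℝ F) {n : ℕ}
  (hn : finrank ℝ F = n + 2) {Γ : Set F}

include he hT in
theorem continuous_ww : Continuous (ww e T) := by
  unfold ww
  refine Continuous.div ?_ ?_ ?_
  · exact (contDiff_bet1 T).continuous.comp (contDiff_inner_e e).continuous
  · exact (contDiff_N2 e T).continuous.sqrt
  · intro p
    exact (Real.sqrt_pos.2 (N2_pos he hT p)).ne'

omit [FiniteDimensional ℝ F] [MeasurableSpace F] [BorelSpace F] in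
theorem ww_of_abs_le {p : F} (h : |⟪e, p⟫| ≤ T) : ww e T p = 0 := by
  unfold ww; rw [bet1_of_abs_le h, zero_div]

omit [FiniteDimensional ℝ F] [MeasurableSpace F] [BorelSpace F] in
include he hT in
theorem ww_pos {p : F} (h : T < ⟪e, p⟫) : 0 < ww e T p :=
  div_pos (bet1_pos hT h) (Real.sqrt_pos.2 (N2_pos he hT p))

omit [FiniteDimensional ℝ F] [MeasurableSpace F] [BorelSpace F] in
include he hT in
theorem ww_neg {p : F} (h : ⟪e, p⟫ < -T) : ww e T p < 0 :=
  div_neg_of_neg_of_pos (bet1_neg hT h) (Real.sqrt_pos.2 (N2_pos he hT p))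

omit [FiniteDimensional ℝ F] [MeasurableSpace F] [BorelSpace F] in
include he hT in
theorem abs_le_of_ww {p : F} (h : ww e T p = 0) : |⟪e, p⟫| ≤ T := by
  rw [abs_le]
  constructor
  · by_contra hcon
    have := ww_neg he hT (not_le.1 hcon)
    linarith
  · by_contra hcon
    have := ww_pos he hT (not_le.1 hcon)
    linarith

theorem isCompact_sausage : IsCompact (sausage he hT hF).carrier := isCompact_zeroSet he T

theorem continuousOn_tau (hΓ : (sausage he hT hF).IsHypersurface Γ) {ν : F → F}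
    (hνc : ContinuousOn ν Γ)
    (hν : ∀ p ∈ Γ, ν p ∈ (sausage he hT hF).normalSp Γ p ∧ ‖ν p‖ = 1) :
    ContinuousOn (tau Γ e) Γ := by
  unfold tau
  exact ((hΓ.continuousOn_starProjection hνc hν).clm_apply continuousOn_const).norm.pow 2

include hn in
/-- The first variation for the fields `h(t) Y`. -/
theorem flux (hΓ : (sausage he hT hF).IsHypersurface Γ) (hmin : (sausage he hT hF).IsMinimal n Γ)
    {h h' : ℝ → ℝ} (hh : ContDiff ℝ ∞ h) (hd : ∀ s, HasDerivAt h (h' s) s)
    (h0 : ∀ s, T ≤ |s| → h' s = 0) :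
    ∫ p in Γ, (h' ⟪e, p⟫ * tau Γ e p - n * (h ⟪e, p⟫ * ww e T p)) ∂μHE[n] = 0 := by
  have h1 := hmin.integral_eq_zero (isCompact_sausage he hT hF) hΓ
    (X := fun p => h ⟪e, p⟫ • Yf e T p)
    ((hh.comp (contDiff_inner_e e)).smul (contDiff_Yf he hT))
    (fun p hp => Submodule.smul_mem _ _
      ((sausage he hT hF).mem_tangent.2 (Yf_tangent he p)))
  rw [← h1]
  refine setIntegral_congr_fun hΓ.isClosed.measurableSet (fun p hp => ?_)
  have hp0 : Phi e T p = 0 := hΓ.phi_eq_zero hp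
  have hD : HasFDerivAt (fun p => h ⟪e, p⟫ • Yf e T p)
      (h ⟪e, p⟫ • fderiv ℝ (Yf e T) p + (h' ⟪e, p⟫ • innerSL ℝ e).smulRight (Yf e T p)) p := by
    have h2 : HasFDerivAt (fun p : F => h ⟪e, p⟫) (h' ⟪e, p⟫ • innerSL ℝ e) p :=
      (hd ⟪e, p⟫).comp_hasFDerivAt p (hasFDerivAt_inner_e e p)
    exact h2.smul ((contDiff_Yf he hT).differentiable (by simp) p).hasFDerivAt
  change _ = EuclideanHypersurface.divAlong Γ (fun p => h ⟪e, p⟫ • Yf e T p) p
  unfold EuclideanHypersurface.divAlong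
  rw [hD.fderiv]
  have hq : ∀ v ∈ tangentSp Γ p,
      ⟪v, (h ⟪e, p⟫ • fderiv ℝ (Yf e T) p + (h' ⟪e, p⟫ • innerSL ℝ e).smulRight (Yf e T p)) v⟫ =
        h' ⟪e, p⟫ * ⟪e, v⟫ ^ 2 + (-(h ⟪e, p⟫ * ww e T p)) * ‖v‖ ^ 2 := by
    intro v hv
    have hv' : fderiv ℝ (Phi e T) p v = 0 :=
      (sausage he hT hF).mem_tangent.1 ((hΓ.localData p hp).tangentSp_le hp hv)
    simp only [add_apply, smul_apply, ContinuousLinearMap.smulRight_apply, innerSL_apply_apply,
      inner_add_right, real_inner_smul_right, smul_eq_mul]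
    rw [inner_fderiv_Yf he hT hp0 hv']
    rcases le_or_gt T |⟪e, p⟫| with hc | hc
    · rw [h0 _ hc]
      unfold ww
      ring
    · rw [Yf_of_abs_le hp0 hc.le, real_inner_comm e v]
      unfold ww
      ring
  rw [trace_of_quadratic hq]
  have hfin : finrank ℝ (tangentSp Γ p) = n := by
    have := hΓ.finrank_tangentSp hp
    omega
  rw [hfin]
  unfold tau
  ring

include hn in
/-- The flux identity. -/
theorem flux2 (hΓ : (sausage he hT hF).IsHypersurface Γ) (hfin : μHE[n] Γ ≠ ⊤)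
    (hmin : (sausage he hT hF).IsMinimal n Γ)
    (htau : ContinuousOn (tau Γ e) Γ)
    {g : ℝ → ℝ} (hg : ContDiff ℝ ∞ g) (h0 : ∀ s, T ≤ |s| → g s = 0) :
    ∫ p in Γ, g ⟪e, p⟫ * tau Γ e p ∂μHE[n] =
      (∫ s in (-T)..T, g s) * (n * ∫ p in Γ, max (ww e T p) 0 ∂μHE[n]) := by
  let h : ℝ → ℝ := fun x => ∫ s in (-T)..x, g s
  have hd : ∀ s, HasDerivAt h (g s) s := fun s =>
    (hg.continuous.integral_hasStrictDerivAt (-T) s).hasDerivAt
  have hh : ContDiff ℝ ∞ h := by
    rw [contDiff_infty_iff_deriv]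
    refine ⟨fun x => (hd x).differentiableAt, ?_⟩
    have : deriv h = g := funext (fun x => (hd x).deriv)
    rw [this]
    exact hg
  have h1 := flux he hT hF hn hΓ hmin hh hd h0
  have hlow : ∀ x ≤ -T, h x = 0 := by
    intro x hx
    simp only [h]
    rw [intervalIntegral.integral_congr (g := fun _ => (0 : ℝ))]
    · simp
    · intro s hs
      rw [uIcc_of_ge hx] at hs
      exact h0 s (le_abs.2 (Or.inr (by linarith [hs.2])))
  have hhigh : ∀ x, T ≤ x → h x = ∫ s in (-T)..T, g s := by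
    intro x hx
    simp only [h]
    rw [← intervalIntegral.integral_add_adjacent_intervals
      (hg.continuous.intervalIntegrable (-T) T) (hg.continuous.intervalIntegrable T x)]
    have : ∫ s in T..x, g s = 0 := by
      rw [intervalIntegral.integral_congr (g := fun _ => (0 : ℝ))]
      · simp
      · intro s hs
        rw [uIcc_of_le hx] at hs
        exact h0 s (le_abs.2 (Or.inl hs.1))
    rw [this, add_zero]
  have hww : ∀ p : F, h ⟪e, p⟫ * ww e T p = (∫ s in (-T)..T, g s) * max (ww e T p) 0 := by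
    intro p
    rcases le_or_gt |⟪e, p⟫| T with hc | hc
    · rw [ww_of_abs_le hc]; simp
    · rcases lt_abs.1 hc with hc | hc
      · rw [hhigh _ hc.le, max_eq_left (ww_pos he hT hc).le]
      · rw [hlow _ (by linarith), max_eq_right (ww_neg he hT (by linarith)).le]
        ring
  have hMc := isCompact_sausage he hT hF
  have i1 : IntegrableOn (fun p => g ⟪e, p⟫ * tau Γ e p) Γ μHE[n] :=
    hΓ.integrableOn hMc hfin
      ((hg.continuous.comp (contDiff_inner_e e).continuous).continuousOn.mul htau)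
  have i2 : IntegrableOn (fun p => n * ((∫ s in (-T)..T, g s) * max (ww e T p) 0)) Γ μHE[n] :=
    hΓ.integrableOn hMc hfin
      (continuous_const.mul (continuous_const.mul
        ((continuous_ww he hT).max continuous_const))).continuousOn
  have h2 : ∫ p in Γ, (g ⟪e, p⟫ * tau Γ e p -
      n * ((∫ s in (-T)..T, g s) * max (ww e T p) 0)) ∂μHE[n] = 0 := by
    refine Eq.trans (setIntegral_congr_fun hΓ.isClosed.measurableSet (fun p hp => ?_)) h1
    change _ - _ = _ - _
    rw [hww p]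
  rw [integral_sub i1 i2] at h2
  rw [sub_eq_zero.1 h2, integral_const_mul, integral_const_mul]
  ring

include hn in
theorem integral_ww (hn1 : 1 ≤ n) (hΓ : (sausage he hT hF).IsHypersurface Γ)
    (hmin : (sausage he hT hF).IsMinimal n Γ) :
    ∫ p in Γ, ww e T p ∂μHE[n] = 0 := by
  have h1 := flux he hT hF hn hΓ hmin (h := fun _ => 1) (h' := fun _ => 0) contDiff_const
    (fun s => hasDerivAt_const s 1) (fun _ _ => rfl)
  have h2 : ∫ p in Γ, (-(n : ℝ)) * ww e T p ∂μHE[n] = 0 := by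
    rw [← h1]
    refine setIntegral_congr_fun hΓ.isClosed.measurableSet (fun p hp => ?_)
    change -(n : ℝ) * ww e T p = 0 * _ - n * (1 * ww e T p)
    ring
  rw [integral_const_mul] at h2
  have hn' : (-(n : ℝ)) ≠ 0 := by
    have : (0 : ℝ) < n := by exact_mod_cast hn1
    linarith
  exact (mul_eq_zero.1 h2).resolve_left hn'

include hn in
/-- If the flux vanishes then the second variation is nonnegative. -/
theorem secondVariation_nonneg (hn1 : 1 ≤ n) (hΓ : (sausage he hT hF).IsHypersurface Γ)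
    (hfin : μHE[n] Γ ≠ ⊤) (hmin : (sausage he hT hF).IsMinimal n Γ)
    (htau : ContinuousOn (tau Γ e) Γ)
    (hflux : ∫ p in Γ, max (ww e T p) 0 ∂μHE[n] = 0) {X : F → F} (hX : ContDiff ℝ ∞ X)
    (hXn : ∀ p ∈ Γ, X p ∈ (sausage he hT hF).normalSp Γ p) :
    0 ≤ (sausage he hT hF).secondVariation n Γ X := by
  have hMc := isCompact_sausage he hT hF
  have w1 : ∀ p ∈ Γ, max (ww e T p) 0 = 0 :=
    hΓ.eq_zero_of_integral_eq_zero hMc hn hfin
      ((continuous_ww he hT).max continuous_const).continuousOn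
      (fun p _ => le_max_right _ _) hflux
  have w2 : ∀ p ∈ Γ, ww e T p ≤ 0 := fun p hp => max_eq_right_iff.1 (w1 p hp)
  have w3 : ∀ p ∈ Γ, -ww e T p = 0 := by
    refine hΓ.eq_zero_of_integral_eq_zero hMc hn hfin (continuous_ww he hT).neg.continuousOn
      (fun p hp => by linarith [w2 p hp]) ?_
    rw [integral_neg, integral_ww he hT hF hn hn1 hΓ hmin, neg_zero]
  have habs : ∀ p ∈ Γ, |⟪e, p⟫| ≤ T := fun p hp =>
    abs_le_of_ww he hT (by linarith [w3 p hp])
  -- `tau` vanishes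
  have ht0 : ∀ p ∈ Γ, plateau T ⟪e, p⟫ * tau Γ e p = 0 := by
    refine hΓ.eq_zero_of_integral_eq_zero hMc hn hfin
      (((contDiff_plateau T).continuous.comp (contDiff_inner_e e).continuous).continuousOn.mul
        htau) (fun p _ => mul_nonneg (plateau_nonneg _ _) (sq_nonneg _)) ?_
    rw [flux2 he hT hF hn hΓ hfin hmin htau (contDiff_plateau T) (fun s hs => plateau_of_le hs),
      hflux, mul_zero, mul_zero]
  have hperp : ∀ p ∈ Γ, ∀ v ∈ tangentSp Γ p, ⟪e, v⟫ = 0 := by
    intro p hp v hv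
    rcases (habs p hp).lt_or_eq with hlt | heq
    · have h1 := (mul_eq_zero.1 (ht0 p hp)).resolve_left (plateau_pos hlt).ne'
      unfold tau at h1
      have h2 : (tangentSp Γ p).starProjection e = 0 := norm_eq_zero.1 (pow_eq_zero_iff (by norm_num) |>.1 h1)
      rw [Submodule.starProjection_apply_eq_zero_iff, Submodule.mem_orthogonal'] at h2
      exact h2 v hv
    · have hD := hΓ.localData p hp
      rcases (abs_eq hT).1 heq with h1 | h1
      · have := hD.eq_zero_of_localMax hp (hasFDerivAt_inner_e e p)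
          (fun q hq => by rw [h1]; exact (abs_le.1 (habs q hq)).2) hv
        simpa using this
      · have := hD.eq_zero_of_localMax hp (hasFDerivAt_inner_e e p).neg
          (fun q hq => by
            have := (abs_le.1 (habs q hq)).1
            change -⟪e, q⟫ ≤ -⟪e, p⟫
            rw [h1]
            linarith) hv
        simpa using this
  unfold EuclideanHypersurface.secondVariation
  refine setIntegral_nonneg hΓ.isClosed.measurableSet (fun p hp => ?_)
  have hp0 : Phi e T p = 0 := hΓ.phi_eq_zero hp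
  have hen : e ∈ (sausage he hT hF).normalSp Γ p := by
    refine Submodule.mem_inf.2 ⟨?_, ?_⟩
    · rw [(sausage he hT hF).mem_tangent]
      change fderiv ℝ (Phi e T) p e = 0
      rw [(hasFDerivAt_Phi e T p).fderiv, innerSL_apply_apply, bet1_of_abs_le (habs p hp),
        zero_smul, add_zero, real_inner_smul_left, real_inner_comm, inner_yy he, mul_zero]
    · rw [Submodule.mem_orthogonal']
      exact hperp p hp
  have hPe : (tangentSp Γ p).starProjection e = 0 := by
    rw [Submodule.starProjection_apply_eq_zero_iff]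
    exact (Submodule.mem_inf.1 hen).2
  have hXe : ∀ q ∈ Γ, X q = ⟪e, X q⟫ • e := by
    intro q hq
    have hq0 : Phi e T q = 0 := hΓ.phi_eq_zero hq
    refine hΓ.eq_inner_smul_of_mem_normalSp hq ?_ he (hXn q hq)
    refine Submodule.mem_inf.2 ⟨?_, ?_⟩
    · rw [(sausage he hT hF).mem_tangent]
      change fderiv ℝ (Phi e T) q e = 0
      rw [(hasFDerivAt_Phi e T q).fderiv, innerSL_apply_apply, bet1_of_abs_le (habs q hq),
        zero_smul, add_zero, real_inner_smul_left, real_inner_comm, inner_yy he, mul_zero]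
    · rw [Submodule.mem_orthogonal']
      exact hperp q hq
  -- the tangential part of the derivative vanishes
  have hz : (tangentSp Γ p).starProjection ∘L fderiv ℝ X p ∘L (tangentSp Γ p).starProjection
      = 0 := by
    ext v
    simp only [ContinuousLinearMap.comp_apply, zero_apply]
    set w := (tangentSp Γ p).starProjection v with hw
    have hwm : w ∈ tangentSp Γ p := Submodule.starProjection_apply_mem _ _
    have hXd : HasFDerivAt X (fderiv ℝ X p) p :=
      (hX.differentiable (by simp) p).hasFDerivAt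
    have hg : HasFDerivAt (fun q => X q - ⟪e, X q⟫ • e)
        (fderiv ℝ X p - ((innerSL ℝ e).comp (fderiv ℝ X p)).smulRight e) p :=
      hXd.sub (((innerSL ℝ e).hasFDerivAt.comp p hXd).smul_const e)
    have h1 := eq_zero_of_mem_tangentSp hg (by
      filter_upwards [self_mem_nhdsWithin] with q hq
      rw [sub_eq_zero.2 (hXe q hq), sub_eq_zero.2 (hXe p hp)]) hwm
    simp only [sub_apply, ContinuousLinearMap.smulRight_apply, ContinuousLinearMap.comp_apply,
      innerSL_apply_apply] at h1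
    rw [sub_eq_zero.1 h1, map_smul, hPe, smul_zero]
  have hric : (sausage he hT hF).ricci p (X p) = 0 := by
    unfold EuclideanHypersurface.ricci
    rw [hXe p hp, map_smul, shape_e he hT hF hp0 (habs p hp)]
    simp
  rw [hz, hsSq_zero, hric, sub_zero, sub_zero]
  exact hsSq_nonneg _

include hn in
/-- The integrand of the second variation at `ψ(t) ν`. -/
theorem integrand_eq (hΓ : (sausage he hT hF).IsHypersurface Γ) {ν : F → F}
    (hνs : ContDiff ℝ ∞ ν)
    (hν : ∀ p ∈ Γ, ν p ∈ (sausage he hT hF).normalSp Γ p ∧ ‖ν p‖ = 1) {ψ ψ' : ℝ → ℝ}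
    (hd : ∀ s, HasDerivAt ψ (ψ' s) s) (h0 : ∀ s, T ≤ |s| → ψ s = 0) {X : F → F} {p : F}
    (hp : p ∈ Γ) (hX : X =ᶠ[𝓝 p] fun q => ψ ⟪e, q⟫ • ν q) :
    hsSq (((sausage he hT hF).normalSp Γ p).starProjection ∘L fderiv ℝ X p ∘L
        (tangentSp Γ p).starProjection)
      - hsSq ((tangentSp Γ p).starProjection ∘L fderiv ℝ X p ∘L (tangentSp Γ p).starProjection)
      - (sausage he hT hF).ricci p (X p) =
    ψ' ⟪e, p⟫ ^ 2 * tau Γ e p -
      ψ ⟪e, p⟫ ^ 2 * hsSq ((tangentSp Γ p).starProjection ∘L fderiv ℝ ν p ∘L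
        (tangentSp Γ p).starProjection) - (n - 1) * (ψ ⟪e, p⟫ ^ 2 * tau Γ e p) := by
  have hp0 : Phi e T p = 0 := hΓ.phi_eq_zero hp
  obtain ⟨hνn, hν1⟩ := hν p hp
  have hνd : HasFDerivAt ν (fderiv ℝ ν p) p := (hνs.differentiable (by simp) p).hasFDerivAt
  have hD : HasFDerivAt (fun q => ψ ⟪e, q⟫ • ν q)
      (ψ ⟪e, p⟫ • fderiv ℝ ν p + (ψ' ⟪e, p⟫ • innerSL ℝ e).smulRight (ν p)) p := by
    have h2 : HasFDerivAt (fun p : F => ψ ⟪e, p⟫) (ψ' ⟪e, p⟫ • innerSL ℝ e) p :=
      (hd ⟪e, p⟫).comp_hasFDerivAt p (hasFDerivAt_inner_e e p)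
    exact h2.smul hνd
  rw [hX.fderiv_eq, hX.eq_of_nhds, hD.fderiv]
  -- `⟨ν, D_w ν⟩ = 0` for tangential `w`
  have hνν : ∀ w ∈ tangentSp Γ p, ⟪ν p, fderiv ℝ ν p w⟫ = 0 := by
    intro w hw
    have h1 := eq_zero_of_mem_tangentSp hνd.norm_sq (by
      filter_upwards [self_mem_nhdsWithin] with q hq
      rw [(hν q hq).2, hν1]) hw
    simp only [smul_apply, ContinuousLinearMap.comp_apply, innerSL_apply_apply,
      nsmul_eq_mul] at h1
    push_cast at h1
    linarith
  have hPν : (tangentSp Γ p).starProjection (ν p) = 0 := by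
    rw [Submodule.starProjection_apply_eq_zero_iff]
    exact (Submodule.mem_inf.1 hνn).2
  have e1 : ((sausage he hT hF).normalSp Γ p).starProjection ∘L
      (ψ ⟪e, p⟫ • fderiv ℝ ν p + (ψ' ⟪e, p⟫ • innerSL ℝ e).smulRight (ν p)) ∘L
        (tangentSp Γ p).starProjection =
      ψ' ⟪e, p⟫ • (innerSL ℝ ((tangentSp Γ p).starProjection e)).smulRight (ν p) := by
    ext v
    simp only [ContinuousLinearMap.comp_apply, add_apply, smul_apply,
      ContinuousLinearMap.smulRight_apply, innerSL_apply_apply]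
    rw [hΓ.starProjection_normalSp hp hνn hν1, inner_add_right, real_inner_smul_right,
      hνν _ (Submodule.starProjection_apply_mem _ _), mul_zero, zero_add, real_inner_smul_right,
      real_inner_self_eq_norm_sq, hν1, ← Submodule.inner_starProjection_left_eq_right,
      smul_smul, smul_eq_mul]
    ring_nf
  have e2 : (tangentSp Γ p).starProjection ∘L
      (ψ ⟪e, p⟫ • fderiv ℝ ν p + (ψ' ⟪e, p⟫ • innerSL ℝ e).smulRight (ν p)) ∘L
        (tangentSp Γ p).starProjection =
      ψ ⟪e, p⟫ • ((tangentSp Γ p).starProjection ∘L fderiv ℝ ν p ∘L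
        (tangentSp Γ p).starProjection) := by
    ext v
    simp only [ContinuousLinearMap.comp_apply, add_apply, smul_apply,
      ContinuousLinearMap.smulRight_apply, map_add, map_smul, hPν, smul_zero, add_zero]
  rw [e1, e2, hsSq_smul, hsSq_smul, hsSq_rankOne, hν1]
  have e3 : (sausage he hT hF).ricci p (ψ ⟪e, p⟫ • ν p) =
      (n - 1) * (ψ ⟪e, p⟫ ^ 2 * tau Γ e p) := by
    rcases le_or_gt T |⟪e, p⟫| with hc | hc
    · rw [h0 _ hc, zero_smul]
      unfold EuclideanHypersurface.ricci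
      simp
    · have hun := sausage_unitNormal_of_abs_le he hT hF hp0 hc.le
      have h1 : ⟪yy e p, ν p⟫ = 0 := by
        rw [← hun]
        exact hΓ.inner_unitNormal_normal hp hνn
      have h2 : ⟪yy e p, ψ ⟪e, p⟫ • ν p⟫ = 0 := by
        rw [real_inner_smul_right, h1, mul_zero]
      rw [ricci_of_abs_le he hT hF hp0 hc.le h2]
      have h3 : tau Γ e p = 1 - ⟪e, ν p⟫ ^ 2 := by
        unfold tau
        rw [hΓ.starProjection_tangentSp hp hνn hν1, hun, real_inner_comm e (yy e p),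
          inner_yy he, zero_smul, sub_zero, norm_sub_sq_real, norm_smul, he, hν1,
          real_inner_smul_right, real_inner_comm e (ν p), Real.norm_eq_abs, mul_pow, sq_abs]
        ring
      rw [h3, norm_smul, hν1, real_inner_smul_right, Real.norm_eq_abs, mul_one, sq_abs, hn]
      push_cast
      ring
  rw [e3]
  unfold tau
  ring

include hn in
theorem index_at_least_two (hn2 : 2 ≤ n) (hΓ : (sausage he hT hF).IsHypersurface Γ)
    (hfin : μHE[n] Γ ≠ ⊤) (hmin : (sausage he hT hF).IsMinimal n Γ) {ν : F → F}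
    (hνs : ContDiff ℝ ∞ ν)
    (hν : ∀ p ∈ Γ, ν p ∈ (sausage he hT hF).normalSp Γ p ∧ ‖ν p‖ = 1)
    (hflux : 0 < ∫ p in Γ, max (ww e T p) 0 ∂μHE[n])
    {ψ ψ' : Fin 2 → ℝ → ℝ} (hψ : ∀ i, ContDiff ℝ ∞ (ψ i)) (hψ' : ∀ i, ContDiff ℝ ∞ (ψ' i))
    (hd : ∀ i s, HasDerivAt (ψ i) (ψ' i s) s)
    (h0 : ∀ i s, T ≤ |s| → ψ i s = 0 ∧ ψ' i s = 0)
    (hdisj : ∀ s, ψ 0 s * ψ 1 s = 0 ∧ ψ' 0 s * ψ' 1 s = 0)
    (hneg : ∀ i, ∫ s in (-T)..T, ((ψ' i s) ^ 2 - (ψ i s) ^ 2) < 0) :
    (sausage he hT hF).IndexAtLeast n Γ 2 := by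
  have hMc := isCompact_sausage he hT hF
  obtain ⟨χ, hχ, hχc, hχ1⟩ := exists_cutoff hMc
  have htau := continuousOn_tau he hT hF hΓ hνs.continuous.continuousOn hν
  refine ⟨fun i p => χ p • (ψ i ⟪e, p⟫ • ν p), ?_, ?_⟩
  · intro i
    refine ⟨hχ.smul (((hψ i).comp (contDiff_inner_e e)).smul hνs), hχc.smul_right, ?_⟩
    intro p hp
    exact Submodule.smul_mem _ _ (Submodule.smul_mem _ _ (hν p hp).1)
  · intro c hc
    -- the combined function
    let Ψ : ℝ → ℝ := fun s => ∑ i, c i * ψ i s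
    let Ψ' : ℝ → ℝ := fun s => ∑ i, c i * ψ' i s
    have hΨd : ∀ s, HasDerivAt Ψ (Ψ' s) s := by
      intro s
      have := HasDerivAt.fun_sum (u := Finset.univ) (fun i _ => (hd i s).const_mul (c i))
      exact this
    have hΨ0 : ∀ s, T ≤ |s| → Ψ s = 0 := by
      intro s hs
      simp only [Ψ]
      exact Finset.sum_eq_zero (fun i _ => by rw [(h0 i s hs).1, mul_zero])
    have hΨs : ContDiff ℝ ∞ Ψ := ContDiff.sum (fun i _ => contDiff_const.mul (hψ i))
    have hΨs' : ContDiff ℝ ∞ Ψ' := ContDiff.sum (fun i _ => contDiff_const.mul (hψ' i))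
    have hX : ∀ p ∈ Γ, (fun q => ∑ i, c i • (χ q • (ψ i ⟪e, q⟫ • ν q))) =ᶠ[𝓝 p]
        fun q => Ψ ⟪e, q⟫ • ν q := by
      intro p hp
      filter_upwards [hχ1 p (hΓ.subset hp)] with q hq
      simp only [hq, one_smul, one_mul, Ψ, Finset.sum_smul, smul_smul]
    have hP := hΓ.continuousOn_starProjection hνs.continuous.continuousOn hν
    have hte : Continuous (fun p : F => ⟪e, p⟫) := (contDiff_inner_e e).continuous
    -- the integrand
    have ha : ContinuousOn (fun p => hsSq ((tangentSp Γ p).starProjection ∘L fderiv ℝ ν p ∘L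
        (tangentSp Γ p).starProjection)) Γ := by
      refine continuous_hsSq.comp_continuousOn (hP.clm_comp (ContinuousOn.clm_comp ?_ hP))
      exact (hνs.continuous_fderiv (by simp)).continuousOn
    have hf : ContinuousOn (fun p => Ψ' ⟪e, p⟫ ^ 2 * tau Γ e p -
      Ψ ⟪e, p⟫ ^ 2 * hsSq ((tangentSp Γ p).starProjection ∘L fderiv ℝ ν p ∘L
        (tangentSp Γ p).starProjection) - (n - 1) * (Ψ ⟪e, p⟫ ^ 2 * tau Γ e p)) Γ := by
      have k1 : ContinuousOn (fun p : F => Ψ' ⟪e, p⟫ ^ 2) Γ :=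
        ((hΨs'.continuous.comp hte).pow 2).continuousOn
      have k2 : ContinuousOn (fun p : F => Ψ ⟪e, p⟫ ^ 2) Γ :=
        ((hΨs.continuous.comp hte).pow 2).continuousOn
      exact ((k1.mul htau).sub (k2.mul ha)).sub (continuousOn_const.mul (k2.mul htau))
    have hg : ContinuousOn (fun p => (Ψ' ⟪e, p⟫ ^ 2 - Ψ ⟪e, p⟫ ^ 2) * tau Γ e p) Γ := by
      have k1 : ContinuousOn (fun p : F => Ψ' ⟪e, p⟫ ^ 2) Γ :=
        ((hΨs'.continuous.comp hte).pow 2).continuousOn
      have k2 : ContinuousOn (fun p : F => Ψ ⟪e, p⟫ ^ 2) Γ :=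
        ((hΨs.continuous.comp hte).pow 2).continuousOn
      exact (k1.sub k2).mul htau
    have h1 : (sausage he hT hF).secondVariation n Γ
        (fun p => ∑ i, c i • (χ p • (ψ i ⟪e, p⟫ • ν p))) =
        ∫ p in Γ, (Ψ' ⟪e, p⟫ ^ 2 * tau Γ e p -
      Ψ ⟪e, p⟫ ^ 2 * hsSq ((tangentSp Γ p).starProjection ∘L fderiv ℝ ν p ∘L
        (tangentSp Γ p).starProjection) - (n - 1) * (Ψ ⟪e, p⟫ ^ 2 * tau Γ e p)) ∂μHE[n] := by
      unfold EuclideanHypersurface.secondVariation
      refine setIntegral_congr_fun hΓ.isClosed.measurableSet (fun p hp => ?_)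
      exact integrand_eq he hT hF hn hΓ hνs hν hΨd hΨ0 hp (hX p hp)
    have h2 : ∫ p in Γ, (Ψ' ⟪e, p⟫ ^ 2 * tau Γ e p -
      Ψ ⟪e, p⟫ ^ 2 * hsSq ((tangentSp Γ p).starProjection ∘L fderiv ℝ ν p ∘L
        (tangentSp Γ p).starProjection) - (n - 1) * (Ψ ⟪e, p⟫ ^ 2 * tau Γ e p)) ∂μHE[n] ≤
        ∫ p in Γ, (Ψ' ⟪e, p⟫ ^ 2 - Ψ ⟪e, p⟫ ^ 2) * tau Γ e p ∂μHE[n] := by
      refine setIntegral_mono_on (hΓ.integrableOn hMc hfin hf) (hΓ.integrableOn hMc hfin hg)
        hΓ.isClosed.measurableSet (fun p hp => ?_)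
      have q1 : 0 ≤ Ψ ⟪e, p⟫ ^ 2 * hsSq ((tangentSp Γ p).starProjection ∘L fderiv ℝ ν p ∘L
        (tangentSp Γ p).starProjection) := mul_nonneg (sq_nonneg _) (hsSq_nonneg _)
      have q2 : 0 ≤ Ψ ⟪e, p⟫ ^ 2 * tau Γ e p := mul_nonneg (sq_nonneg _) (sq_nonneg _)
      have q3 : (1 : ℝ) ≤ (n : ℝ) - 1 := by
        have : (2 : ℝ) ≤ n := by exact_mod_cast hn2
        linarith
      nlinarith [mul_le_mul_of_nonneg_right q3 q2]
    have h3 := flux2 he hT hF hn hΓ hfin hmin htau (g := fun s => Ψ' s ^ 2 - Ψ s ^ 2)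
      ((hΨs'.pow 2).sub (hΨs.pow 2)) (fun s hs => by
        have : Ψ' s = 0 := by
          simp only [Ψ']
          exact Finset.sum_eq_zero (fun i _ => by rw [(h0 i s hs).2, mul_zero])
        rw [hΨ0 s hs, this]; ring)
    have h4 : ∫ s in (-T)..T, (Ψ' s ^ 2 - Ψ s ^ 2) < 0 := by
      have e1 : ∀ s, Ψ' s ^ 2 - Ψ s ^ 2 =
          c 0 ^ 2 * ((ψ' 0 s) ^ 2 - (ψ 0 s) ^ 2) + c 1 ^ 2 * ((ψ' 1 s) ^ 2 - (ψ 1 s) ^ 2) := by
        intro s
        simp only [Ψ, Ψ', Fin.sum_univ_two]
        have := hdisj s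
        linear_combination (2 * c 0 * c 1) * this.2 - (2 * c 0 * c 1) * this.1
      simp only [e1]
      have j : ∀ i, IntervalIntegrable (fun s => c i ^ 2 * ((ψ' i s) ^ 2 - (ψ i s) ^ 2)) volume
          (-T) T := fun i =>
        (continuous_const.mul (((hψ' i).continuous.pow 2).sub
          ((hψ i).continuous.pow 2))).intervalIntegrable _ _
      rw [intervalIntegral.integral_add (j 0) (j 1), intervalIntegral.integral_const_mul,
        intervalIntegral.integral_const_mul]
      have hc' : c 0 ≠ 0 ∨ c 1 ≠ 0 := by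
        by_contra hcon
        push Not at hcon
        apply hc
        funext i
        fin_cases i
        · exact hcon.1
        · exact hcon.2
      have n0 := hneg 0
      have n1 := hneg 1
      rcases hc' with hc' | hc'
      · have : 0 < c 0 ^ 2 := by positivity
        have a1 := mul_neg_of_pos_of_neg this n0
        have a2 := mul_nonpos_of_nonneg_of_nonpos (sq_nonneg (c 1)) n1.le
        linarith
      · have : 0 < c 1 ^ 2 := by positivity
        have a1 := mul_neg_of_pos_of_neg this n1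
        have a2 := mul_nonpos_of_nonneg_of_nonpos (sq_nonneg (c 0)) n0.le
        linarith
    rw [h1]
    refine lt_of_le_of_lt h2 ?_
    rw [h3]
    refine mul_neg_of_neg_of_pos h4 (mul_pos ?_ hflux)
    have : 0 < n := by omega
    exact_mod_cast this

end sausage

/-- The main theorem for an arbitrary Euclidean space of dimension `n + 2`. -/
theorem main {n : ℕ} (hn2 : 2 ≤ n) (hn : finrank ℝ F = n + 2) :
    ∃ M : EuclideanHypersurface F, IsCompact M.carrier ∧
      (∀ Γ, M.IsHypersurface Γ → M.IsTwoSided Γ) ∧ M.ConditionStar n ∧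
      ∀ Γ, M.IsHypersurface Γ → M.IsMinimal n Γ → μHE[n] Γ ≠ ⊤ → M.morseIndex n Γ ≠ 1 := by
  have hF : 2 < finrank ℝ F := by omega
  have : Nontrivial F := Module.nontrivial_of_finrank_pos (R := ℝ) (by omega)
  obtain ⟨e, he⟩ : ∃ e : F, ‖e‖ = 1 := exists_norm_eq F zero_le_one
  obtain ⟨T, hT, ψ, ψ', hψ, hψ', hd, h0, hdisj, hneg⟩ := exists_test
  have hMc := isCompact_sausage he hT hF
  refine ⟨sausage he hT hF, hMc, ?_, ?_, ?_⟩
  · intro Γ hΓ
    obtain ⟨ν, hνs, hν⟩ := (sausage he hT hF).exists_unit_normal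
      (fun Z => sausage_splits he hT hF Z) hΓ
    refine ⟨ν, hνs.continuous.continuousOn, fun p hp => ⟨(hν p hp).1, ?_⟩⟩
    intro h
    have := (hν p hp).2
    rw [h, norm_zero] at this
    exact zero_ne_one this
  · have hcl : closure (sausage he hT hF).carrier \ (sausage he hT hF).carrier = ∅ := by
      rw [hMc.isClosed.closure_eq, sdiff_self]
    refine ⟨(sausage he hT hF).carrier, (sausage he hT hF).connected.nonempty,
      ⟨univ, isOpen_univ, (inter_univ _).symm⟩, hMc.isBounded, ?_, ?_⟩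
    · intro p hp
      rw [hcl] at hp
      exact hp.elim
    · rw [hcl, measure_empty]
      exact zero_le
  · intro Γ hΓ hmin hfin
    obtain ⟨ν, hνs, hν⟩ := (sausage he hT hF).exists_unit_normal
      (fun Z => sausage_splits he hT hF Z) hΓ
    have htau := continuousOn_tau he hT hF hΓ hνs.continuous.continuousOn hν
    have hnn : 0 ≤ ∫ p in Γ, max (ww e T p) 0 ∂μHE[n] :=
      setIntegral_nonneg hΓ.isClosed.measurableSet (fun p _ => le_max_right _ _)
    rcases hnn.eq_or_lt with hflux | hflux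
    · -- index zero
      have h1 : ∀ k, (sausage he hT hF).IndexAtLeast n Γ k → k = 0 := by
        intro k hk
        by_contra hk0
        obtain ⟨X, hX, hXneg⟩ := hk
        have hc : (fun _ : Fin k => (1 : ℝ)) ≠ 0 := by
          intro h
          have := congrFun h ⟨0, Nat.pos_of_ne_zero hk0⟩
          exact one_ne_zero this
        have h2 := hXneg _ hc
        have h3 := secondVariation_nonneg he hT hF hn (by omega) hΓ hfin hmin htau hflux.symm
          (X := fun p => ∑ i, (fun _ : Fin k => (1 : ℝ)) i • X i p)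
          (ContDiff.sum (fun i _ => contDiff_const.smul (hX i).1))
          (fun p hp => Submodule.sum_mem _ (fun i _ => Submodule.smul_mem _ _ ((hX i).2.2 p hp)))
        linarith
      have h2 : (sausage he hT hF).morseIndex n Γ = 0 := by
        unfold EuclideanHypersurface.morseIndex
        refine le_antisymm (iSup₂_le (fun k hk => ?_)) (zero_le)
        rw [h1 k hk]
        rfl
      rw [h2]
      exact zero_ne_one
    · have h1 := index_at_least_two he hT hF hn hn2 hΓ hfin hmin hνs hν hflux hψ hψ' hd h0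
        hdisj hneg
      have h2 : (2 : ℕ∞) ≤ (sausage he hT hF).morseIndex n Γ := by
        unfold EuclideanHypersurface.morseIndex
        exact le_iSup₂_of_le (f := fun k (_ : (sausage he hT hF).IndexAtLeast n Γ k) => (k : ℕ∞))
          2 h1 le_rfl
      intro h3
      rw [h3] at h2
      exact absurd h2 (by norm_num)

end Pool.Agent.H48.IndexOne
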