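import Pool.Agent.H48.IndexOne.Normal

/-!
# Measure theoretic facts and linear algebra of the integrands
-/

open MeasureTheory Set Topology Filter Module
open scoped ContDiff ENNReal RealInnerProductSpace Gradient NNReal

namespace Pool.Agent.H48.IndexOne

variable {F : Type*} [NormedAddCommGroup F] [InnerProductSpace ℝ F] [FiniteDimensional ℝ F]

theorem hsSq_eq_sum {ι : Type*} [Fintype ι] (A : F →L[ℝ] F) (b : OrthonormalBasis ι ℝ F) :
    hsSq A = ∑ i, ‖A (b i)‖ ^ 2 := by
  unfold hsSq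
  rw [LinearMap.trace_eq_sum_inner _ b]
  refine Finset.sum_congr rfl (fun i _ => ?_)
  simp only [ContinuousLinearMap.coe_coe, ContinuousLinearMap.comp_apply]
  rw [ContinuousLinearMap.adjoint_inner_right, real_inner_self_eq_norm_sq]

theorem hsSq_nonneg (A : F →L[ℝ] F) : 0 ≤ hsSq A := by
  rw [hsSq_eq_sum A (stdOrthonormalBasis ℝ F)]
  positivity

theorem hsSq_zero : hsSq (0 : F →L[ℝ] F) = 0 := by
  rw [hsSq_eq_sum _ (stdOrthonormalBasis ℝ F)]
  simp

theorem hsSq_smul (c : ℝ) (A : F →L[ℝ] F) : hsSq (c • A) = c ^ 2 * hsSq A := by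
  rw [hsSq_eq_sum _ (stdOrthonormalBasis ℝ F), hsSq_eq_sum _ (stdOrthonormalBasis ℝ F),
    Finset.mul_sum]
  refine Finset.sum_congr rfl (fun i _ => ?_)
  simp only [smul_apply, norm_smul, Real.norm_eq_abs, mul_pow, sq_abs]

theorem continuous_hsSq : Continuous (hsSq : (F →L[ℝ] F) → ℝ) := by
  have h : (hsSq : (F →L[ℝ] F) → ℝ) = fun A => ∑ i, ‖A (stdOrthonormalBasis ℝ F i)‖ ^ 2 := by
    funext A
    exact hsSq_eq_sum A _
  rw [h]
  fun_prop

omit [FiniteDimensional ℝ F] in
theorem continuousOn_rankOne {u w : F → F} {s : Set F} (hu : ContinuousOn u s)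
    (hw : ContinuousOn w s) : ContinuousOn (fun p => (innerSL ℝ (u p)).smulRight (w p)) s :=
  ((ContinuousLinearMap.smulRightL ℝ F F).continuous.comp_continuousOn
    ((innerSL ℝ).continuous.comp_continuousOn hu)).clm_apply hw

/-- The square norm of a rank one map. -/
theorem hsSq_rankOne (u w : F) : hsSq ((innerSL ℝ u).smulRight w) = ‖u‖ ^ 2 * ‖w‖ ^ 2 := by
  rw [hsSq_eq_sum _ (stdOrthonormalBasis ℝ F)]
  simp only [ContinuousLinearMap.smulRight_apply, innerSL_apply_apply, norm_smul, mul_pow,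
    Real.norm_eq_abs, sq_abs]
  rw [← Finset.sum_mul]
  congr 1
  have := OrthonormalBasis.sum_sq_norm_inner_left (stdOrthonormalBasis ℝ F) u
  simpa [Real.norm_eq_abs, sq_abs] using this

theorem continuous_trace :
    Continuous (fun A : F →L[ℝ] F => LinearMap.trace ℝ F (A : F →ₗ[ℝ] F)) := by
  have h : (fun A : F →L[ℝ] F => LinearMap.trace ℝ F (A : F →ₗ[ℝ] F)) =
      fun A => ∑ i, ⟪stdOrthonormalBasis ℝ F i, A (stdOrthonormalBasis ℝ F i)⟫ := by
    funext A
    rw [LinearMap.trace_eq_sum_inner _ (stdOrthonormalBasis ℝ F)]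
    rfl
  rw [h]
  fun_prop

/-- The trace of a rank one map. -/
theorem trace_rankOne (u w : F) :
    LinearMap.trace ℝ F (((innerSL ℝ u).smulRight w : F →L[ℝ] F) : F →ₗ[ℝ] F) = ⟪u, w⟫ := by
  rw [LinearMap.trace_eq_sum_inner _ (stdOrthonormalBasis ℝ F)]
  simp only [ContinuousLinearMap.coe_coe, ContinuousLinearMap.smulRight_apply,
    innerSL_apply_apply, real_inner_smul_right]
  exact (stdOrthonormalBasis ℝ F).sum_inner_mul_inner u w

/-- The trace of the projection to a subspace. -/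
theorem trace_starProjection (T : Submodule ℝ F) :
    LinearMap.trace ℝ F ((T.starProjection : F →L[ℝ] F) : F →ₗ[ℝ] F) = finrank ℝ T := by
  have h : LinearMap.IsProj T ((T.starProjection : F →L[ℝ] F) : F →ₗ[ℝ] F) :=
    ⟨fun x => Submodule.starProjection_apply_mem T x,
      fun x hx => Submodule.starProjection_eq_self_iff.2 hx⟩
  exact h.trace

namespace EuclideanHypersurface.IsHypersurface

variable {M : EuclideanHypersurface F} {Γ : Set F}

theorem continuousOn_unitNormal (hΓ : M.IsHypersurface Γ) : ContinuousOn M.unitNormal Γ :=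
  fun _ hp => (M.contDiffAt_unitNormal
    (M.gradient_ne_zero (hΓ.phi_eq_zero hp))).continuousAt.continuousWithinAt

theorem continuousOn_starProjection (hΓ : M.IsHypersurface Γ) {ν : F → F}
    (hνc : ContinuousOn ν Γ) (hν : ∀ p ∈ Γ, ν p ∈ M.normalSp Γ p ∧ ‖ν p‖ = 1) :
    ContinuousOn (fun p => (tangentSp Γ p).starProjection) Γ := by
  have h : ContinuousOn (fun p => ContinuousLinearMap.id ℝ F -
      (innerSL ℝ (M.unitNormal p)).smulRight (M.unitNormal p) -
      (innerSL ℝ (ν p)).smulRight (ν p)) Γ := by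
    have h1 := hΓ.continuousOn_unitNormal
    refine (continuousOn_const.sub ?_).sub ?_
    · exact continuousOn_rankOne h1 h1
    · exact continuousOn_rankOne hνc hνc
  refine h.congr (fun p hp => ?_)
  ext v
  rw [hΓ.starProjection_tangentSp hp (hν p hp).1 (hν p hp).2]
  rfl

theorem continuousOn_starProjection_normal (hΓ : M.IsHypersurface Γ) {ν : F → F}
    (hνc : ContinuousOn ν Γ) (hν : ∀ p ∈ Γ, ν p ∈ M.normalSp Γ p ∧ ‖ν p‖ = 1) :
    ContinuousOn (fun p => (M.normalSp Γ p).starProjection) Γ := by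
  have h : ContinuousOn (fun p => (innerSL ℝ (ν p)).smulRight (ν p)) Γ :=
    continuousOn_rankOne hνc hνc
  refine h.congr (fun p hp => ?_)
  ext v
  rw [hΓ.starProjection_normalSp hp (hν p hp).1 (hν p hp).2]
  rfl

variable [MeasurableSpace F] [BorelSpace F]

/-- Nonempty relatively open subsets of `Γ` have positive area. -/
theorem area_pos (hΓ : M.IsHypersurface Γ) {n : ℕ} (hn : finrank ℝ F = n + 2) {p : F}
    (hp : p ∈ Γ) {V : Set F} (hV : V ∈ 𝓝 p) : 0 < μHE[n] (Γ ∩ V) := by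
  have hT : finrank ℝ (tangentSp Γ p) = n := by
    have := hΓ.finrank_tangentSp hp
    omega
  have h1 := (hΓ.localData p hp).image_mem_nhds hp hV
  have hlip : LipschitzWith 1 ((tangentSp Γ p).orthogonalProjectionOnto) := by
    have h2 := (tangentSp Γ p).orthogonalProjectionOnto.lipschitz
    refine h2.weaken ?_
    exact_mod_cast (tangentSp Γ p).orthogonalProjectionOnto_norm_le
  have h3 : 0 < (μHE[n] : Measure (tangentSp Γ p))
      ((tangentSp Γ p).orthogonalProjectionOnto '' (Γ ∩ V)) := by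
    have h4 : (μHE[n] : Measure (tangentSp Γ p)).IsAddHaarMeasure := by
      have := isAddHaarMeasure_euclideanHausdorffMeasure (E := tangentSp Γ p)
      rwa [hT] at this
    exact Measure.measure_pos_of_mem_nhds _ h1
  refine lt_of_lt_of_le h3 ?_
  rw [Measure.euclideanHausdorffMeasure_def, Measure.euclideanHausdorffMeasure_def,
    Measure.smul_apply, Measure.smul_apply]
  have h5 := hlip.hausdorffMeasure_image_le (d := (n : ℝ)) (by positivity) (Γ ∩ V)
  simp only [ENNReal.coe_one, ENNReal.one_rpow, one_mul] at h5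
  rw [ENNReal.smul_def, ENNReal.smul_def, smul_eq_mul, smul_eq_mul]
  gcongr

theorem integrableOn (hΓ : M.IsHypersurface Γ) (hM : IsCompact M.carrier) {n : ℕ}
    (hfin : μHE[n] Γ ≠ ⊤) {f : F → ℝ} (hf : ContinuousOn f Γ) :
    IntegrableOn f Γ μHE[n] := by
  have hc : IsCompact Γ := hM.of_isClosed_subset hΓ.isClosed hΓ.subset
  obtain ⟨C, hC⟩ := hc.exists_bound_of_continuousOn hf
  exact ⟨hf.aestronglyMeasurable hΓ.isClosed.measurableSet,
    HasFiniteIntegral.restrict_of_bounded (C := C) hfin.lt_top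
      ((ae_restrict_iff' hΓ.isClosed.measurableSet).2 (Eventually.of_forall hC))⟩

/-- A continuous nonnegative function with zero integral over `Γ` vanishes on `Γ`. -/
theorem eq_zero_of_integral_eq_zero (hΓ : M.IsHypersurface Γ) (hM : IsCompact M.carrier) {n : ℕ}
    (hn : finrank ℝ F = n + 2) (hfin : μHE[n] Γ ≠ ⊤) {f : F → ℝ} (hf : ContinuousOn f Γ)
    (hf0 : ∀ p ∈ Γ, 0 ≤ f p) (hint : ∫ p in Γ, f p ∂μHE[n] = 0) : ∀ p ∈ Γ, f p = 0 := by
  intro p hp
  by_contra hne
  have hpos : 0 < f p := lt_of_le_of_ne (hf0 p hp) (Ne.symm hne)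
  -- a neighbourhood where `f > f p / 2`
  have h1 : ∀ᶠ q in 𝓝[Γ] p, f p / 2 < f q :=
    (hf p hp).eventually (Ioi_mem_nhds (half_lt_self hpos))
  obtain ⟨V, hV, hV'⟩ := mem_nhdsWithin_iff_exists_mem_nhds_inter.1 h1
  obtain ⟨W, hWV, hW, hpW⟩ := mem_nhds_iff.1 hV
  have hi := hΓ.integrableOn hM hfin hf
  have h2 : 0 < μHE[n] (Γ ∩ W) := hΓ.area_pos hn hp (hW.mem_nhds hpW)
  have h3 : 0 < ∫ p in Γ, f p ∂μHE[n] := by
    rw [setIntegral_pos_iff_support_of_nonneg_ae]
    · refine lt_of_lt_of_le h2 (measure_mono ?_)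
      rintro q ⟨hq1, hq2⟩
      refine ⟨?_, hq1⟩
      have : f p / 2 < f q := hV' ⟨hWV hq2, hq1⟩
      rw [Function.mem_support]
      linarith
    · exact (ae_restrict_iff' hΓ.isClosed.measurableSet).2 (Eventually.of_forall hf0)
    · exact hi
  linarith

end EuclideanHypersurface.IsHypersurface

end Pool.Agent.H48.IndexOne
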