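import Pool.Agent.H48.IndexOne.Local

/-!
# Unit normals and projections
-/

open MeasureTheory Set Topology Filter Module
open scoped ContDiff ENNReal RealInnerProductSpace Gradient

namespace Pool.Agent.H48.IndexOne

variable {F : Type*} [NormedAddCommGroup F] [InnerProductSpace ℝ F] [FiniteDimensional ℝ F]

theorem inner_gradient (f : F → ℝ) (p v : F) : ⟪∇ f p, v⟫ = fderiv ℝ f p v := by
  rw [← toDual_gradient]
  rfl

theorem contDiff_gradient {f : F → ℝ} (hf : ContDiff ℝ ∞ f) : ContDiff ℝ ∞ (∇ f) := by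
  have h : ∇ f = fun x => (InnerProductSpace.toDual ℝ F).symm (fderiv ℝ f x) := rfl
  rw [h]
  exact (InnerProductSpace.toDual ℝ F).symm.toContinuousLinearEquiv.contDiff.comp
    (hf.fderiv_right (by simp))

namespace EuclideanHypersurface

variable (M : EuclideanHypersurface F)

theorem gradient_ne_zero {p : F} (hp : M.Φ p = 0) : ∇ M.Φ p ≠ 0 := by
  intro h
  apply M.regular p hp
  ext v
  rw [← inner_gradient, h]
  simp

theorem norm_unitNormal {p : F} (hp : M.Φ p = 0) : ‖M.unitNormal p‖ = 1 := by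
  rw [unitNormal, norm_smul, norm_inv, norm_norm]
  exact inv_mul_cancel₀ (norm_ne_zero_iff.2 (M.gradient_ne_zero hp))

theorem contDiffAt_unitNormal {p : F} (hp : ∇ M.Φ p ≠ 0) : ContDiffAt ℝ ∞ M.unitNormal p := by
  have h1 : ContDiffAt ℝ ∞ (∇ M.Φ) p := (contDiff_gradient M.contDiff).contDiffAt
  exact ((h1.norm ℝ hp).inv (norm_ne_zero_iff.2 hp)).smul h1

theorem gradient_eq (p : F) : ∇ M.Φ p = ‖∇ M.Φ p‖ • M.unitNormal p := by
  rw [unitNormal, smul_smul]
  by_cases h : ∇ M.Φ p = 0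
  · simp [h]
  · rw [mul_inv_cancel₀ (norm_ne_zero_iff.2 h), one_smul]

theorem mem_tangent_iff {p v : F} (hp : M.Φ p = 0) :
    v ∈ M.tangent p ↔ ⟪M.unitNormal p, v⟫ = 0 := by
  rw [mem_tangent, ← inner_gradient, M.gradient_eq p, real_inner_smul_left]
  have := norm_ne_zero_iff.2 (M.gradient_ne_zero hp)
  constructor
  · intro h
    exact (mul_eq_zero.1 h).resolve_left this
  · intro h
    rw [h, mul_zero]

theorem tangent_starProjection {p : F} (hp : M.Φ p = 0) (v : F) :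
    (M.tangent p).starProjection v = v - ⟪M.unitNormal p, v⟫ • M.unitNormal p := by
  apply Submodule.eq_starProjection_of_mem_of_inner_eq_zero
  · rw [M.mem_tangent_iff hp, inner_sub_right, real_inner_smul_right,
      real_inner_self_eq_norm_sq, M.norm_unitNormal hp]
    ring
  · intro w hw
    rw [sub_sub_cancel, real_inner_smul_left, (M.mem_tangent_iff hp).1 hw, mul_zero]

end EuclideanHypersurface

/-- Two orthonormal vectors orthogonal to a subspace of codimension two determine it. -/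
theorem mem_iff_of_orthonormal {T : Submodule ℝ F} (hT : finrank ℝ T + 2 = finrank ℝ F)
    {n ν : F} (hn : ‖n‖ = 1) (hν : ‖ν‖ = 1) (hnν : ⟪n, ν⟫ = 0) (hnT : ∀ v ∈ T, ⟪n, v⟫ = 0)
    (hνT : ∀ v ∈ T, ⟪ν, v⟫ = 0) (v : F) : v ∈ T ↔ ⟪n, v⟫ = 0 ∧ ⟪ν, v⟫ = 0 := by
  refine ⟨fun h => ⟨hnT v h, hνT v h⟩, fun h => ?_⟩
  have hon : Orthonormal ℝ ![n, ν] := by
    rw [orthonormal_iff_ite]
    intro i j
    fin_cases i <;> fin_cases j <;> simp [hn, hν, hnν, real_inner_comm n ν]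
  have hW : finrank ℝ (Submodule.span ℝ (Set.range ![n, ν])) = 2 := by
    rw [finrank_span_eq_card hon.linearIndependent]
    simp
  have hWT : Submodule.span ℝ (Set.range ![n, ν]) ≤ Tᗮ := by
    rw [Submodule.span_le]
    rintro x ⟨i, rfl⟩
    rw [SetLike.mem_coe, Submodule.mem_orthogonal']
    fin_cases i
    · exact hnT
    · exact hνT
  have hfin : finrank ℝ (Submodule.span ℝ (Set.range ![n, ν])) = finrank ℝ Tᗮ := by
    have := T.finrank_add_finrank_orthogonal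
    rw [hW]
    omega
  have heq := Submodule.eq_of_le_of_finrank_eq hWT hfin
  rw [← Submodule.orthogonal_orthogonal T, ← heq, Submodule.mem_orthogonal]
  intro u hu
  induction hu using Submodule.span_induction with
  | mem x hx =>
    obtain ⟨i, rfl⟩ := hx
    fin_cases i
    · exact h.1
    · exact h.2
  | zero => simp
  | add x y _ _ hx hy => rw [inner_add_left, hx, hy, add_zero]
  | smul a x _ hx => rw [real_inner_smul_left, hx, mul_zero]

/-- Projection onto a subspace of codimension two. -/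
theorem starProjection_of_orthonormal {T : Submodule ℝ F} (hT : finrank ℝ T + 2 = finrank ℝ F)
    {n ν : F} (hn : ‖n‖ = 1) (hν : ‖ν‖ = 1) (hnν : ⟪n, ν⟫ = 0) (hnT : ∀ v ∈ T, ⟪n, v⟫ = 0)
    (hνT : ∀ v ∈ T, ⟪ν, v⟫ = 0) (v : F) :
    T.starProjection v = v - ⟪n, v⟫ • n - ⟪ν, v⟫ • ν := by
  apply Submodule.eq_starProjection_of_mem_of_inner_eq_zero
  · rw [mem_iff_of_orthonormal hT hn hν hnν hnT hνT]
    have hνn : ⟪ν, n⟫ = 0 := by rw [real_inner_comm]; exact hnν
    constructor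
    · rw [inner_sub_right, inner_sub_right, real_inner_smul_right, real_inner_smul_right,
        real_inner_self_eq_norm_sq, hn, hnν]
      ring
    · rw [inner_sub_right, inner_sub_right, real_inner_smul_right, real_inner_smul_right,
        real_inner_self_eq_norm_sq, hν, hνn]
      ring
  · intro w hw
    have : v - (v - ⟪n, v⟫ • n - ⟪ν, v⟫ • ν) = ⟪n, v⟫ • n + ⟪ν, v⟫ • ν := by abel
    rw [this, inner_add_left, real_inner_smul_left, real_inner_smul_left, hnT w hw, hνT w hw]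
    ring

namespace LocalData

variable {M : EuclideanHypersurface F} {Γ : Set F} {p : F} (D : LocalData M Γ p)

/-- The local normal vector field (tangent to `M` and normal to `Γ`) before normalization. -/
noncomputable def G (q : F) : F := ∇ D.h q - ⟪M.unitNormal q, ∇ D.h q⟫ • M.unitNormal q

/-- The local unit normal vector field. -/
noncomputable def ν (q : F) : F := ‖D.G q‖⁻¹ • D.G q

include D in
theorem phi_eq_zero (hp : p ∈ Γ) : M.Φ p = 0 := ((D.mem_iff D.mem).1 hp).1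

include D in
theorem inner_unitNormal_of_mem (hp : p ∈ Γ) {v : F} (hv : v ∈ tangentSp Γ p) :
    ⟪M.unitNormal p, v⟫ = 0 :=
  (M.mem_tangent_iff (D.phi_eq_zero hp)).1 (D.tangentSp_le hp hv)

theorem G_mem (hp : p ∈ Γ) : D.G p ∈ M.normalSp Γ p := by
  have h0 := D.phi_eq_zero hp
  refine Submodule.mem_inf.2 ⟨?_, ?_⟩
  · rw [M.mem_tangent_iff h0, G, inner_sub_right, real_inner_smul_right,
      real_inner_self_eq_norm_sq, M.norm_unitNormal h0]
    ring
  · rw [Submodule.mem_orthogonal']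
    intro v hv
    rw [G, inner_sub_left, real_inner_smul_left, D.inner_unitNormal_of_mem hp hv, mul_zero,
      sub_zero, inner_gradient]
    rw [D.tangentSp_eq hp] at hv
    exact (mem_kerTwo.1 hv).2

theorem G_ne_zero (hp : p ∈ Γ) : D.G p ≠ 0 := by
  intro h
  obtain ⟨v, hv, hv'⟩ := D.exists_ne hp
  apply hv'
  have h1 : ⟪M.unitNormal p, v⟫ = 0 :=
    (M.mem_tangent_iff (D.phi_eq_zero hp)).1 (M.mem_tangent.2 hv)
  have h2 : ⟪D.G p, v⟫ = 0 := by rw [h, inner_zero_left]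
  rw [G, inner_sub_left, real_inner_smul_left, h1, mul_zero, sub_zero, inner_gradient] at h2
  exact h2

theorem norm_ν (hp : p ∈ Γ) : ‖D.ν p‖ = 1 := by
  rw [ν, norm_smul, norm_inv, norm_norm]
  exact inv_mul_cancel₀ (norm_ne_zero_iff.2 (D.G_ne_zero hp))

theorem ν_mem (hp : p ∈ Γ) : D.ν p ∈ M.normalSp Γ p := Submodule.smul_mem _ _ (D.G_mem hp)

theorem contDiffAt_G {q : F} (hq : ∇ M.Φ q ≠ 0) : ContDiffAt ℝ ∞ D.G q := by
  have h1 : ContDiffAt ℝ ∞ M.unitNormal q := M.contDiffAt_unitNormal hq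
  have h2 : ContDiffAt ℝ ∞ (∇ D.h) q := (contDiff_gradient D.smooth).contDiffAt
  exact h2.sub ((h1.inner ℝ h2).smul h1)

theorem contDiffAt_ν_of_ne {q : F} (hq : ∇ M.Φ q ≠ 0) (hG : D.G q ≠ 0) :
    ContDiffAt ℝ ∞ D.ν q := by
  have h3 : ContDiffAt ℝ ∞ D.G q := D.contDiffAt_G hq
  exact ((h3.norm ℝ hG).inv (norm_ne_zero_iff.2 hG)).smul h3

theorem contDiffAt_ν (hp : p ∈ Γ) : ContDiffAt ℝ ∞ D.ν p :=
  D.contDiffAt_ν_of_ne (M.gradient_ne_zero (D.phi_eq_zero hp)) (D.G_ne_zero hp)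

theorem eventually_contDiffAt_ν (hp : p ∈ Γ) : ∀ᶠ q in 𝓝 p, ContDiffAt ℝ ∞ D.ν q := by
  have h0 := M.gradient_ne_zero (D.phi_eq_zero hp)
  have h1 : ∀ᶠ q in 𝓝 p, ∇ M.Φ q ≠ 0 :=
    (contDiff_gradient M.contDiff).continuous.continuousAt.eventually (isOpen_ne.mem_nhds h0)
  have h2 : ∀ᶠ q in 𝓝 p, D.G q ≠ 0 :=
    (D.contDiffAt_G h0).continuousAt.eventually (isOpen_ne.mem_nhds (D.G_ne_zero hp))
  filter_upwards [h1, h2] with q hq1 hq2 using D.contDiffAt_ν_of_ne hq1 hq2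

end LocalData

namespace EuclideanHypersurface.IsHypersurface

variable {M : EuclideanHypersurface F} {Γ : Set F}

theorem phi_eq_zero (hΓ : M.IsHypersurface Γ) {p : F} (hp : p ∈ Γ) : M.Φ p = 0 := hΓ.subset hp

theorem finrank_tangentSp (hΓ : M.IsHypersurface Γ) {p : F} (hp : p ∈ Γ) :
    finrank ℝ (tangentSp Γ p) + 2 = finrank ℝ F := (hΓ.localData p hp).finrank_tangentSp hp

theorem inner_unitNormal (hΓ : M.IsHypersurface Γ) {p : F} (hp : p ∈ Γ) {v : F}
    (hv : v ∈ tangentSp Γ p) : ⟪M.unitNormal p, v⟫ = 0 :=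
  (hΓ.localData p hp).inner_unitNormal_of_mem hp hv

theorem inner_unitNormal_normal (hΓ : M.IsHypersurface Γ) {p : F} (hp : p ∈ Γ) {v : F}
    (hv : v ∈ M.normalSp Γ p) : ⟪M.unitNormal p, v⟫ = 0 :=
  (M.mem_tangent_iff (hΓ.phi_eq_zero hp)).1 (Submodule.mem_inf.1 hv).1

theorem inner_normal {p : F} {v ν : F} (hν : ν ∈ M.normalSp Γ p) (hv : v ∈ tangentSp Γ p) :
    ⟪ν, v⟫ = 0 := by
  have h := (Submodule.mem_inf.1 hν).2
  rw [Submodule.mem_orthogonal'] at h
  exact h v hv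

theorem mem_tangentSp_iff (hΓ : M.IsHypersurface Γ) {p : F} (hp : p ∈ Γ) {ν : F}
    (hν : ν ∈ M.normalSp Γ p) (hν1 : ‖ν‖ = 1) (v : F) :
    v ∈ tangentSp Γ p ↔ ⟪M.unitNormal p, v⟫ = 0 ∧ ⟪ν, v⟫ = 0 :=
  mem_iff_of_orthonormal (hΓ.finrank_tangentSp hp) (M.norm_unitNormal (hΓ.phi_eq_zero hp)) hν1
    (hΓ.inner_unitNormal_normal hp hν) (fun _ hv => hΓ.inner_unitNormal hp hv)
    (fun _ hv => inner_normal hν hv) v

theorem starProjection_tangentSp (hΓ : M.IsHypersurface Γ) {p : F} (hp : p ∈ Γ) {ν : F}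
    (hν : ν ∈ M.normalSp Γ p) (hν1 : ‖ν‖ = 1) (v : F) :
    (tangentSp Γ p).starProjection v = v - ⟪M.unitNormal p, v⟫ • M.unitNormal p - ⟪ν, v⟫ • ν :=
  starProjection_of_orthonormal (hΓ.finrank_tangentSp hp) (M.norm_unitNormal (hΓ.phi_eq_zero hp))
    hν1 (hΓ.inner_unitNormal_normal hp hν) (fun _ hv => hΓ.inner_unitNormal hp hv)
    (fun _ hv => inner_normal hν hv) v

/-- The normal space is a line. -/
theorem eq_inner_smul_of_mem_normalSp (hΓ : M.IsHypersurface Γ) {p : F} (hp : p ∈ Γ) {ν : F}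
    (hν : ν ∈ M.normalSp Γ p) (hν1 : ‖ν‖ = 1) {v : F} (hv : v ∈ M.normalSp Γ p) :
    v = ⟪ν, v⟫ • ν := by
  have h1 := hΓ.starProjection_tangentSp hp hν hν1 v
  rw [hΓ.inner_unitNormal_normal hp hv, zero_smul, sub_zero] at h1
  have h2 : (tangentSp Γ p).starProjection v = 0 := by
    rw [Submodule.starProjection_apply_eq_zero_iff]
    exact (Submodule.mem_inf.1 hv).2
  rw [h2] at h1
  exact (sub_eq_zero.1 h1.symm)

theorem starProjection_normalSp (hΓ : M.IsHypersurface Γ) {p : F} (hp : p ∈ Γ) {ν : F}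
    (hν : ν ∈ M.normalSp Γ p) (hν1 : ‖ν‖ = 1) (v : F) :
    (M.normalSp Γ p).starProjection v = ⟪ν, v⟫ • ν := by
  apply Submodule.eq_starProjection_of_mem_of_inner_eq_zero
  · exact Submodule.smul_mem _ _ hν
  · intro w hw
    rw [hΓ.eq_inner_smul_of_mem_normalSp hp hν hν1 hw, real_inner_smul_right, inner_sub_left,
      real_inner_smul_left, real_inner_self_eq_norm_sq, hν1, real_inner_comm v ν]
    ring

end EuclideanHypersurface.IsHypersurface

end Pool.Agent.H48.IndexOne
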