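import Mathlib

/-!
# One variable functions: the profile of the caps and the test functions
-/

open MeasureTheory Set Topology Filter intervalIntegral
open scoped ContDiff

namespace Pool.Agent.H48.IndexOne

/-- The primitive of `expNegInvGlue` vanishing for `x ≤ 0`. -/
noncomputable def prof1 (x : ℝ) : ℝ := ∫ s in (0 : ℝ)..x, expNegInvGlue s

/-- The second primitive of `expNegInvGlue` vanishing for `x ≤ 0`. -/
noncomputable def prof (x : ℝ) : ℝ := ∫ s in (0 : ℝ)..x, prof1 s

theorem hasDerivAt_prof1 (x : ℝ) : HasDerivAt prof1 (expNegInvGlue x) x :=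
  (expNegInvGlue.contDiff (n := 0)).continuous.integral_hasStrictDerivAt 0 x |>.hasDerivAt

theorem contDiff_prof1 : ContDiff ℝ ∞ prof1 := by
  rw [contDiff_infty_iff_deriv]
  refine ⟨fun x => (hasDerivAt_prof1 x).differentiableAt, ?_⟩
  have : deriv prof1 = expNegInvGlue := funext (fun x => (hasDerivAt_prof1 x).deriv)
  rw [this]
  exact expNegInvGlue.contDiff (n := ⊤)

theorem hasDerivAt_prof (x : ℝ) : HasDerivAt prof (prof1 x) x :=
  contDiff_prof1.continuous.integral_hasStrictDerivAt 0 x |>.hasDerivAt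

theorem contDiff_prof : ContDiff ℝ ∞ prof := by
  rw [contDiff_infty_iff_deriv]
  refine ⟨fun x => (hasDerivAt_prof x).differentiableAt, ?_⟩
  have : deriv prof = prof1 := funext (fun x => (hasDerivAt_prof x).deriv)
  rw [this]
  exact contDiff_prof1

theorem prof1_of_nonpos {x : ℝ} (hx : x ≤ 0) : prof1 x = 0 := by
  unfold prof1
  rw [intervalIntegral.integral_congr (g := fun _ => 0)]
  · simp
  · intro s hs
    rw [uIcc_of_ge hx] at hs
    exact expNegInvGlue.zero_of_nonpos hs.2

theorem prof1_pos {x : ℝ} (hx : 0 < x) : 0 < prof1 x := by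
  unfold prof1
  refine intervalIntegral_pos_of_pos_on ?_ ?_ hx
  · exact (expNegInvGlue.contDiff (n := 0)).continuous.intervalIntegrable _ _
  · intro s hs
    exact expNegInvGlue.pos_of_pos hs.1

theorem prof1_nonneg (x : ℝ) : 0 ≤ prof1 x := by
  rcases le_or_gt x 0 with h | h
  · rw [prof1_of_nonpos h]
  · exact (prof1_pos h).le

theorem prof_of_nonpos {x : ℝ} (hx : x ≤ 0) : prof x = 0 := by
  unfold prof
  rw [intervalIntegral.integral_congr (g := fun _ => 0)]
  · simp
  · intro s hs
    rw [uIcc_of_ge hx] at hs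
    exact prof1_of_nonpos hs.2

theorem prof_nonneg (x : ℝ) : 0 ≤ prof x := by
  rcases le_or_gt x 0 with h | h
  · rw [prof_of_nonpos h]
  · unfold prof
    exact intervalIntegral.integral_nonneg h.le (fun s _ => prof1_nonneg s)

theorem convexOn_prof : ConvexOn ℝ univ prof := by
  have h1 : deriv prof = prof1 := funext (fun x => (hasDerivAt_prof x).deriv)
  have h2 : deriv prof1 = expNegInvGlue := funext (fun x => (hasDerivAt_prof1 x).deriv)
  refine convexOn_univ_of_deriv2_nonneg (fun x => (hasDerivAt_prof x).differentiableAt) ?_ ?_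
  · rw [h1]
    exact fun x => (hasDerivAt_prof1 x).differentiableAt
  · intro x
    simp only [Function.iterate_succ, Function.iterate_zero, Function.comp_apply, id_eq]
    rw [h1, h2]
    exact expNegInvGlue.nonneg x

theorem prof1_mono : Monotone prof1 := by
  apply monotone_of_deriv_nonneg (fun x => (hasDerivAt_prof1 x).differentiableAt)
  intro x
  rw [(hasDerivAt_prof1 x).deriv]
  exact expNegInvGlue.nonneg x

/-- Linear lower bound. -/
theorem le_prof (x : ℝ) : prof1 1 * (x - 1) ≤ prof x := by
  rcases le_or_gt x 1 with h | h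
  · have h1 : prof1 1 * (x - 1) ≤ 0 :=
      mul_nonpos_of_nonneg_of_nonpos (prof1_nonneg 1) (by linarith)
    exact h1.trans (prof_nonneg x)
  · have h2 : prof x = (∫ s in (0 : ℝ)..1, prof1 s) + ∫ s in (1 : ℝ)..x, prof1 s := by
      unfold prof
      rw [intervalIntegral.integral_add_adjacent_intervals] <;>
      exact contDiff_prof1.continuous.intervalIntegrable _ _
    have h3 : 0 ≤ ∫ s in (0 : ℝ)..1, prof1 s :=
      intervalIntegral.integral_nonneg zero_le_one (fun s _ => prof1_nonneg s)
    have h4 : ∫ s in (1 : ℝ)..x, prof1 1 ≤ ∫ s in (1 : ℝ)..x, prof1 s := by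
      refine intervalIntegral.integral_mono_on h.le (by simp)
        (contDiff_prof1.continuous.intervalIntegrable _ _) ?_
      intro s hs
      exact prof1_mono hs.1
    rw [intervalIntegral.integral_const, smul_eq_mul] at h4
    rw [h2]
    linarith

/-- The profile of the sausage: `|y| ^ 2 + bet T t = 1`. -/
noncomputable def bet (T t : ℝ) : ℝ := prof (t - T) + prof (-t - T)

/-- Its derivative. -/
noncomputable def bet1 (T t : ℝ) : ℝ := prof1 (t - T) - prof1 (-t - T)

/-- Its second derivative. -/
noncomputable def bet2 (T t : ℝ) : ℝ := expNegInvGlue (t - T) + expNegInvGlue (-t - T)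

theorem hasDerivAt_bet (T t : ℝ) : HasDerivAt (bet T) (bet1 T t) t := by
  have h1 : HasDerivAt (fun t => prof (t - T)) (prof1 (t - T)) t := by
    simpa [Function.comp_def] using
      (hasDerivAt_prof (t - T)).comp t ((hasDerivAt_id t).sub_const T)
  have h2 : HasDerivAt (fun t => prof (-t - T)) (-prof1 (-t - T)) t := by
    simpa [Function.comp_def] using
      (hasDerivAt_prof (-t - T)).comp t ((hasDerivAt_id t).neg.sub_const T)
  exact h1.add h2

theorem hasDerivAt_bet1 (T t : ℝ) : HasDerivAt (bet1 T) (bet2 T t) t := by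
  have h1 : HasDerivAt (fun t => prof1 (t - T)) (expNegInvGlue (t - T)) t := by
    simpa [Function.comp_def] using
      (hasDerivAt_prof1 (t - T)).comp t ((hasDerivAt_id t).sub_const T)
  have h2 : HasDerivAt (fun t => prof1 (-t - T)) (-expNegInvGlue (-t - T)) t := by
    simpa [Function.comp_def] using
      (hasDerivAt_prof1 (-t - T)).comp t ((hasDerivAt_id t).neg.sub_const T)
  have h3 := h1.sub h2
  rw [sub_neg_eq_add] at h3
  exact h3

theorem contDiff_bet (T : ℝ) : ContDiff ℝ ∞ (bet T) := by
  unfold bet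
  exact (contDiff_prof.comp (contDiff_id.sub contDiff_const)).add
    (contDiff_prof.comp (contDiff_id.neg.sub contDiff_const))

theorem contDiff_bet1 (T : ℝ) : ContDiff ℝ ∞ (bet1 T) := by
  unfold bet1
  exact (contDiff_prof1.comp (contDiff_id.sub contDiff_const)).sub
    (contDiff_prof1.comp (contDiff_id.neg.sub contDiff_const))

theorem bet_nonneg (T t : ℝ) : 0 ≤ bet T t := add_nonneg (prof_nonneg _) (prof_nonneg _)

theorem bet_of_abs_le {T t : ℝ} (h : |t| ≤ T) : bet T t = 0 := by
  have := abs_le.1 h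
  unfold bet
  rw [prof_of_nonpos (by linarith), prof_of_nonpos (by linarith), add_zero]

theorem bet1_of_abs_le {T t : ℝ} (h : |t| ≤ T) : bet1 T t = 0 := by
  have := abs_le.1 h
  unfold bet1
  rw [prof1_of_nonpos (by linarith), prof1_of_nonpos (by linarith), sub_zero]

theorem bet2_of_abs_le {T t : ℝ} (h : |t| ≤ T) : bet2 T t = 0 := by
  have := abs_le.1 h
  unfold bet2
  rw [expNegInvGlue.zero_of_nonpos (by linarith), expNegInvGlue.zero_of_nonpos (by linarith),
    add_zero]

theorem bet1_pos {T t : ℝ} (hT : 0 ≤ T) (h : T < t) : 0 < bet1 T t := by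
  unfold bet1
  rw [prof1_of_nonpos (x := -t - T) (by linarith), sub_zero]
  exact prof1_pos (by linarith)

theorem bet1_neg {T t : ℝ} (hT : 0 ≤ T) (h : t < -T) : bet1 T t < 0 := by
  unfold bet1
  rw [prof1_of_nonpos (x := t - T) (by linarith), zero_sub]
  exact neg_neg_of_pos (prof1_pos (by linarith))

theorem bet1_mul_nonneg {T t : ℝ} (hT : 0 ≤ T) : 0 ≤ bet1 T t * t := by
  rcases le_or_gt |t| T with h | h
  · rw [bet1_of_abs_le h, zero_mul]
  · rcases lt_abs.1 h with h1 | h1
    · exact mul_nonneg (bet1_pos hT h1).le (by linarith)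
    · exact mul_nonneg_of_nonpos_of_nonpos (bet1_neg hT (by linarith)).le (by linarith)

theorem bet1_mul_pos {T t : ℝ} (hT : 0 ≤ T) (h : T < |t|) : 0 < bet1 T t * t := by
  rcases lt_abs.1 h with h1 | h1
  · exact mul_pos (bet1_pos hT h1) (by linarith)
  · exact mul_pos_of_neg_of_neg (bet1_neg hT (by linarith)) (by linarith)

theorem convexOn_bet (T : ℝ) : ConvexOn ℝ univ (bet T) := by
  have h1 : ConvexOn ℝ univ (fun t => prof (t - T)) := by
    have := convexOn_prof.comp_affineMap (AffineMap.id ℝ ℝ - AffineMap.const ℝ ℝ T)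
    simpa [Function.comp_def] using this
  have h2 : ConvexOn ℝ univ (fun t => prof (-t - T)) := by
    have := convexOn_prof.comp_affineMap (-AffineMap.id ℝ ℝ - AffineMap.const ℝ ℝ T)
    simpa [Function.comp_def] using this
  exact h1.add h2

theorem abs_le_of_bet_le {T t : ℝ} (h : bet T t ≤ 1) : |t| ≤ T + 1 + 1 / prof1 1 := by
  have hp : 0 < prof1 1 := prof1_pos one_pos
  have h1 : prof (t - T) ≤ 1 := by
    have := prof_nonneg (-t - T)
    unfold bet at h
    linarith
  have h2 : prof (-t - T) ≤ 1 := by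
    have := prof_nonneg (t - T)
    unfold bet at h
    linarith
  have h3 := (le_prof (t - T)).trans h1
  have h4 := (le_prof (-t - T)).trans h2
  rw [mul_comm, ← le_div_iff₀ hp] at h3 h4
  rw [abs_le]
  constructor <;> linarith

/-- A smooth function, positive exactly on `(-T, T)`. -/
noncomputable def plateau (T s : ℝ) : ℝ := expNegInvGlue (s + T) * expNegInvGlue (T - s)

theorem contDiff_plateau (T : ℝ) : ContDiff ℝ ∞ (plateau T) := by
  unfold plateau
  exact ((expNegInvGlue.contDiff (n := ⊤)).comp (contDiff_id.add contDiff_const)).mul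
    ((expNegInvGlue.contDiff (n := ⊤)).comp (contDiff_const.sub contDiff_id))

theorem plateau_nonneg (T s : ℝ) : 0 ≤ plateau T s :=
  mul_nonneg (expNegInvGlue.nonneg _) (expNegInvGlue.nonneg _)

theorem plateau_of_le {T s : ℝ} (h : T ≤ |s|) : plateau T s = 0 := by
  unfold plateau
  rcases le_abs.1 h with h1 | h1
  · rw [expNegInvGlue.zero_of_nonpos (x := T - s) (by linarith), mul_zero]
  · rw [expNegInvGlue.zero_of_nonpos (x := s + T) (by linarith), zero_mul]

theorem plateau_pos {T s : ℝ} (h : |s| < T) : 0 < plateau T s := by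
  have := abs_lt.1 h
  exact mul_pos (expNegInvGlue.pos_of_pos (by linarith)) (expNegInvGlue.pos_of_pos (by linarith))

/-- Existence of the test functions: for some `T ≥ 0` there are two smooth functions vanishing
outside `(-T, T)`, with disjoint supports, and with `∫ ψ'^2 < ∫ ψ^2`. -/
theorem exists_test : ∃ T : ℝ, 0 ≤ T ∧ ∃ ψ ψ' : Fin 2 → ℝ → ℝ,
    (∀ i, ContDiff ℝ ∞ (ψ i)) ∧ (∀ i, ContDiff ℝ ∞ (ψ' i)) ∧
    (∀ i s, HasDerivAt (ψ i) (ψ' i s) s) ∧
    (∀ i s, T ≤ |s| → ψ i s = 0 ∧ ψ' i s = 0) ∧
    (∀ s, ψ 0 s * ψ 1 s = 0 ∧ ψ' 0 s * ψ' 1 s = 0) ∧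
    (∀ i, ∫ s in (-T)..T, ((ψ' i s) ^ 2 - (ψ i s) ^ 2) < 0) := by
  -- the base function
  let η : ℝ → ℝ := plateau 1
  have hη : ContDiff ℝ ∞ η := contDiff_plateau 1
  have hη0 : ∀ s, 1 ≤ |s| → η s = 0 := fun s hs => plateau_of_le hs
  let η' : ℝ → ℝ := deriv η
  have hη' : ContDiff ℝ ∞ η' := (contDiff_infty_iff_deriv.1 hη).2
  have hd : ∀ s, HasDerivAt η (η' s) s := fun s =>
    ((contDiff_infty_iff_deriv.1 hη).1 s).hasDerivAt
  -- the derivative vanishes outside `(-1, 1)`
  have hη'0 : ∀ s, 1 ≤ |s| → η' s = 0 := by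
    intro s hs
    have hmin : IsLocalMin η s := by
      refine Eventually.of_forall (fun x => ?_)
      rw [hη0 s hs]
      exact plateau_nonneg 1 x
    exact hmin.deriv_eq_zero
  let A : ℝ := ∫ s in (-1 : ℝ)..1, (η' s) ^ 2
  let B : ℝ := ∫ s in (-1 : ℝ)..1, (η s) ^ 2
  have hB : 0 < B := by
    refine intervalIntegral_pos_of_pos_on ?_ ?_ (by norm_num)
    · exact (hη.continuous.pow 2).intervalIntegrable _ _
    · intro s hs
      have : 0 < η s := plateau_pos (abs_lt.2 ⟨by linarith [hs.1], hs.2⟩)
      positivity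
  have hA : 0 ≤ A := intervalIntegral.integral_nonneg (by norm_num) (fun s _ => sq_nonneg _)
  let R : ℝ := A / B + 1
  have hR : 0 < R := by positivity
  have hR1 : 1 ≤ R := by
    have : 0 ≤ A / B := by positivity
    linarith
  have hRA : A / R < R * B := by
    rw [div_lt_iff₀ hR]
    have h1 : A < R * B := by
      have : R * B = A + B := by
        simp only [R]; field_simp
      linarith
    nlinarith
  -- centres `c = 1, -1`
  let c : Fin 2 → ℝ := ![1, -1]
  let ψ : Fin 2 → ℝ → ℝ := fun i s => η (s / R - c i)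
  let ψ' : Fin 2 → ℝ → ℝ := fun i s => η' (s / R - c i) * (1 / R)
  have hsub : ∀ i, ContDiff ℝ ∞ (fun s : ℝ => s / R - c i) := fun i =>
    (contDiff_id.div_const R).sub contDiff_const
  have hfar : ∀ i s, 2 * R ≤ |s| → 1 ≤ |s / R - c i| := by
    intro i s hs
    have h1 : 2 ≤ |s / R| := by
      rw [abs_div, abs_of_pos hR, le_div_iff₀ hR]
      exact hs
    have h2 : |c i| = 1 := by fin_cases i <;> simp [c]
    have h3 := abs_sub_abs_le_abs_sub (s / R) (c i)
    linarith
  refine ⟨2 * R, by positivity, ψ, ψ', ?_, ?_, ?_, ?_, ?_, ?_⟩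
  · intro i
    exact hη.comp (hsub i)
  · intro i
    exact (hη'.comp (hsub i)).mul contDiff_const
  · intro i s
    have h1 : HasDerivAt (fun s : ℝ => s / R - c i) (1 / R) s := by
      simpa using ((hasDerivAt_id s).div_const R).sub_const (c i)
    exact (hd (s / R - c i)).comp s h1
  · intro i s hs
    simp only [ψ, ψ']
    rw [hη0 _ (hfar i s hs), hη'0 _ (hfar i s hs)]
    simp
  · intro s
    -- one of the two arguments has absolute value at least `1`
    have h1 : 1 ≤ |s / R - c 0| ∨ 1 ≤ |s / R - c 1| := by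
      simp only [c, Matrix.cons_val_zero, Matrix.cons_val_one]
      rcases le_total 0 (s / R) with h | h
      · right
        rw [sub_neg_eq_add, abs_of_nonneg (by linarith)]
        linarith
      · left
        rw [abs_of_nonpos (by linarith)]
        linarith
    simp only [ψ, ψ']
    rcases h1 with h1 | h1
    · rw [hη0 _ h1, hη'0 _ h1]; simp
    · rw [hη0 _ h1, hη'0 _ h1]; simp
  · intro i
    have key : ∀ f : ℝ → ℝ, Continuous f → (∀ s, 1 ≤ |s| → f s = 0) →
        ∫ s in (-(2 * R))..(2 * R), f (s / R - c i) = R * ∫ s in (-1 : ℝ)..1, f s := by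
      intro f hf hf0
      have h1 : ∫ s in (-(2 * R))..(2 * R), f (s / R - c i) =
          R * ∫ s in (-(2 * R) / R - c i)..(2 * R / R - c i), f s := by
        rw [intervalIntegral.integral_comp_div_sub (fun s => f s) hR.ne' (c i), smul_eq_mul]
      rw [h1]
      congr 1
      have e1 : -(2 * R) / R = -2 := by field_simp
      have e2 : 2 * R / R = 2 := by field_simp
      rw [e1, e2]
      have hci : |c i| = 1 := by fin_cases i <;> simp [c]
      have hci' := abs_le.1 hci.le
      have hint : ∀ a b : ℝ, IntervalIntegrable f volume a b := fun a b =>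
        hf.intervalIntegrable a b
      rw [← intervalIntegral.integral_add_adjacent_intervals (hint (-2 - c i) (-1)) (hint (-1) _),
        ← intervalIntegral.integral_add_adjacent_intervals (hint (-1) 1) (hint 1 _)]
      have z1 : ∫ s in (-2 - c i)..(-1), f s = 0 := by
        rw [intervalIntegral.integral_congr (g := fun _ => (0 : ℝ))]
        · simp
        · intro s hs
          rw [uIcc_of_le (by linarith)] at hs
          exact hf0 s (le_abs.2 (Or.inr (by linarith [hs.2])))
      have z2 : ∫ s in (1 : ℝ)..(2 - c i), f s = 0 := by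
        rw [intervalIntegral.integral_congr (g := fun _ => (0 : ℝ))]
        · simp
        · intro s hs
          rw [uIcc_of_le (by linarith)] at hs
          exact hf0 s (le_abs.2 (Or.inl hs.1))
      rw [z1, z2]
      ring
    have k1 := key (fun s => (η s) ^ 2) (hη.continuous.pow 2) (fun s hs => by
      rw [hη0 s hs]; ring)
    have k2 := key (fun s => (η' s) ^ 2) (hη'.continuous.pow 2) (fun s hs => by
      rw [hη'0 s hs]; ring)
    have c1 : Continuous (ψ i) := hη.continuous.comp (hsub i).continuous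
    have c2 : Continuous (ψ' i) := (hη'.continuous.comp (hsub i).continuous).mul continuous_const
    have i1 : IntervalIntegrable (fun s => (ψ' i s) ^ 2) volume (-(2 * R)) (2 * R) :=
      (c2.pow 2).intervalIntegrable _ _
    have i2 : IntervalIntegrable (fun s => (ψ i s) ^ 2) volume (-(2 * R)) (2 * R) :=
      (c1.pow 2).intervalIntegrable _ _
    rw [intervalIntegral.integral_sub i1 i2]
    have e3 : ∫ s in (-(2 * R))..(2 * R), (ψ i s) ^ 2 = R * B := k1
    have e4 : ∫ s in (-(2 * R))..(2 * R), (ψ' i s) ^ 2 = A / R := by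
      have : ∀ s, (ψ' i s) ^ 2 = (1 / R) ^ 2 * (η' (s / R - c i)) ^ 2 := by
        intro s; simp only [ψ']; ring
      simp only [this]
      rw [intervalIntegral.integral_const_mul, k2]
      simp only [A]
      field_simp
    rw [e3, e4]
    linarith

end Pool.Agent.H48.IndexOne
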