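import Pool.Agent.H48.IndexOne.SignCocycle

/-!
# Sign cocycles split on the punctured space of dimension at least 3
-/

open Set Topology Module

namespace Pool.Agent.H48.IndexOne

variable {F : Type*} [NormedAddCommGroup F] [NormedSpace ℝ F] [FiniteDimensional ℝ F]

/-- The complement of the closed ray through `e`. -/
def offRay (e : F) : Set F := {y | ∀ t : ℝ, 0 ≤ t → y ≠ t • e}

omit [FiniteDimensional ℝ F] in
theorem ne_zero_of_mem_offRay {e y : F} (hy : y ∈ offRay e) : y ≠ 0 := by
  have := hy 0 le_rfl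
  rwa [zero_smul] at this

theorem isOpen_offRay (e : F) (he : e ≠ 0) : IsOpen (offRay e) := by
  have h : (offRay e)ᶜ = (fun t : ℝ => t • e) '' Ici 0 := by
    ext y
    simp only [offRay, mem_compl_iff, mem_setOf_eq, mem_image, mem_Ici]
    push Not
    constructor
    · rintro ⟨t, ht, h⟩; exact ⟨t, ht, h.symm⟩
    · rintro ⟨t, ht, h⟩; exact ⟨t, ht, h.symm⟩
  rw [← isClosed_compl_iff, h]
  exact (isClosedEmbedding_smul_left he).isClosedMap _ isClosed_Ici

omit [FiniteDimensional ℝ F] in
theorem starConvex_offRay (e : F) (he : e ≠ 0) : StarConvex ℝ (-e) (offRay e) := by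
  intro y hy a b ha hb hab t ht h
  rcases hb.eq_or_lt with hb0 | hb0
  · have ha1 : a = 1 := by linarith
    rw [← hb0, ha1] at h
    simp only [one_smul, zero_smul, add_zero] at h
    have h1 : (t + 1) • e = 0 := by
      rw [add_smul, one_smul, ← h]; simp
    rcases smul_eq_zero.mp h1 with h2 | h2
    · linarith
    · exact he h2
  · apply hy ((t + a) / b) (by positivity)
    have h1 : b • y = (t + a) • e := by
      rw [add_smul, ← h, smul_neg]; abel
    rw [div_eq_inv_mul, mul_smul, ← h1, smul_smul, inv_mul_cancel₀ hb0.ne', one_smul]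

omit [FiniteDimensional ℝ F] in
theorem neg_mem_offRay (e : F) (he : e ≠ 0) : -e ∈ offRay e := by
  intro t ht h
  have h1 : (t + 1) • e = 0 := by
    rw [add_smul, one_smul, ← h]; simp
  rcases smul_eq_zero.mp h1 with h2 | h2
  · linarith
  · exact he h2

theorem splitsOn_offRay {ι : Type*} (Z : SignCocycle ι {x : F // x ≠ 0}) (e : F) (he : e ≠ 0) :
    Z.SplitsOn (Subtype.val ⁻¹' offRay e) := by
  haveI : ContractibleSpace (offRay e) :=
    (starConvex_offRay e he).contractibleSpace ⟨_, neg_mem_offRay e he⟩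
  haveI : SimplyConnectedSpace (offRay e) := inferInstance
  haveI : LocallyPathConnectedSpace (offRay e) := (isOpen_offRay e he).locallyPathConnectedSpace
  let φ : (Subtype.val ⁻¹' offRay e : Set {x : F // x ≠ 0}) ≃ₜ offRay e :=
    { toFun := fun x => ⟨x.1.1, x.2⟩
      invFun := fun x => ⟨⟨x.1, ne_zero_of_mem_offRay x.2⟩, x.2⟩
      left_inv := fun x => rfl
      right_inv := fun x => rfl
      continuous_toFun := by fun_prop
      continuous_invFun := by fun_prop }
  haveI : SimplyConnectedSpace (Subtype.val ⁻¹' offRay e : Set {x : F // x ≠ 0}) :=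
    φ.toHomotopyEquiv.simplyConnectedSpace
  haveI : LocallyPathConnectedSpace (Subtype.val ⁻¹' offRay e : Set {x : F // x ≠ 0}) :=
    φ.isOpenEmbedding.locallyPathConnectedSpace
  exact Z.splitsOn_of_subtype _

/-- Sign cocycles on `F \ {0}` split if `dim F ≥ 3`. -/
theorem splitsOn_punctured (hF : 2 < finrank ℝ F) {ι : Type*}
    (Z : SignCocycle ι {x : F // x ≠ 0}) : Z.SplitsOn univ := by
  haveI : Nontrivial F := Module.nontrivial_of_finrank_pos (R := ℝ) (by omega)
  obtain ⟨e, he⟩ := exists_ne (0 : F)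
  have h1 := splitsOn_offRay Z e he
  have h2 := splitsOn_offRay Z (-e) (neg_ne_zero.mpr he)
  have h3 : IsPreconnected ((Subtype.val ⁻¹' offRay e : Set {x : F // x ≠ 0}) ∩
      Subtype.val ⁻¹' offRay (-e)) := by
    have hrank : 1 < Module.rank ℝ (F ⧸ (Submodule.span ℝ {e})) := by
      have h4 := Submodule.finrank_quotient_add_finrank (Submodule.span ℝ {e})
      rw [finrank_span_singleton he] at h4
      rw [← finrank_eq_rank]
      have : 1 < finrank ℝ (F ⧸ (Submodule.span ℝ {e})) := by omega
      exact_mod_cast this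
    have h5 := (isConnected_compl_of_one_lt_codim hrank).isPreconnected
    have h6 : IsPreconnected ((fun x : {x : F // x ≠ 0} => x.1) ⁻¹'
        ((Submodule.span ℝ {e} : Submodule ℝ F) : Set F)ᶜ) := by
      have hemb : IsOpenEmbedding (Subtype.val : {x : F // x ≠ 0} → F) :=
        isOpen_ne.isOpenEmbedding_subtypeVal
      refine h5.preimage_of_isOpenMap Subtype.val_injective hemb.isOpenMap ?_
      intro x hx
      refine ⟨⟨x, ?_⟩, rfl⟩
      rintro rfl
      exact hx (Submodule.zero_mem _)
    convert h6 using 1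
    ext x
    simp only [mem_inter_iff, mem_preimage, offRay, mem_setOf_eq, mem_compl_iff, SetLike.mem_coe,
      Submodule.mem_span_singleton, not_exists]
    constructor
    · rintro ⟨ha, hb⟩ t ht
      rcases le_total 0 t with h0 | h0
      · exact ha t h0 ht.symm
      · exact hb (-t) (by linarith) (by rw [smul_neg, neg_smul, neg_neg]; exact ht.symm)
    · intro h
      refine ⟨fun t _ ht => h t ht.symm, fun t _ ht => h (-t) ?_⟩
      rw [ht, smul_neg, neg_smul]
  have h7 := SignCocycle.SplitsOn.union Z h1 h2 ((isOpen_offRay e he).preimage continuous_subtype_val)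
    ((isOpen_offRay (-e) (neg_ne_zero.mpr he)).preimage continuous_subtype_val) h3
  convert h7 using 1
  symm
  rw [eq_univ_iff_forall]
  rintro ⟨x, hx⟩
  simp only [mem_union, mem_preimage, offRay, mem_setOf_eq]
  by_contra hcon
  push Not at hcon
  obtain ⟨⟨t, ht, hxt⟩, ⟨s, hs, hxs⟩⟩ := hcon
  have h8 : (t + s) • e = 0 := by
    rw [add_smul, ← hxt, hxs, smul_neg]; simp
  rcases smul_eq_zero.mp h8 with h9 | h9
  · have ht0 : t = 0 := by linarith
    rw [ht0, zero_smul] at hxt
    exact hx hxt
  · exact he h9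

end Pool.Agent.H48.IndexOne
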