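import Pool.Agent.H48.IndexOne.Measure
import Pool.Agent.H48.IndexOne.Profile
import Pool.Agent.H48.IndexOne.Punctured

/-!
# The sausage hypersurface
-/

open MeasureTheory Set Topology Filter Module
open scoped ContDiff ENNReal RealInnerProductSpace Gradient NNReal

namespace Pool.Agent.H48.IndexOne

variable {F : Type*} [NormedAddCommGroup F] [InnerProductSpace ℝ F] [FiniteDimensional ℝ F]

/-- The defining function `|p| ^ 2 - ⟨e, p⟩ ^ 2 + β(⟨e, p⟩) - 1` of the sausage. -/
noncomputable def Phi (e : F) (T : ℝ) (p : F) : ℝ :=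
  ‖p‖ ^ 2 - ⟪e, p⟫ ^ 2 + bet T ⟪e, p⟫ - 1

/-- The part of `p` orthogonal to the axis `e`. -/
noncomputable def yy (e p : F) : F := p - ⟪e, p⟫ • e

omit [FiniteDimensional ℝ F] in
theorem inner_yy {e : F} (he : ‖e‖ = 1) (p : F) : ⟪e, yy e p⟫ = 0 := by
  rw [yy, inner_sub_right, real_inner_smul_right, real_inner_self_eq_norm_sq, he]
  ring

omit [FiniteDimensional ℝ F] in
theorem norm_yy_sq {e : F} (he : ‖e‖ = 1) (p : F) : ‖yy e p‖ ^ 2 = ‖p‖ ^ 2 - ⟪e, p⟫ ^ 2 := by
  rw [← real_inner_self_eq_norm_sq, yy, inner_sub_left, inner_sub_right, inner_sub_right,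
    real_inner_smul_left, real_inner_smul_right, real_inner_smul_left, real_inner_smul_right,
    real_inner_self_eq_norm_sq, real_inner_self_eq_norm_sq, he, real_inner_comm p e]
  ring

theorem contDiff_Phi (e : F) (T : ℝ) : ContDiff ℝ ∞ (Phi e T) := by
  unfold Phi
  have h1 : ContDiff ℝ ∞ (fun p : F => ⟪e, p⟫) := contDiff_const.inner ℝ contDiff_id
  exact ((((contDiff_norm_sq ℝ).sub (h1.pow 2)).add ((contDiff_bet T).comp h1)).sub contDiff_const)

theorem hasFDerivAt_inner_e (e p : F) : HasFDerivAt (fun p : F => ⟪e, p⟫) (innerSL ℝ e) p :=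
  (innerSL ℝ e).hasFDerivAt

theorem hasFDerivAt_Phi (e : F) (T : ℝ) (p : F) :
    HasFDerivAt (Phi e T) (innerSL ℝ ((2 : ℝ) • yy e p + bet1 T ⟪e, p⟫ • e)) p := by
  have h1 : HasFDerivAt (fun p : F => ‖p‖ ^ 2) (2 • innerSL ℝ p) p :=
    (hasStrictFDerivAt_norm_sq p).hasFDerivAt
  have h2 := hasFDerivAt_inner_e e p
  have h3 : HasFDerivAt (fun p : F => ⟪e, p⟫ ^ 2) ((2 * ⟪e, p⟫) • innerSL ℝ e) p := by
    simpa using h2.pow 2
  have h4 : HasFDerivAt (fun p : F => bet T ⟪e, p⟫) (bet1 T ⟪e, p⟫ • innerSL ℝ e) p := by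
    exact (hasDerivAt_bet T ⟪e, p⟫).comp_hasFDerivAt p h2
  have h5 := ((h1.sub h3).add h4).sub_const 1
  refine h5.congr_fderiv ?_
  ext v
  simp only [yy, add_apply, sub_apply, smul_apply,
    innerSL_apply_apply, smul_eq_mul, inner_add_left, real_inner_smul_left, inner_sub_left,
    nsmul_eq_mul]
  push_cast
  ring

theorem gradient_Phi (e : F) (T : ℝ) (p : F) :
    ∇ (Phi e T) p = (2 : ℝ) • yy e p + bet1 T ⟪e, p⟫ • e := by
  have h : HasGradientAt (Phi e T) ((2 : ℝ) • yy e p + bet1 T ⟪e, p⟫ • e) p := by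
    rw [hasGradientAt_iff_hasFDerivAt]
    exact hasFDerivAt_Phi e T p
  exact h.gradient

theorem norm_gradient_sq {e : F} (he : ‖e‖ = 1) (T : ℝ) (p : F) :
    ‖∇ (Phi e T) p‖ ^ 2 = 4 * ‖yy e p‖ ^ 2 + bet1 T ⟪e, p⟫ ^ 2 := by
  rw [gradient_Phi, norm_add_sq_real, norm_smul, norm_smul, he, real_inner_smul_left,
    real_inner_smul_right, real_inner_comm e (yy e p), inner_yy he, Real.norm_eq_abs,
    Real.norm_eq_abs, mul_pow, mul_pow, sq_abs, sq_abs]
  ring

/-- points of the sausage are not critical -/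
theorem norm_gradient_sq_pos {e : F} (he : ‖e‖ = 1) {T : ℝ} (hT : 0 ≤ T) {p : F}
    (hp : Phi e T p = 0) : 0 < 4 * ‖yy e p‖ ^ 2 + bet1 T ⟪e, p⟫ ^ 2 := by
  rcases eq_or_ne (bet1 T ⟪e, p⟫) 0 with h | h
  · have h1 : |⟪e, p⟫| ≤ T := by
      by_contra hcon
      have := bet1_mul_pos hT (not_le.1 hcon)
      rw [h, zero_mul] at this
      exact lt_irrefl _ this
    have h2 : ‖yy e p‖ ^ 2 = 1 := by
      rw [norm_yy_sq he]
      unfold Phi at hp
      rw [bet_of_abs_le h1] at hp
      linarith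
    rw [h2, h]
    norm_num
  · positivity

theorem fderiv_Phi_ne_zero {e : F} (he : ‖e‖ = 1) {T : ℝ} (hT : 0 ≤ T) {p : F}
    (hp : Phi e T p = 0) : fderiv ℝ (Phi e T) p ≠ 0 := by
  intro h
  have h1 : ∇ (Phi e T) p = 0 := by
    rw [gradient, h, map_zero]
  have h2 := norm_gradient_sq_pos he hT hp
  rw [← norm_gradient_sq he, h1] at h2
  simp at h2

theorem convexOn_Phi {e : F} (he : ‖e‖ = 1) (T : ℝ) : ConvexOn ℝ univ (Phi e T) := by
  have h1 : ConvexOn ℝ univ (fun p : F => ‖yy e p‖ ^ 2) := by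
    have h2 : ConvexOn ℝ univ (fun p : F => ‖p‖ ^ 2) :=
      (convexOn_norm convex_univ).pow (fun x _ => norm_nonneg x) 2
    have h3 := h2.comp_linearMap (LinearMap.id - (innerₛₗ ℝ e).smulRight e)
    simpa [Function.comp_def, yy] using h3
  have h2 : ConvexOn ℝ univ (fun p : F => bet T ⟪e, p⟫) := by
    have h3 := (convexOn_bet T).comp_linearMap (innerₛₗ ℝ e)
    simpa [Function.comp_def] using h3
  have h3 : ConvexOn ℝ univ (fun p : F => ‖yy e p‖ ^ 2 + bet T ⟪e, p⟫ + (-1)) :=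
    (h1.add h2).add_const (-1)
  refine h3.congr ?_
  intro p _
  simp only [norm_yy_sq he, Phi]
  ring

/-- the solid body -/
noncomputable def body (e : F) (T : ℝ) : Set F := {p | Phi e T p ≤ 0}

theorem convex_body {e : F} (he : ‖e‖ = 1) (T : ℝ) : Convex ℝ (body e T) := by
  have := (convexOn_Phi he T).convex_le 0
  simpa [body] using this

theorem Phi_zero (e : F) {T : ℝ} (hT : 0 ≤ T) : Phi e T 0 = -1 := by
  unfold Phi
  rw [inner_zero_right, bet_of_abs_le (by simpa using hT)]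
  simp

theorem continuous_Phi (e : F) (T : ℝ) : Continuous (Phi e T) := (contDiff_Phi e T).continuous

theorem body_mem_nhds (e : F) {T : ℝ} (hT : 0 ≤ T) : body e T ∈ 𝓝 (0 : F) := by
  have h1 : ∀ᶠ p in 𝓝 (0 : F), Phi e T p < 0 :=
    (continuous_Phi e T).continuousAt.eventually (Iio_mem_nhds (by rw [Phi_zero e hT]; norm_num))
  filter_upwards [h1] with p hp using le_of_lt hp

theorem isBounded_body {e : F} (he : ‖e‖ = 1) (T : ℝ) : Bornology.IsBounded (body e T) := by
  rw [isBounded_iff_forall_norm_le]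
  refine ⟨1 + (T + 1 + 1 / prof1 1), ?_⟩
  intro p hp
  have h0 : ‖yy e p‖ ^ 2 + bet T ⟪e, p⟫ ≤ 1 := by
    have : Phi e T p ≤ 0 := hp
    unfold Phi at this
    rw [norm_yy_sq he]
    linarith
  have h1 : bet T ⟪e, p⟫ ≤ 1 := by nlinarith [sq_nonneg ‖yy e p‖]
  have h2 := abs_le_of_bet_le h1
  have h3 : ‖yy e p‖ ≤ 1 := by
    have := bet_nonneg T ⟪e, p⟫
    nlinarith [norm_nonneg (yy e p)]
  have h4 : p = yy e p + ⟪e, p⟫ • e := by simp [yy]
  calc ‖p‖ = ‖yy e p + ⟪e, p⟫ • e‖ := by rw [← h4]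
    _ ≤ ‖yy e p‖ + ‖⟪e, p⟫ • e‖ := norm_add_le _ _
    _ = ‖yy e p‖ + |⟪e, p⟫| := by rw [norm_smul, he, mul_one, Real.norm_eq_abs]
    _ ≤ _ := add_le_add h3 h2

theorem isClosed_body (e : F) (T : ℝ) : IsClosed (body e T) :=
  isClosed_le (continuous_Phi e T) continuous_const

theorem frontier_body {e : F} (he : ‖e‖ = 1) {T : ℝ} (hT : 0 ≤ T) :
    frontier (body e T) = {p | Phi e T p = 0} := by
  apply Subset.antisymm
  · exact frontier_le_subset_eq (continuous_Phi e T) continuous_const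
  · intro p hp
    have hp' : Phi e T p = 0 := hp
    rw [(isClosed_body e T).frontier_eq]
    refine ⟨le_of_eq hp', ?_⟩
    intro hint
    -- some multiple `(1 + ε) p` is in the body
    have h1 : Tendsto (fun s : ℝ => (1 + s) • p) (𝓝[>] 0) (𝓝 p) := by
      have : Tendsto (fun s : ℝ => (1 + s) • p) (𝓝 0) (𝓝 p) := by
        apply Continuous.tendsto'
        · fun_prop
        · simp
      exact this.mono_left nhdsWithin_le_nhds
    have h2 : ∀ᶠ s in 𝓝[>] (0 : ℝ), (1 + s) • p ∈ body e T :=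
      h1.eventually (mem_interior_iff_mem_nhds.1 hint)
    obtain ⟨s, hs, hs0⟩ := (h2.and self_mem_nhdsWithin).exists
    have hs0' : (0 : ℝ) < s := hs0
    have ha : 0 ≤ 1 / (1 + s) := by positivity
    have hb : 0 ≤ s / (1 + s) := by positivity
    have hab : 1 / (1 + s) + s / (1 + s) = 1 := by field_simp
    have h3 := (convexOn_Phi he T).2 (mem_univ ((1 + s) • p)) (mem_univ (0 : F)) ha hb hab
    have h4 : (1 / (1 + s)) • ((1 + s) • p) + (s / (1 + s)) • (0 : F) = p := by
      rw [smul_zero, add_zero, smul_smul]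
      have : 1 / (1 + s) * (1 + s) = 1 := by field_simp
      rw [this, one_smul]
    rw [h4, hp', Phi_zero e hT] at h3
    have h5 : Phi e T ((1 + s) • p) ≤ 0 := hs
    have h6 : (1 / (1 + s)) • Phi e T ((1 + s) • p) ≤ 0 := by
      rw [smul_eq_mul]
      exact mul_nonpos_of_nonneg_of_nonpos (by positivity) h5
    have h7 : (s / (1 + s)) • (-1 : ℝ) < 0 := by
      rw [smul_eq_mul]
      have : 0 < s / (1 + s) := by positivity
      linarith
    linarith

theorem isCompact_zeroSet {e : F} (he : ‖e‖ = 1) (T : ℝ) : IsCompact {p | Phi e T p = 0} := by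
  apply Metric.isCompact_of_isClosed_isBounded
  · exact isClosed_eq (continuous_Phi e T) continuous_const
  · exact (isBounded_body he T).subset (fun p hp => le_of_eq hp)

/-- The radial retraction. -/
noncomputable def retr (e : F) (T : ℝ) (x : F) : F := (gauge (body e T) x)⁻¹ • x

theorem gauge_body_pos {e : F} (he : ‖e‖ = 1) {T : ℝ} (hT : 0 ≤ T) {x : F} (hx : x ≠ 0) :
    0 < gauge (body e T) x := by
  rw [gauge_pos (absorbent_nhds_zero (body_mem_nhds e hT))
    ((NormedSpace.isVonNBounded_iff ℝ).2 (isBounded_body he T))]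
  exact hx

theorem Phi_retr {e : F} (he : ‖e‖ = 1) {T : ℝ} (hT : 0 ≤ T) {x : F} (hx : x ≠ 0) :
    Phi e T (retr e T x) = 0 := by
  have h1 := gauge_body_pos he hT hx
  have h2 : gauge (body e T) (retr e T x) = 1 := by
    unfold retr
    rw [gauge_smul_of_nonneg (inv_nonneg.2 h1.le), smul_eq_mul, inv_mul_cancel₀ h1.ne']
  rw [gauge_eq_one_iff_mem_frontier (convex_body he T) (body_mem_nhds e hT),
    frontier_body he hT] at h2
  exact h2

theorem retr_eq {e : F} (he : ‖e‖ = 1) {T : ℝ} (hT : 0 ≤ T) {x : F} (hx : Phi e T x = 0) :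
    retr e T x = x := by
  have h2 : gauge (body e T) x = 1 := by
    rw [gauge_eq_one_iff_mem_frontier (convex_body he T) (body_mem_nhds e hT),
      frontier_body he hT]
    exact hx
  unfold retr
  rw [h2, inv_one, one_smul]

theorem ne_zero_of_Phi {e : F} {T : ℝ} (hT : 0 ≤ T) {x : F} (hx : Phi e T x = 0) : x ≠ 0 := by
  rintro rfl
  rw [Phi_zero e hT] at hx
  norm_num at hx

theorem continuousOn_retr {e : F} (he : ‖e‖ = 1) {T : ℝ} (hT : 0 ≤ T) :
    ContinuousOn (retr e T) {x | x ≠ 0} := by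
  unfold retr
  refine ContinuousOn.smul ?_ continuousOn_id
  exact (continuous_gauge (convex_body he T) (body_mem_nhds e hT)).continuousOn.inv₀
    (fun x hx => (gauge_body_pos he hT hx).ne')

theorem isConnected_zeroSet {e : F} (he : ‖e‖ = 1) {T : ℝ} (hT : 0 ≤ T)
    (hF : 2 < finrank ℝ F) : IsConnected {p | Phi e T p = 0} := by
  have h1 : IsConnected ({(0 : F)}ᶜ) := by
    apply isConnected_compl_singleton_of_one_lt_rank
    rw [← finrank_eq_rank]
    have : 1 < finrank ℝ F := by omega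
    exact_mod_cast this
  have h2 : {p | Phi e T p = 0} = retr e T '' ({(0 : F)}ᶜ) := by
    ext p
    constructor
    · intro hp
      exact ⟨p, ne_zero_of_Phi hT hp, retr_eq he hT hp⟩
    · rintro ⟨x, hx, rfl⟩
      exact Phi_retr he hT hx
  rw [h2]
  exact h1.image _ ((continuousOn_retr he hT).mono (fun x hx => hx))

/-- The sausage. -/
noncomputable def sausage {e : F} (he : ‖e‖ = 1) {T : ℝ} (hT : 0 ≤ T) (hF : 2 < finrank ℝ F) :
    EuclideanHypersurface F where
  Φ := Phi e T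
  contDiff := contDiff_Phi e T
  regular := fun _ hp => fderiv_Phi_ne_zero he hT hp
  connected := isConnected_zeroSet he hT hF

theorem sausage_splits {e : F} (he : ‖e‖ = 1) {T : ℝ} (hT : 0 ≤ T) (hF : 2 < finrank ℝ F)
    {ι : Type*} (Z : SignCocycle ι (sausage he hT hF).carrier) : Z.SplitsOn univ := by
  let f : {x : F // x ≠ 0} → (sausage he hT hF).carrier :=
    fun x => ⟨retr e T x.1, Phi_retr he hT x.2⟩
  let g : (sausage he hT hF).carrier → {x : F // x ≠ 0} := fun x => ⟨x.1, ne_zero_of_Phi hT x.2⟩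
  have hf : Continuous f := by
    refine Continuous.subtype_mk ?_ _
    exact (continuousOn_retr he hT).comp_continuous continuous_subtype_val (fun x => x.2)
  have hg : Continuous g := Continuous.subtype_mk continuous_subtype_val _
  refine Z.splitsOn_of_retract f hf g hg ?_ (splitsOn_punctured hF _)
  intro y
  apply Subtype.ext
  exact retr_eq he hT y.2

end Pool.Agent.H48.IndexOne
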